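import Pool.Agent.TH519.HS.Log

/-!
# Counting tuples of independent logarithms with relations of bounded degree
-/

set_option autoImplicit false

namespace Pool.Agent.TH519.HS

open Module Pool.Agent.TH519.GL Pool.Agent.TH519.FE
open Pool.Agent.H301R2.SSE (QB mem_QB Lt Lt_log)

theorem li_cons {N : ℕ} (l : Fin N → ℂ) (halg : ∀ j, IsAlgebraic ℚ (Complex.exp (l j)))
    (hli : LinearIndependent ℚ l) :
    LinearIndependent QB (Fin.cons 1 l : Fin (N + 1) → ℂ) := by
  rw [Fintype.linearIndependent_iff]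
  intro g hg
  rw [Fin.sum_univ_succ] at hg
  simp only [Fin.cons_zero, Fin.cons_succ] at hg
  have h1 : (g 0 : ℂ) + ∑ i : Fin N, (g i.succ : ℂ) * l i = 0 := by
    rw [← hg, Algebra.smul_def, mul_one]
    congr 1
  obtain ⟨h2, h3⟩ := Pool.Agent.H297R2.baker_inhom l halg hli (g 0) (mem_QB.1 (g 0).2)
    (fun i => (g i.succ : ℂ)) (fun i => mem_QB.1 (g i.succ).2) h1
  intro i
  refine Fin.cases ?_ (fun i => ?_) i
  · exact_mod_cast h2
  · exact_mod_cast h3 i

theorem alg_comb {N : ℕ} (l : Fin N → ℂ) (halg : ∀ j, IsAlgebraic ℚ (Complex.exp (l j)))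
    (a : Fin N → ℤ) : IsAlgebraic ℚ (Complex.exp (∑ j, (a j : ℂ) * l j)) := by
  rw [Complex.exp_sum]
  refine Finset.prod_induction _ (IsAlgebraic ℚ) (fun _ _ => IsAlgebraic.mul) isAlgebraic_one
    fun j _ => ?_
  rw [Complex.exp_int_mul]
  rcases Int.eq_nat_or_neg (a j) with ⟨n, h | h⟩
  · rw [h, zpow_natCast]
    exact (halg j).pow n
  · rw [h, zpow_neg, zpow_natCast]
    exact ((halg j).pow n).inv

theorem box_finite (m N H : ℕ) : {A : Fin m → Fin N → ℤ | ∀ i j, |A i j| ≤ H}.Finite := by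
  have h1 : ((Fintype.piFinset fun _ : Fin m => Fintype.piFinset fun _ : Fin N =>
      Finset.Icc (-(H : ℤ)) H : Finset (Fin m → Fin N → ℤ)) :
      Set (Fin m → Fin N → ℤ)).Finite := Finset.finite_toSet _
  refine h1.subset fun A hA => ?_
  rw [Finset.mem_coe, Fintype.mem_piFinset]
  intro i
  rw [Fintype.mem_piFinset]
  intro j
  rw [Finset.mem_Icc, ← abs_le]
  exact hA i j

theorem log_count {N : ℕ} (l : Fin N → ℂ) (halg : ∀ j, IsAlgebraic ℚ (Complex.exp (l j)))
    (hli : LinearIndependent ℚ l) (m D : ℕ) :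
    ∃ κ : ℕ, ∀ H : ℕ, 1 ≤ H → Set.ncard {A : Fin m → Fin N → ℤ | (∀ i j, |A i j| ≤ H) ∧
      LinearIndependent ℚ (fun i => ∑ j, (A i j : ℂ) * l j) ∧
      RlK QB D (fun i => ∑ j, (A i j : ℂ) * l j)} ≤
      κ * H ^ (m * (m - 1) + (m - 2) * N + (D + m).choose m - 1) := by
  have h1 : LinearIndependent QB l := by
    have h2 := li_cons l halg hli
    have h3 := h2.comp Fin.succ (Fin.succ_injective N)
    have h4 : (Fin.cons 1 l : Fin (N + 1) → ℂ) ∘ Fin.succ = l := by
      funext i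
      rw [Function.comp_apply, Fin.cons_succ]
    rwa [h4] at h3
  obtain ⟨κ, hκ⟩ := pure_count l h1 (fun j => Lt_log (halg j)) m D
  refine ⟨κ, fun H hH => le_trans (Set.ncard_le_ncard ?_ ?_) (hκ H hH)⟩
  · rintro A ⟨hA1, hA2, hA3⟩
    exact ⟨hA1, li_cons _ (fun i => alg_comb l halg (A i)) hA2, hA3⟩
  · exact (box_finite m N H).subset fun A hA => hA.1

end Pool.Agent.TH519.HS
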