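import Pool.Agent.TH519.FE.Dim

/-!
# Tangent spaces at generic points with coordinates linear forms in logarithms
-/

set_option autoImplicit false

namespace Pool.Agent.TH519.HS

open Filter Module Pool.Agent.TH519.GL Pool.Agent.TH519.FE
open Pool.Agent.H301R2.SSE (QB mem_QB Lt Lt_log)

instance countable_QB : Countable QB := by
  have h1 : {x : ℂ | IsAlgebraic ℚ x}.Countable := Algebraic.countable ℚ ℂ
  have h2 : (QB : Set ℂ) = {x : ℂ | IsAlgebraic ℚ x} := by
    ext x
    exact mem_QB
  have h3 : (QB : Set ℂ).Countable := by rw [h2]; exact h1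
  exact h3.to_subtype

/-- generic complex combinations of equations have no more rational solutions -/
theorem exists_weights {r m : ℕ} (G : Fin r → Fin m → ℂ) :
    ∃ γ : Fin r → ℂ, ∀ v : Fin m → QB, ∑ i, (v i : ℂ) * ∑ j, γ j * G j i = 0 →
      ∀ j, ∑ i, (v i : ℂ) * G j i = 0 := by
  classical
  let q : (Fin m → QB) → Polynomial ℂ := fun v =>
    ∑ j : Fin r, Polynomial.C (∑ i, (v i : ℂ) * G j i) * Polynomial.X ^ (j : ℕ)
  have hcount : (⋃ v ∈ {v : Fin m → QB | q v ≠ 0}, {τ : ℂ | (q v).IsRoot τ}).Countable := by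
    apply Set.Countable.biUnion (Set.to_countable _)
    intro v hv
    exact (Polynomial.finite_setOfPred_isRoot hv).countable
  obtain ⟨τ, hτ⟩ : ∃ τ, τ ∉ (⋃ v ∈ {v : Fin m → QB | q v ≠ 0}, {τ : ℂ | (q v).IsRoot τ}) := by
    by_contra h
    push Not at h
    have h1 : (Set.univ : Set ℂ).Countable := hcount.mono fun x _ => h x
    exact not_countable_complex h1
  refine ⟨fun j => τ ^ (j : ℕ), fun v hv => ?_⟩
  have h1 : q v = 0 := by
    by_contra h
    apply hτ
    refine Set.mem_biUnion (show v ∈ {v : Fin m → QB | q v ≠ 0} from h) ?_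
    change (q v).IsRoot τ
    rw [Polynomial.IsRoot.def, Polynomial.eval_finsetSum, ← hv]
    simp only [Polynomial.eval_mul, Polynomial.eval_C, Polynomial.eval_pow, Polynomial.eval_X,
      Finset.mul_sum, Finset.sum_mul]
    rw [Finset.sum_comm]
    refine Finset.sum_congr rfl fun i _ => Finset.sum_congr rfl fun j _ => ?_
    ring
  intro j
  have h2 := congrArg (fun p => Polynomial.coeff p (j : ℕ)) h1
  simp only [q, Polynomial.finsetSum_coeff, Polynomial.coeff_C_mul, Polynomial.coeff_X_pow,
    Polynomial.coeff_zero] at h2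
  rw [Finset.sum_eq_single j] at h2
  · simpa using h2
  · intro i _ hij
    rw [if_neg (fun h => hij (Fin.ext h.symm)), mul_zero]
  · intro h; exact absurd (Finset.mem_univ j) h

/-- functionals detect elements -/
theorem eq_zero_of_functionals (z : ℂ) (h : ∀ ψ : ℂ →ₗ[QB] QB, ψ z = 0) : z = 0 :=
  (Module.forall_dual_apply_eq_zero_iff QB z).1 h

/-- **The linear algebra of tangent vectors.** -/
theorem tangent_bound {m n r s : ℕ} (G : Fin r → Fin m → ℂ) (e : Fin s → Fin m)
    (hG : ∀ v : Fin m → QB, (∃ i, v (e i) ≠ 0) → ∃ j, ∑ i, (v i : ℂ) * G j i ≠ 0)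
    (dy : Fin n → Fin m → ℂ) (hdy : ∀ k i, dy k i ∈ Lt)
    (hrel : ∀ k j, ∑ i, G j i * dy k i = 0)
    (hind : ∀ p : Fin n → QB, (∀ i, ∑ k, (p k : ℂ) * dy k (e i) = 0) → p = 0) :
    n ≤ m * (m - 1) := by
  classical
  obtain ⟨γ, hγ⟩ := exists_weights G
  set a : Fin m → ℂ := fun i => ∑ j, γ j * G j i with ha
  set V : Submodule QB ℂ := Submodule.span QB (Set.range a) with hV
  have hfd : FiniteDimensional QB V := FiniteDimensional.span_of_finite QB (Set.finite_range a)
  have hVm : finrank QB V ≤ m := by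
    have := finrank_range_le_card (R := QB) a
    rwa [Fintype.card_fin] at this
  let B := Module.finBasis QB V
  set ξ : Fin (finrank QB V) → ℂ := fun t => ((B t : V) : ℂ) with hξ
  have hξi : LinearIndependent QB ξ :=
    B.linearIndependent.map' V.subtype (Submodule.ker_subtype _)
  have hmem : ∀ i, a i ∈ V := fun i => Submodule.subset_span ⟨i, rfl⟩
  set R : Fin m → Fin (finrank QB V) → QB := fun i t => B.repr ⟨a i, hmem i⟩ t with hR
  have haR : ∀ i, a i = ∑ t, (R i t : ℂ) * ξ t := by
    intro i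
    have h1 := congrArg (fun y : V => (y : ℂ)) (B.sum_repr ⟨a i, hmem i⟩)
    simp only [Submodule.coe_sum, Submodule.coe_smul] at h1
    rw [← h1]
    refine Finset.sum_congr rfl fun t _ => ?_
    rw [Algebra.smul_def]
    rfl
  have hsum : ∀ (w : Fin m → ℂ), ∑ t, ξ t * ∑ i, (R i t : ℂ) * w i = ∑ i, a i * w i := by
    intro w
    simp only [haR, Finset.mul_sum, Finset.sum_mul]
    rw [Finset.sum_comm]
    refine Finset.sum_congr rfl fun i _ => Finset.sum_congr rfl fun t _ => ?_
    ring
  have hmain := rank_bound (s := 0) ξ hξi (fun k t => ∑ i, (R i t : ℂ) * dy k i) (by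
    intro k t
    refine Submodule.sum_mem _ fun i _ => ?_
    exact smul_Lt _ (hdy k i)) (by
    intro k
    rw [hsum]
    simp only [ha, Finset.sum_mul]
    rw [Finset.sum_comm]
    refine Finset.sum_eq_zero fun j _ => ?_
    have : ∑ i, γ j * G j i * dy k i = γ j * ∑ i, G j i * dy k i := by
      rw [Finset.mul_sum]
      refine Finset.sum_congr rfl fun i _ => ?_
      ring
    rw [this, hrel, mul_zero]) (fun _ => isEmptyElim) (by
    intro p hp _
    refine hind p fun i₀ => ?_
    set Y : Fin m → ℂ := fun i => ∑ k, (p k : ℂ) * dy k i with hY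
    have hY0 : ∀ t, ∑ i, (R i t : ℂ) * Y i = 0 := by
      intro t
      rw [← hp t]
      simp only [hY, Finset.mul_sum]
      rw [Finset.sum_comm]
      refine Finset.sum_congr rfl fun k _ => Finset.sum_congr rfl fun i _ => ?_
      ring
    change Y (e i₀) = 0
    refine eq_zero_of_functionals _ fun ψ => ?_
    by_contra hne
    obtain ⟨j, hj⟩ := hG (fun i => ψ (Y i)) ⟨i₀, hne⟩
    apply hj
    refine hγ (fun i => ψ (Y i)) ?_ j
    have h1 : ∀ t, ∑ i, R i t * ψ (Y i) = 0 := by
      intro t
      have h2 := congrArg ψ (hY0 t)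
      rw [map_zero, map_sum] at h2
      rw [← h2]
      refine Finset.sum_congr rfl fun i _ => ?_
      have h3 : (R i t : ℂ) * Y i = R i t • Y i := by
        rw [Algebra.smul_def]
        rfl
      rw [h3, map_smul, smul_eq_mul]
    have h4 := hsum (fun i => (ψ (Y i) : ℂ))
    have h5 : ∑ t, ξ t * ∑ i, (R i t : ℂ) * (ψ (Y i) : ℂ) = 0 := by
      refine Finset.sum_eq_zero fun t _ => ?_
      have h6 := congrArg (fun q : QB => (q : ℂ)) (h1 t)
      push_cast at h6
      rw [h6, mul_zero]
    rw [h5] at h4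
    rw [h4]
    refine Finset.sum_congr rfl fun i _ => ?_
    rw [mul_comm])
  rw [add_zero] at hmain
  exact hmain.trans (Nat.mul_le_mul hVm (Nat.sub_le_sub_right hVm 1))

end Pool.Agent.TH519.HS
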