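import Pool.Agent.TH519.HS.Lin
import Pool.Agent.TH519.FE.Fin

/-!
# Points on families of algebraic varieties with coordinates linear forms in logarithms
-/

set_option autoImplicit false

namespace Pool.Agent.TH519.HS

open Filter Module Pool.Agent.TH519.GL Pool.Agent.TH519.FE
open Pool.Agent.H301R2.SSE (QB mem_QB Lt Lt_log)

section hd

variable {ι : Type} {𝒰 : Ultrafilter ι}
  {D : Derivation ℤ (Germ (𝒰 : Filter ι) ℂ) (Germ (𝒰 : Filter ι) ℂ)}

theorem HDc (hD : ∀ z : ℂ, D (gh 𝒰 ℂ (fun _ => z)) = 0) (z : ℂ) :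
    HD D (fun _ => z) (fun _ => 0) := by
  unfold HD
  rw [hD]
  exact (map_zero (gh 𝒰 ℂ)).symm

/-- the chain rule -/
theorem HDeval {σ : Type} [Fintype σ] (hD : ∀ z : ℂ, D (gh 𝒰 ℂ (fun _ => z)) = 0)
    (y dy : ι → σ → ℂ) (hy : ∀ i, HD D (fun b => y b i) (fun b => dy b i))
    (f : MvPolynomial σ ℂ) :
    HD D (fun b => MvPolynomial.eval (y b) f)
      (fun b => ∑ i, MvPolynomial.eval (y b) (MvPolynomial.pderiv i f) * dy b i) := by
  classical
  induction f using MvPolynomial.induction_on with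
  | C a =>
    simp only [MvPolynomial.eval_C, MvPolynomial.pderiv_C, map_zero, zero_mul,
      Finset.sum_const_zero]
    exact HDc hD a
  | add p q hp hq =>
    have h := HD.add hp hq
    have e1 : (fun b => MvPolynomial.eval (y b) (p + q)) =
        fun b => MvPolynomial.eval (y b) p + MvPolynomial.eval (y b) q := by
      funext b
      rw [map_add]
    have e2 : (fun b => ∑ i, MvPolynomial.eval (y b) (MvPolynomial.pderiv i (p + q)) * dy b i) =
        fun b => ∑ i, MvPolynomial.eval (y b) (MvPolynomial.pderiv i p) * dy b i +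
          ∑ i, MvPolynomial.eval (y b) (MvPolynomial.pderiv i q) * dy b i := by
      funext b
      rw [← Finset.sum_add_distrib]
      refine Finset.sum_congr rfl fun i _ => ?_
      rw [map_add, map_add, add_mul]
    rw [e1, e2]
    exact h
  | mul_X p n hp =>
    have h := HD.mul hp (hy n)
    have e1 : (fun b => MvPolynomial.eval (y b) (p * MvPolynomial.X n)) =
        fun b => MvPolynomial.eval (y b) p * y b n := by
      funext b
      rw [map_mul, MvPolynomial.eval_X]
    have e2 : (fun b => ∑ i, MvPolynomial.eval (y b)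
        (MvPolynomial.pderiv i (p * MvPolynomial.X n)) * dy b i) =
        fun b => MvPolynomial.eval (y b) p * dy b n + y b n *
          ∑ i, MvPolynomial.eval (y b) (MvPolynomial.pderiv i p) * dy b i := by
      funext b
      have e3 : ∀ i, MvPolynomial.eval (y b) (MvPolynomial.pderiv i (p * MvPolynomial.X n)) =
          MvPolynomial.eval (y b) p * (if n = i then 1 else 0) +
            y b n * MvPolynomial.eval (y b) (MvPolynomial.pderiv i p) := by
        intro i
        rw [Derivation.leibniz, map_add, smul_eq_mul, smul_eq_mul, map_mul, map_mul,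
          MvPolynomial.eval_X, MvPolynomial.pderiv_X, Pi.single_apply]
        split_ifs with h1
        · rw [map_one]
        · rw [map_zero]
      simp only [e3, add_mul, Finset.sum_add_distrib, Finset.mul_sum]
      congr 1
      · rw [Finset.sum_eq_single n]
        · rw [if_pos rfl, mul_one]
        · intro i _ hi
          rw [if_neg (Ne.symm hi), mul_zero, zero_mul]
        · intro h; exact absurd (Finset.mem_univ n) h
      · refine Finset.sum_congr rfl fun i _ => ?_
        ring
    rw [e1, e2]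
    exact h

end hd

/-- a point with parameters -/
noncomputable def pt {m p M : ℕ} (l' : Fin M → ℂ) (b : Fin m → Fin M → QB) (c : Fin p → QB) :
    Fin m ⊕ Fin p → ℂ :=
  Sum.elim (fun i => cmb l' (b i)) (fun l => (c l : ℂ))

/-- the rational relations between the partial derivatives -/
noncomputable def RelP {m p r : ℕ} (z : Fin m ⊕ Fin p → ℂ)
    (f : Fin r → MvPolynomial (Fin m ⊕ Fin p) ℂ) : Submodule QB (Fin m → QB) :=
  Rel (fun j i => MvPolynomial.eval z (MvPolynomial.pderiv (Sum.inl i) (f j)))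

/-- **Master theorem.** -/
theorem master {M m r s p ρ : ℕ} (l' : Fin M → ℂ) (hl : LinearIndependent QB l')
    (hl' : ∀ j, l' j ∈ Lt) (f : Fin r → MvPolynomial (Fin m ⊕ Fin p) ℂ) (e : Fin s → Fin m)
    (φ : Fin (m * (m - 1) + ρ * M + p + 1) → ((Fin s × Fin M → QB) →ₗ[QB] QB)) :
    ∃ P : MvPolynomial (Fin (m * (m - 1) + ρ * M + p + 1)) QB, P ≠ 0 ∧
      ∀ (b : Fin m → Fin M → QB) (c : Fin p → QB),
        (∀ j, MvPolynomial.eval (pt l' b c) (f j) = 0) →
        finrank QB ((RelP (pt l' b c) f).map (LinearMap.funLeft QB QB e)) ≤ ρ →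
        MvPolynomial.eval (fun k => φ k (fun q => b (e q.1) q.2)) P = 0 := by
  classical
  by_contra hcon
  push Not at hcon
  set ι : Type := {x : (Fin m → Fin M → QB) × (Fin p → QB) //
    (∀ j, MvPolynomial.eval (pt l' x.1 x.2) (f j) = 0) ∧
    finrank QB ((RelP (pt l' x.1 x.2) f).map (LinearMap.funLeft QB QB e)) ≤ ρ} with hι
  obtain ⟨𝒰, hgen⟩ := exists_ultra' (ι := ι)
    (fun x k => φ k (fun q => x.1.1 (e q.1) q.2)) (by
    intro P hP
    obtain ⟨b, c, h1, h2, h3⟩ := hcon P hP
    exact ⟨⟨(b, c), h1, h2⟩, h3⟩)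
  obtain ⟨D, g, hg, hD2, hDc, hφ⟩ := exists_system 𝒰
    (fun (x : ι) (q : Fin s × Fin M) => x.1.1 (e q.1) q.2) φ hgen
  set dy : Fin (m * (m - 1) + ρ * M + p + 1) → ι → Fin m ⊕ Fin p → ℂ := fun k x =>
    Sum.elim (fun i => cmb l' (fun j => g k (fun x => x.1.1 i j) x))
      (fun l => (g k (fun x => x.1.2 l) x : ℂ)) with hdy
  have hHD : ∀ k i, HD (D k) (fun x : ι => pt l' x.1.1 x.1.2 i) (fun x => dy k x i) := by
    intro k i
    cases i with
    | inl i => exact hDc l' k (fun x => x.1.1 i)
    | inr l => exact hg k (fun x => x.1.2 l)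
  have hrel : ∀ᶠ x in (𝒰 : Filter ι), ∀ k j, ∑ i,
      MvPolynomial.eval (pt l' x.1.1 x.1.2) (MvPolynomial.pderiv i (f j)) * dy k x i = 0 := by
    rw [Filter.eventually_all]
    intro k
    rw [Filter.eventually_all]
    intro j
    refine HD.congr (HDeval (hD2 k) (fun (x : ι) => pt l' x.1.1 x.1.2) (dy k) (hHD k) (f j))
      (HDc (hD2 k) 0) (Filter.Eventually.of_forall fun x => x.2.1 j)
  have hind : ∀ᶠ x in (𝒰 : Filter ι), ∀ q : Fin (m * (m - 1) + ρ * M + p + 1) → QB,
      (∀ i j, ∑ k, q k * g k (fun x => x.1.1 (e i) j) x = 0) → q = 0 := by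
    refine hφ.mono fun x hx q hq => ?_
    refine eq_zero_of_dual φ (fun k q => g k (fun x => x.1.1 (e q.1) q.2) x) hx q ?_
    rintro ⟨i, j⟩
    exact hq i j
  obtain ⟨x, hx1, hx2⟩ := (hrel.and hind).exists
  have := tangent_bound' l' hl hl'
    (fun j i => MvPolynomial.eval (pt l' x.1.1 x.1.2) (MvPolynomial.pderiv (Sum.inl i) (f j)))
    (fun j l => MvPolynomial.eval (pt l' x.1.1 x.1.2) (MvPolynomial.pderiv (Sum.inr l) (f j)))
    e x.2.2 (fun k i j => g k (fun x => x.1.1 i j) x) (fun k l => g k (fun x => x.1.2 l) x)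
    (by
      intro k j
      have h1 := hx1 k j
      rw [Fintype.sum_sum_type] at h1
      exact h1) hx2
  omega

end Pool.Agent.TH519.HS
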