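import Pool.Agent.TH519.HS.Gen2
import Pool.Agent.TH519.HS.Mas

/-!
# Families of singular matrices: tangent vectors
-/

set_option autoImplicit false

namespace Pool.Agent.TH519.HS

open Filter Module Pool.Agent.TH519.GL Pool.Agent.TH519.FE
open Pool.Agent.H301R2.SSE (QB mem_QB Lt Lt_log)

section hd

variable {ι : Type} {𝒰 : Ultrafilter ι}
  {D : Derivation ℤ (Germ (𝒰 : Filter ι) ℂ) (Germ (𝒰 : Filter ι) ℂ)}

theorem HDsum (hD : ∀ z : ℂ, D (gh 𝒰 ℂ (fun _ => z)) = 0) {κ : Type} (s : Finset κ)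
    (f f' : κ → ι → ℂ) (h : ∀ i, HD D (f i) (f' i)) :
    HD D (fun b => ∑ i ∈ s, f i b) (fun b => ∑ i ∈ s, f' i b) := by
  classical
  induction s using Finset.induction_on with
  | empty =>
    simp only [Finset.sum_empty]
    exact HDc hD 0
  | insert a s ha ih =>
    simp only [Finset.sum_insert ha]
    exact (h a).add ih

end hd

/-- the data of a singular matrix with the entries `m` -/
def Data {n : ℕ} (a s : ℕ) (m : Fin n × Fin n → ℂ)
    (g : Fin a × Fin n → QB) (u : Fin a → ℂ) (X : Fin s → Fin n → ℂ) : Prop :=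
  (∀ j, ∑ α, ∑ i, u α * (g (α, i) : ℂ) * m (i, j) = 0) ∧
  (∀ t α, ∑ i, ∑ j, (g (α, i) : ℂ) * m (i, j) * X t j = 0) ∧
  finrank QB (RelG (fun (t : Fin s) (p : Fin n × Fin n) =>
    (∑ α, u α * (g (α, p.1) : ℂ)) * X t p.2)) + (n + 1) ≤ n * n

theorem bil_id {n a s : ℕ} (u : Fin a → ℂ) (g dg : Fin a × Fin n → ℂ)
    (m dm : Fin n × Fin n → ℂ) (X dX : Fin s → Fin n → ℂ)
    (h1 : ∀ j, ∑ α, ∑ i, u α * g (α, i) * m (i, j) = 0)
    (h2 : ∀ t α, ∑ i, ∑ j, (g (α, i) * m (i, j) * dX t j +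
      X t j * (g (α, i) * dm (i, j) + m (i, j) * dg (α, i))) = 0) (t : Fin s) :
    ∑ p : Fin n × Fin n, (∑ α, u α * g (α, p.1)) * X t p.2 * dm p +
      ∑ p : Fin a × Fin n, (u p.1 * ∑ j, m (p.2, j) * X t j) * dg p = 0 := by
  have h3 : ∑ α, u α * ∑ i, ∑ j, (g (α, i) * m (i, j) * dX t j +
      X t j * (g (α, i) * dm (i, j) + m (i, j) * dg (α, i))) = 0 :=
    Finset.sum_eq_zero fun α _ => by rw [h2, mul_zero]
  have h4 : ∑ j, (∑ α, ∑ i, u α * g (α, i) * m (i, j)) * dX t j = 0 :=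
    Finset.sum_eq_zero fun j _ => by rw [h1, zero_mul]
  have h5 : ∑ α, u α * ∑ i, ∑ j, (g (α, i) * m (i, j) * dX t j +
      X t j * (g (α, i) * dm (i, j) + m (i, j) * dg (α, i))) =
      ∑ α, ∑ i, ∑ j, u α * g (α, i) * m (i, j) * dX t j +
      (∑ α, ∑ i, ∑ j, u α * g (α, i) * X t j * dm (i, j) +
      ∑ α, ∑ i, ∑ j, u α * m (i, j) * X t j * dg (α, i)) := by
    simp only [Finset.mul_sum, ← Finset.sum_add_distrib]
    refine Finset.sum_congr rfl fun α _ => Finset.sum_congr rfl fun i _ =>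
      Finset.sum_congr rfl fun j _ => ?_
    ring
  have h6 : ∑ α, ∑ i, ∑ j, u α * g (α, i) * m (i, j) * dX t j = 0 := by
    rw [← h4]
    simp only [Finset.sum_mul]
    rw [Finset.sum_comm]
    have h7 : ∀ i : Fin n, ∑ α, ∑ j, u α * g (α, i) * m (i, j) * dX t j =
        ∑ j, ∑ α, u α * g (α, i) * m (i, j) * dX t j := fun i => Finset.sum_comm
    simp only [h7]
    rw [Finset.sum_comm]
    refine Finset.sum_congr rfl fun j _ => ?_
    rw [Finset.sum_comm]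
  have h8 : ∑ p : Fin n × Fin n, (∑ α, u α * g (α, p.1)) * X t p.2 * dm p =
      ∑ α, ∑ i, ∑ j, u α * g (α, i) * X t j * dm (i, j) := by
    rw [Fintype.sum_prod_type]
    simp only [Finset.sum_mul]
    have h7 : ∀ i : Fin n, ∑ j, ∑ α, u α * g (α, i) * X t j * dm (i, j) =
        ∑ α, ∑ j, u α * g (α, i) * X t j * dm (i, j) := fun i => Finset.sum_comm
    simp only [h7]
    rw [Finset.sum_comm]
  have h9 : ∑ p : Fin a × Fin n, (u p.1 * ∑ j, m (p.2, j) * X t j) * dg p =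
      ∑ α, ∑ i, ∑ j, u α * m (i, j) * X t j * dg (α, i) := by
    rw [Fintype.sum_prod_type]
    refine Finset.sum_congr rfl fun α _ => Finset.sum_congr rfl fun i _ => ?_
    rw [Finset.mul_sum, Finset.sum_mul]
    refine Finset.sum_congr rfl fun j _ => ?_
    ring
  rw [h8, h9, ← h3, h5, h6, zero_add]

/-- **Families of singular matrices.** -/
theorem bil {n M a s q : ℕ} (l' : Fin M → ℂ) (hl : LinearIndependent QB l')
    (hl' : ∀ j, l' j ∈ Lt) (hMn : n * n + n ≤ M)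
    (hq : q = (n + 1) * n + (n * n - (n + 1)) * M + a * n + 1)
    (φ : Fin q → (((Fin n × Fin n) × Fin M → QB) →ₗ[QB] QB)) :
    ∃ P : MvPolynomial (Fin q) QB, P ≠ 0 ∧ ∀ b : Fin n × Fin n → Fin M → QB,
      (∃ (g : Fin a × Fin n → QB) (u : Fin a → ℂ) (X : Fin s → Fin n → ℂ),
        Data a s (fun p => cmb l' (b p)) g u X) →
      MvPolynomial.eval (fun k => φ k (fun p => b p.1 p.2)) P = 0 := by
  classical
  by_contra hcon
  push Not at hcon
  set ι : Type := {x : (Fin n × Fin n → Fin M → QB) × (Fin a × Fin n → QB) × (Fin a → ℂ) ×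
    (Fin s → Fin n → ℂ) // Data a s (fun p => cmb l' (x.1 p)) x.2.1 x.2.2.1 x.2.2.2} with hι
  obtain ⟨𝒰, hgen⟩ := exists_ultra' (ι := ι)
    (fun x k => φ k (fun p => x.1.1 p.1 p.2)) (by
    intro P hP
    obtain ⟨b, ⟨g, u, X, h1⟩, h2⟩ := hcon P hP
    exact ⟨⟨(b, g, u, X), h1⟩, h2⟩)
  obtain ⟨D, g, hg, hD2, hDc, hφ⟩ := exists_system 𝒰
    (fun (x : ι) (p : (Fin n × Fin n) × Fin M) => x.1.1 p.1 p.2) φ hgen
  have hX : ∀ k t j, ∃ dX : ι → ℂ, HD (D k) (fun x : ι => x.1.2.2.2 t j) dX := by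
    intro k t j
    obtain ⟨a, ha⟩ := gh_surj 𝒰 ℂ (D k (gh 𝒰 ℂ (fun x : ι => x.1.2.2.2 t j)))
    exact ⟨a, ha.symm⟩
  choose dX hdX using hX
  have hM : ∀ k p, HD (D k) (fun x : ι => cmb l' (x.1.1 p))
      (fun x => cmb l' (fun j => g k (fun x => x.1.1 p j) x)) :=
    fun k p => hDc l' k (fun x => x.1.1 p)
  have hgg : ∀ k p, HD (D k) (fun x : ι => ((x.1.2.1 p : QB) : ℂ))
      (fun x => ((g k (fun x => x.1.2.1 p) x : QB) : ℂ)) :=
    fun k p => hg k (fun x => x.1.2.1 p)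
  have hrel : ∀ᶠ x in (𝒰 : Filter ι), ∀ k t α, ∑ i, ∑ j,
      ((x.1.2.1 (α, i) : ℂ) * cmb l' (x.1.1 (i, j)) * dX k t j x +
        x.1.2.2.2 t j * ((x.1.2.1 (α, i) : ℂ) *
          cmb l' (fun m => g k (fun x => x.1.1 (i, j) m) x) +
        cmb l' (x.1.1 (i, j)) * ((g k (fun x => x.1.2.1 (α, i)) x : QB) : ℂ))) = 0 := by
    rw [Filter.eventually_all]
    intro k
    rw [Filter.eventually_all]
    intro t
    rw [Filter.eventually_all]
    intro α
    refine HD.congr (HDsum (hD2 k) Finset.univ _ _ fun i => HDsum (hD2 k) Finset.univ _ _ fun j =>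
      ((hgg k (α, i)).mul (hM k (i, j))).mul (hdX k t j))
      (HDc (hD2 k) 0) (Filter.Eventually.of_forall fun x => x.2.2.1 t α)
  have hind : ∀ᶠ x in (𝒰 : Filter ι), ∀ c : Fin q → QB,
      (∀ p j, ∑ k, c k * g k (fun x => x.1.1 p j) x = 0) → c = 0 := by
    refine hφ.mono fun x hx c hc => ?_
    refine eq_zero_of_dual φ (fun k p => g k (fun x => x.1.1 p.1 p.2) x) hx c ?_
    rintro ⟨p, j⟩
    exact hc p j
  obtain ⟨x, hx1, hx2⟩ := (hrel.and hind).exists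
  have h3 := tangent_boundH (n := q) (v₀ := n + 1) l' hl hl'
    (fun (t : Fin s) (p : Fin n × Fin n) =>
      (∑ α, x.1.2.2.1 α * (x.1.2.1 (α, p.1) : ℂ)) * x.1.2.2.2 t p.2)
    (fun (t : Fin s) (p : Fin a × Fin n) =>
      x.1.2.2.1 p.1 * ∑ j, cmb l' (x.1.1 (p.2, j)) * x.1.2.2.2 t j)
    (by
      have h4 := x.2.2.2
      rw [Fintype.card_prod, Fintype.card_fin]
      exact h4)
    (by
      rw [Fintype.card_prod, Fintype.card_fin]
      omega)
    (fun k p j => g k (fun x => x.1.1 p j) x) (fun k p => g k (fun x => x.1.2.1 p) x)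
    (by
      intro k t
      exact bil_id x.1.2.2.1 (fun p => (x.1.2.1 p : ℂ))
        (fun p => ((g k (fun x => x.1.2.1 p) x : QB) : ℂ)) (fun p => cmb l' (x.1.1 p))
        (fun p => cmb l' (fun j => g k (fun x => x.1.1 p j) x)) x.1.2.2.2
        (fun t j => dX k t j x) x.2.1 (fun t α => hx1 k t α) t) hx2
  rw [Fintype.card_prod, Fintype.card_fin, Fintype.card_prod, Fintype.card_fin,
    Fintype.card_fin, Nat.add_sub_cancel] at h3
  omega

end Pool.Agent.TH519.HS
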