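import Mathlib

/-!
# Integer points in sets of bounded dimension
-/

set_option autoImplicit false

namespace Pool.Agent.TH519.HS

open MvPolynomial

variable {K : Type} [Field K]

/-- the restriction of a polynomial to a line -/
noncomputable def lineP {σ : Type} (x c : σ → K) : MvPolynomial σ K →ₐ[K] Polynomial K :=
  aeval fun i => Polynomial.C (x i) + Polynomial.X * Polynomial.C (c i)

theorem lineP_eval {σ : Type} (x c : σ → K) (P : MvPolynomial σ K) (t : K) :
    (lineP x c P).eval t = eval (fun i => x i + t * c i) P := by
  induction P using MvPolynomial.induction_on with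
  | C a =>
    rw [lineP, algHom_C, eval_C]
    change (Polynomial.C a).eval t = a
    rw [Polynomial.eval_C]
  | add p q hp hq => rw [map_add, Polynomial.eval_add, hp, hq, map_add]
  | mul_X p n hp =>
    rw [map_mul, Polynomial.eval_mul, hp, map_mul, eval_X, lineP, aeval_X]
    congr 1
    rw [Polynomial.eval_add, Polynomial.eval_mul, Polynomial.eval_C, Polynomial.eval_C,
      Polynomial.eval_X]

theorem lin_natDegree {σ : Type} (x c : σ → K) (i : σ) :
    (Polynomial.C (x i) + Polynomial.X * Polynomial.C (c i)).natDegree ≤ 1 := by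
  compute_degree

theorem lin_coeff {σ : Type} (x c : σ → K) (i : σ) :
    (Polynomial.C (x i) + Polynomial.X * Polynomial.C (c i)).coeff 1 = c i := by
  rw [Polynomial.coeff_add, Polynomial.coeff_C, if_neg one_ne_zero, zero_add,
    Polynomial.coeff_mul_C, Polynomial.coeff_X_one, one_mul]

theorem prod_line {σ : Type} (x c : σ → K) (s : σ →₀ ℕ) (T : Finset σ) :
    (∏ i ∈ T, (Polynomial.C (x i) + Polynomial.X * Polynomial.C (c i)) ^ s i).natDegree ≤
      ∑ i ∈ T, s i ∧
    (∏ i ∈ T, (Polynomial.C (x i) + Polynomial.X * Polynomial.C (c i)) ^ s i).coeff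
      (∑ i ∈ T, s i) = ∏ i ∈ T, c i ^ s i := by
  classical
  induction T using Finset.induction_on with
  | empty => simp
  | insert a T ha ih =>
    rw [Finset.prod_insert ha, Finset.sum_insert ha, Finset.prod_insert ha]
    have h1 : ((Polynomial.C (x a) + Polynomial.X * Polynomial.C (c a)) ^ s a).natDegree ≤ s a := by
      refine Polynomial.natDegree_pow_le.trans ?_
      have := Nat.mul_le_mul_left (s a) (lin_natDegree x c a)
      rwa [mul_one] at this
    have h2 : ((Polynomial.C (x a) + Polynomial.X * Polynomial.C (c a)) ^ s a).coeff (s a) =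
        c a ^ s a := by
      have := Polynomial.coeff_pow_of_natDegree_le (m := s a) (lin_natDegree x c a)
      rwa [mul_one, lin_coeff] at this
    constructor
    · exact Polynomial.natDegree_mul_le.trans (Nat.add_le_add h1 ih.1)
    · rw [Polynomial.coeff_mul_add_eq_of_natDegree_le h1 ih.1, h2, ih.2]

theorem lineP_coeff {σ : Type} (x c : σ → K) (P : MvPolynomial σ K) :
    (lineP x c P).natDegree ≤ P.totalDegree ∧
    (lineP x c P).coeff P.totalDegree = eval c (homogeneousComponent P.totalDegree P) := by
  classical
  have hmon : ∀ (s : σ →₀ ℕ) (a : K), lineP x c (monomial s a) = Polynomial.C a *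
      ∏ i ∈ s.support, (Polynomial.C (x i) + Polynomial.X * Polynomial.C (c i)) ^ s i := by
    intro s a
    rw [lineP, aeval_monomial]
    rfl
  have hdeg : ∀ s : σ →₀ ℕ, s.degree = ∑ i ∈ s.support, s i := fun s => rfl
  have hP : P = ∑ s ∈ P.support, monomial s (coeff s P) := P.as_sum
  have h1 : lineP x c P = ∑ s ∈ P.support, lineP x c (monomial s (coeff s P)) := by
    conv_lhs => rw [hP, map_sum]
  have hsupp : ∀ s ∈ P.support, s.degree ≤ P.totalDegree := fun s hs => le_totalDegree hs
  constructor
  · rw [h1]
    refine Polynomial.natDegree_sum_le_of_forall_le _ _ fun s hs => ?_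
    rw [hmon]
    refine (Polynomial.natDegree_C_mul_le _ _).trans ?_
    refine (prod_line x c s s.support).1.trans ?_
    rw [← hdeg]
    exact hsupp s hs
  · rw [h1, Polynomial.finsetSum_coeff, homogeneousComponent_apply, map_sum, Finset.sum_filter]
    refine Finset.sum_congr rfl fun s hs => ?_
    rw [hmon, Polynomial.coeff_C_mul]
    obtain ⟨h2, h3⟩ := prod_line x c s s.support
    rw [← hdeg] at h2 h3
    split_ifs with h4
    · rw [← h4, h3, eval_monomial]
      rfl
    · rw [Polynomial.coeff_eq_zero_of_natDegree_lt (lt_of_le_of_lt h2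
        (lt_of_le_of_ne (hsupp s hs) h4)), mul_zero]

/-- a nonzero polynomial does not vanish at some integer point -/
theorem exists_int_point [CharZero K] {M : ℕ} (P : MvPolynomial (Fin M) K) (hP : P ≠ 0) :
    ∃ c : Fin M → ℤ, eval (fun i => (c i : K)) P ≠ 0 := by
  by_contra h
  push Not at h
  apply hP
  have hinf : Set.Infinite (Set.range ((↑) : ℤ → K)) := Set.infinite_range_of_injective Int.cast_injective
  refine MvPolynomial.funext_set (fun _ => Set.range ((↑) : ℤ → K)) (fun _ => hinf) ?_
  intro x hx
  have hx' : ∀ i, ∃ n : ℤ, (n : K) = x i := fun i => hx i (Set.mem_univ i)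
  choose c hc using hx'
  have := h c
  rw [map_zero, ← this]
  congr 1
  congr 1
  funext i
  exact (hc i).symm

/-- Noether normalisation with bounded fibres -/
theorem fib [CharZero K] (d : ℕ) : ∀ (M : ℕ) (S : Set (Fin M → K)),
    (∀ φ : Fin (d + 1) → ((Fin M → K) →ₗ[K] K), ∃ P : MvPolynomial (Fin (d + 1)) K, P ≠ 0 ∧
      ∀ x ∈ S, eval (fun k => φ k x) P = 0) →
    ∃ (A : Fin d → Fin M → ℤ) (B : ℕ), ∀ F : Finset (Fin M → K), (∀ x ∈ F, x ∈ S) →
      (∀ x ∈ F, ∀ x' ∈ F, ∀ k, ∑ j, (A k j : K) * x j = ∑ j, (A k j : K) * x' j) →
      F.card ≤ B := by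
  classical
  intro M
  induction M with
  | zero =>
    intro S _
    refine ⟨fun _ _ => 0, 1, fun F _ _ => ?_⟩
    rw [Finset.card_le_one]
    intro x _ x' _
    exact Subsingleton.elim _ _
  | succ M ih =>
    intro S hS
    rcases le_or_gt (M + 1) d with hMd | hMd
    · refine ⟨fun k j => if (k : ℕ) = (j : ℕ) then 1 else 0, 1, fun F _ hF => ?_⟩
      rw [Finset.card_le_one]
      intro x hx x' hx'
      funext i
      have h1 := hF x hx x' hx' ⟨i, by omega⟩
      have h2 : ∀ x : Fin (M + 1) → K,
          ∑ j : Fin (M + 1), ((if (((⟨i, by omega⟩ : Fin d) : ℕ)) = (j : ℕ) then 1 else 0 : ℤ) : K) *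
            x j = x i := by
        intro x
        rw [Finset.sum_eq_single i]
        · simp
        · intro j _ hj
          rw [if_neg (fun h => hj (Fin.ext h.symm)), Int.cast_zero, zero_mul]
        · intro h; exact absurd (Finset.mem_univ i) h
      rw [h2, h2] at h1
      exact h1
    · have hle : d + 1 ≤ M + 1 := hMd
      obtain ⟨P₀, hP₀, hP₀S⟩ := hS (fun k => LinearMap.proj (Fin.castLE hle k))
      set P : MvPolynomial (Fin (M + 1)) K := rename (Fin.castLE hle) P₀ with hPdef
      have hP : P ≠ 0 := by
        intro h
        apply hP₀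
        apply rename_injective _ (Fin.castLE_injective hle)
        rw [← hPdef, h, map_zero]
      have hPS : ∀ x ∈ S, eval x P = 0 := by
        intro x hx
        rw [hPdef, eval_rename]
        exact hP₀S x hx
      have htop : homogeneousComponent P.totalDegree P ≠ 0 := by
        obtain ⟨s, hs, hs'⟩ := Finset.exists_mem_eq_sup P.support
          (Finset.nonempty_iff_ne_empty.2 fun h => hP (MvPolynomial.support_eq_empty.1 h))
          (fun s : Fin (M + 1) →₀ ℕ => s.sum fun _ e => e)
        intro h
        have h1 := congrArg (coeff s) h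
        rw [coeff_homogeneousComponent, if_pos, coeff_zero] at h1
        · exact (mem_support_iff.1 hs) h1
        · exact hs'.symm
      obtain ⟨c, hc⟩ := exists_int_point _ htop
      set cK : Fin (M + 1) → K := fun i => (c i : K) with hcK
      have hline : ∀ x, lineP x cK P ≠ 0 := by
        intro x h
        have h1 := (lineP_coeff x cK P).2
        rw [h, Polynomial.coeff_zero] at h1
        exact hc h1.symm
      by_cases hc0 : ∀ i, c i = 0
      · -- then `P` is constant and `S` is empty
        refine ⟨fun _ _ => 0, 0, fun F hFS _ => ?_⟩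
        rw [Nat.le_zero, Finset.card_eq_zero, Finset.eq_empty_iff_forall_notMem]
        intro x hx
        apply hline x
        have h1 : ∀ t, (lineP x cK P).eval t = 0 := by
          intro t
          rw [lineP_eval]
          have h2 : (fun i => x i + t * cK i) = x := by
            funext i
            rw [hcK]
            simp only [hc0, Int.cast_zero, mul_zero, add_zero]
          rw [h2]
          exact hPS x (hFS x hx)
        exact Polynomial.funext fun t => by rw [h1, Polynomial.eval_zero]
      · push Not at hc0
        obtain ⟨i, hi⟩ := hc0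
        have hiK : (c i : K) ≠ 0 := by exact_mod_cast hi
        let π : (Fin (M + 1) → K) →ₗ[K] (Fin M → K) :=
          { toFun := fun x j => (c i : K) * x (i.succAbove j) - (c (i.succAbove j) : K) * x i
            map_add' := fun x y => by
              funext j
              simp only [Pi.add_apply]
              ring
            map_smul' := fun a x => by
              funext j
              simp only [Pi.smul_apply, smul_eq_mul, RingHom.id_apply]
              ring }
        obtain ⟨A, B, hAB⟩ := ih (π '' S) (by
          intro φ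
          obtain ⟨P, h1, h2⟩ := hS (fun k => φ k ∘ₗ π)
          refine ⟨P, h1, ?_⟩
          rintro _ ⟨x, hx, rfl⟩
          exact h2 x hx)
        let A' : Fin d → Fin (M + 1) → ℤ := fun k =>
          i.insertNth (-∑ j, A k j * c (i.succAbove j)) (fun j => A k j * c i)
        have hA' : ∀ k (x : Fin (M + 1) → K), ∑ j, (A' k j : K) * x j =
            ∑ j, (A k j : K) * π x j := by
          intro k x
          rw [Fin.sum_univ_succAbove _ i]
          simp only [A', Fin.insertNth_apply_same, Fin.insertNth_apply_succAbove]
          change _ = ∑ j, (A k j : K) *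
            ((c i : K) * x (i.succAbove j) - (c (i.succAbove j) : K) * x i)
          push_cast
          simp only [mul_sub, Finset.sum_sub_distrib, neg_mul, Finset.sum_mul]
          rw [add_comm, ← sub_eq_add_neg]
          congr 1
          · refine Finset.sum_congr rfl fun j _ => ?_
            ring
          · refine Finset.sum_congr rfl fun j _ => ?_
            ring
        refine ⟨A', P.totalDegree * B, fun F hFS hF => ?_⟩
        have h1 : (F.image π).card ≤ B := by
          refine hAB _ ?_ ?_
          · intro y hy
            obtain ⟨x, hx, rfl⟩ := Finset.mem_image.1 hy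
            exact ⟨x, hFS x hx, rfl⟩
          · intro y hy y' hy' k
            obtain ⟨x, hx, rfl⟩ := Finset.mem_image.1 hy
            obtain ⟨x', hx', rfl⟩ := Finset.mem_image.1 hy'
            rw [← hA', ← hA']
            exact hF x hx x' hx' k
        refine le_trans (Finset.card_le_mul_card_image_of_maps_to
          (fun x hx => Finset.mem_image_of_mem π hx) P.totalDegree ?_)
          (Nat.mul_le_mul_left _ h1)
        intro y hy
        obtain ⟨x₀, hx₀, rfl⟩ := Finset.mem_image.1 hy
        -- points on a line
        have h2 : (F.filter fun x => π x = π x₀) ⊆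
            (lineP x₀ cK P).roots.toFinset.image (fun t i => x₀ i + t * cK i) := by
          intro x hx
          rw [Finset.mem_filter] at hx
          have h3 : ∀ j, x j = x₀ j + (x i - x₀ i) / (c i : K) * cK j := by
            intro j
            rcases Fin.eq_self_or_eq_succAbove i j with rfl | ⟨j', rfl⟩
            · rw [hcK]
              field_simp
              ring
            · have h4 := congrFun hx.2 j'
              change (c i : K) * x (i.succAbove j') - (c (i.succAbove j') : K) * x i =
                (c i : K) * x₀ (i.succAbove j') - (c (i.succAbove j') : K) * x₀ i at h4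
              rw [hcK]
              field_simp
              linear_combination h4
          rw [Finset.mem_image]
          refine ⟨(x i - x₀ i) / (c i : K), ?_, (funext h3).symm⟩
          rw [Multiset.mem_toFinset, Polynomial.mem_roots (hline x₀), Polynomial.IsRoot.def,
            lineP_eval, ← funext h3]
          exact hPS x (hFS x hx.1)
        refine (Finset.card_le_card h2).trans (Finset.card_image_le.trans ?_)
        refine (Multiset.toFinset_card_le _).trans ((Polynomial.card_roots' _).trans ?_)
        exact (lineP_coeff x₀ cK P).1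

/-- **Counting integer points.** -/
theorem count [CharZero K] {d M : ℕ} (S : Set (Fin M → K))
    (hS : ∀ φ : Fin (d + 1) → ((Fin M → K) →ₗ[K] K), ∃ P : MvPolynomial (Fin (d + 1)) K, P ≠ 0 ∧
      ∀ x ∈ S, eval (fun k => φ k x) P = 0) :
    ∃ κ : ℕ, ∀ H : ℕ, 1 ≤ H → ∀ F : Finset (Fin M → ℤ),
      (∀ a ∈ F, (∀ j, |a j| ≤ H) ∧ (fun j => (a j : K)) ∈ S) → F.card ≤ κ * H ^ d := by
  classical
  obtain ⟨A, B, hAB⟩ := fib d M S hS
  set C : ℕ := ∑ k, ∑ j, (A k j).natAbs with hC
  refine ⟨B * (2 * C + 1) ^ d, fun H hH F hF => ?_⟩
  let f : (Fin M → ℤ) → (Fin d → ℤ) := fun a k => ∑ j, A k j * a j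
  let T : Finset (Fin d → ℤ) := Fintype.piFinset fun _ => Finset.Icc (-(C * H : ℤ)) (C * H)
  have h1 : ∀ a ∈ F, f a ∈ T := by
    intro a ha
    rw [Fintype.mem_piFinset]
    intro k
    rw [Finset.mem_Icc, ← abs_le]
    calc |∑ j, A k j * a j| ≤ ∑ j, |A k j * a j| := Finset.abs_sum_le_sum_abs _ _
      _ ≤ ∑ j, ((A k j).natAbs : ℤ) * H := by
          refine Finset.sum_le_sum fun j _ => ?_
          rw [abs_mul, ← Int.natCast_natAbs (A k j)]
          exact mul_le_mul_of_nonneg_left ((hF a ha).1 j) (Int.natCast_nonneg _)
      _ = ((∑ j, (A k j).natAbs : ℕ) : ℤ) * H := by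
          push_cast
          rw [Finset.sum_mul]
      _ ≤ (C : ℤ) * H := by
          refine mul_le_mul_of_nonneg_right ?_ (Int.natCast_nonneg _)
          rw [hC]
          exact_mod_cast Finset.single_le_sum
            (f := fun k => ∑ j, (A k j).natAbs) (fun _ _ => Nat.zero_le _) (Finset.mem_univ k)
  have h2 : T.card ≤ ((2 * C + 1) * H) ^ d := by
    rw [Fintype.card_piFinset]
    simp only [Int.card_Icc, Finset.prod_const, Finset.card_univ, Fintype.card_fin]
    refine Nat.pow_le_pow_left ?_ d
    have : ((C : ℤ) * H + 1 - -(C * H : ℤ)).toNat = 2 * (C * H) + 1 := by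
      have h3 : (C : ℤ) * H + 1 - -(C * H : ℤ) = ((2 * (C * H) + 1 : ℕ) : ℤ) := by
        push_cast
        ring
      rw [h3, Int.toNat_natCast]
    rw [this]
    nlinarith
  have h3 := Finset.card_le_mul_card_image_of_maps_to h1 B (by
    intro z hz
    have hinj : Function.Injective fun (a : Fin M → ℤ) j => (a j : K) := by
      intro a a' h
      funext j
      have h4 : (a j : K) = (a' j : K) := congrFun h j
      exact_mod_cast h4
    rw [← Finset.card_image_of_injective _ hinj]
    refine hAB _ ?_ ?_
    · intro x hx
      obtain ⟨a, ha, rfl⟩ := Finset.mem_image.1 hx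
      rw [Finset.mem_filter] at ha
      exact (hF a ha.1).2
    · intro x hx x' hx' k
      obtain ⟨a, ha, rfl⟩ := Finset.mem_image.1 hx
      obtain ⟨a', ha', rfl⟩ := Finset.mem_image.1 hx'
      rw [Finset.mem_filter] at ha ha'
      have h4 : f a k = f a' k := by rw [ha.2, ha'.2]
      have h5 := congrArg (fun n : ℤ => (n : K)) h4
      simp only [f] at h5
      push_cast at h5
      exact h5)
  calc F.card ≤ B * T.card := h3
    _ ≤ B * ((2 * C + 1) * H) ^ d := Nat.mul_le_mul_left _ h2
    _ = B * (2 * C + 1) ^ d * H ^ d := by rw [mul_pow, mul_assoc]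

end Pool.Agent.TH519.HS
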