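import Pool.Agent.TH519.HS.Alg

/-!
# Linear algebra for tangent spaces, general index types
-/

set_option autoImplicit false

namespace Pool.Agent.TH519.HS

open Filter Module Pool.Agent.TH519.GL Pool.Agent.TH519.FE
open Pool.Agent.H301R2.SSE (QB mem_QB Lt Lt_log)

/-- generic complex combinations of equations have no more rational solutions -/
theorem exists_weights' {r : ℕ} {σ : Type} [Fintype σ] (G : Fin r → σ → ℂ) :
    ∃ γ : Fin r → ℂ, ∀ v : σ → QB, ∑ i, (v i : ℂ) * ∑ j, γ j * G j i = 0 →
      ∀ j, ∑ i, (v i : ℂ) * G j i = 0 := by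
  classical
  obtain ⟨γ, hγ⟩ := exists_weights (fun j (i : Fin (Fintype.card σ)) =>
    G j ((Fintype.equivFin σ).symm i))
  refine ⟨γ, fun v hv j => ?_⟩
  have h1 := hγ (fun i => v ((Fintype.equivFin σ).symm i)) (by
    rw [← hv]
    exact Equiv.sum_comp (Fintype.equivFin σ).symm
      (fun i => (v i : ℂ) * ∑ j, γ j * G j i)) j
  rw [← h1]
  exact (Equiv.sum_comp (Fintype.equivFin σ).symm (fun i => (v i : ℂ) * G j i)).symm

/-- the rational relations between the columns of a complex matrix -/
def RelG {r : ℕ} {σ : Type} [Fintype σ] (G : Fin r → σ → ℂ) : Submodule QB (σ → QB) where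
  carrier := {v | ∀ j, ∑ i, (v i : ℂ) * G j i = 0}
  add_mem' := by
    intro v w hv hw j
    have h1 := hv j
    have h2 := hw j
    have h3 : ∑ i, ((v + w) i : ℂ) * G j i = ∑ i, (v i : ℂ) * G j i + ∑ i, (w i : ℂ) * G j i := by
      rw [← Finset.sum_add_distrib]
      refine Finset.sum_congr rfl fun i _ => ?_
      rw [Pi.add_apply]
      push_cast
      ring
    rw [h3, h1, h2, add_zero]
  zero_mem' := by
    intro j
    refine Finset.sum_eq_zero fun i _ => ?_
    rw [Pi.zero_apply]
    push_cast
    rw [zero_mul]
  smul_mem' := by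
    intro c v hv j
    have h1 := hv j
    have h3 : ∑ i, ((c • v) i : ℂ) * G j i = (c : ℂ) * ∑ i, (v i : ℂ) * G j i := by
      rw [Finset.mul_sum]
      refine Finset.sum_congr rfl fun i _ => ?_
      rw [Pi.smul_apply, smul_eq_mul]
      push_cast
      ring
    rw [h3, h1, mul_zero]

theorem mem_RelG {r : ℕ} {σ : Type} [Fintype σ] {G : Fin r → σ → ℂ} {v : σ → QB} :
    v ∈ RelG G ↔ ∀ j, ∑ i, (v i : ℂ) * G j i = 0 := Iff.rfl

/-- **The linear algebra of tangent vectors of families.** -/
theorem tangent_boundG {M n r ρ : ℕ} {σ τ : Type} [Fintype σ] [Fintype τ] (l' : Fin M → ℂ)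
    (hl : LinearIndependent QB l')
    (hl' : ∀ j, l' j ∈ Lt) (G : Fin r → σ → ℂ) (H : Fin r → τ → ℂ)
    (hG : finrank QB (RelG G) ≤ ρ)
    (g : Fin n → σ → Fin M → QB) (g' : Fin n → τ → QB)
    (hrel : ∀ k j, ∑ i, G j i * cmb l' (g k i) + ∑ l, H j l * (g' k l : ℂ) = 0)
    (hind : ∀ q : Fin n → QB, (∀ i j, ∑ k, q k * g k i j = 0) → q = 0) :
    n ≤ Fintype.card σ * (Fintype.card σ - 1) + ρ * M + Fintype.card τ := by
  classical
  obtain ⟨γ, hγ⟩ := exists_weights' G
  set a : σ → ℂ := fun i => ∑ j, γ j * G j i with ha
  set V : Submodule QB ℂ := Submodule.span QB (Set.range a) with hV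
  have hfd : FiniteDimensional QB V := FiniteDimensional.span_of_finite QB (Set.finite_range a)
  have hVm : finrank QB V ≤ Fintype.card σ := finrank_range_le_card (R := QB) a
  let B := Module.finBasis QB V
  set ξ : Fin (finrank QB V) → ℂ := fun t => ((B t : V) : ℂ) with hξ
  have hξi : LinearIndependent QB ξ :=
    B.linearIndependent.map' V.subtype (Submodule.ker_subtype _)
  have hmem : ∀ i, a i ∈ V := fun i => Submodule.subset_span ⟨i, rfl⟩
  set R : σ → Fin (finrank QB V) → QB := fun i t => B.repr ⟨a i, hmem i⟩ t with hR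
  have haR : ∀ i, a i = ∑ t, (R i t : ℂ) * ξ t := by
    intro i
    have h1 := congrArg (fun y : V => (y : ℂ)) (B.sum_repr ⟨a i, hmem i⟩)
    simp only [Submodule.coe_sum, Submodule.coe_smul] at h1
    rw [← h1]
    refine Finset.sum_congr rfl fun t _ => ?_
    rw [Algebra.smul_def]
    rfl
  have hsum : ∀ (w : σ → ℂ), ∑ t, ξ t * ∑ i, (R i t : ℂ) * w i = ∑ i, a i * w i := by
    intro w
    simp only [haR, Finset.mul_sum, Finset.sum_mul]
    rw [Finset.sum_comm]
    refine Finset.sum_congr rfl fun i _ => Finset.sum_congr rfl fun t _ => ?_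
    ring
  -- the two linear maps
  let T0 : (Fin n → QB) →ₗ[QB] (τ → QB) := Fintype.linearCombination QB g'
  have hT0 : ∀ q l, T0 q l = ∑ k, q k * g' k l := by
    intro q l
    change (Fintype.linearCombination QB g' q) l = _
    rw [Fintype.linearCombination_apply, Finset.sum_apply]
    rfl
  let T : (Fin n → QB) →ₗ[QB] (Fin (finrank QB V) → ℂ) :=
    Fintype.linearCombination QB (fun k t => ∑ i, (R i t : ℂ) * cmb l' (g k i))
  have hT : ∀ q t, T q t = ∑ i, (R i t : ℂ) * cmb l' (fun j => ∑ k, q k * g k i j) := by
    intro q t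
    change (Fintype.linearCombination QB (fun k t => ∑ i, (R i t : ℂ) * cmb l' (g k i)) q) t = _
    rw [Fintype.linearCombination_apply, Finset.sum_apply]
    simp only [Pi.smul_apply]
    have h1 : ∀ k, q k • ∑ i, (R i t : ℂ) * cmb l' (g k i) =
        ∑ i, (R i t : ℂ) * ((q k : ℂ) * cmb l' (g k i)) := by
      intro k
      rw [Algebra.smul_def, Finset.mul_sum]
      refine Finset.sum_congr rfl fun i _ => ?_
      change (q k : ℂ) * _ = _
      ring
    simp only [h1]
    rw [Finset.sum_comm]
    refine Finset.sum_congr rfl fun i _ => ?_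
    rw [← Finset.mul_sum, cmb_sum]
  set U := LinearMap.ker T0 with hU
  have h1 : n ≤ finrank QB U + Fintype.card τ := by
    have h2 := LinearMap.finrank_range_add_finrank_ker T0
    have h3 : finrank QB (LinearMap.range T0) ≤ Fintype.card τ := by
      have := Submodule.finrank_le (LinearMap.range T0)
      rwa [Module.finrank_fintype_fun_eq_card] at this
    rw [Module.finrank_fintype_fun_eq_card, Fintype.card_fin, ← hU] at h2
    omega
  set T' := T ∘ₗ U.subtype with hT'
  have h2 := LinearMap.finrank_range_add_finrank_ker T'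
  have h3 : finrank QB (LinearMap.range T') ≤ Fintype.card σ * (Fintype.card σ - 1) := by
    have h4 : finrank QB (LinearMap.range T') ≤ finrank QB V * (finrank QB V - 1) := by
      let e := Module.finBasis QB (LinearMap.range T')
      have hmem : ∀ k, ∃ q : U, T' q = (e k : Fin (finrank QB V) → ℂ) := fun k => (e k).2
      choose q hq using hmem
      refine Pool.Agent.W254.HP.hyperplane (finrank QB V) _ ξ
        (fun i k => (e k : Fin (finrank QB V) → ℂ) i) hξi ?_ ?_ ?_
      · intro i k
        rw [← hq k]
        change T (q k : Fin n → QB) i ∈ Lt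
        rw [hT]
        refine Submodule.sum_mem _ fun i _ => smul_Lt _ (cmb_mem_Lt' hl' _)
      · intro k
        rw [← hq k]
        have h5 : ∀ t, T' (q k) t =
            ∑ i, (R i t : ℂ) * cmb l' (fun j => ∑ k', (q k : Fin n → QB) k' * g k' i j) :=
          fun t => hT _ t
        simp only [h5]
        rw [hsum]
        simp only [ha, Finset.sum_mul]
        rw [Finset.sum_comm]
        refine Finset.sum_eq_zero fun j _ => ?_
        have h6 : ∑ i, G j i * cmb l' (fun j => ∑ k', (q k : Fin n → QB) k' * g k' i j) = 0 := by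
          have h7 : ∀ l, ∑ k', (q k : Fin n → QB) k' * g' k' l = 0 := by
            intro l
            have : T0 (q k : Fin n → QB) = 0 := LinearMap.mem_ker.1 (q k).2
            rw [← hT0, this]
            rfl
          have h8 : ∑ k', ((q k : Fin n → QB) k' : ℂ) *
              (∑ i, G j i * cmb l' (g k' i) + ∑ l, H j l * (g' k' l : ℂ)) = 0 := by
            refine Finset.sum_eq_zero fun k' _ => ?_
            rw [hrel, mul_zero]
          have h9 : ∑ k', ((q k : Fin n → QB) k' : ℂ) *
              (∑ i, G j i * cmb l' (g k' i) + ∑ l, H j l * (g' k' l : ℂ)) =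
              ∑ i, G j i * cmb l' (fun j => ∑ k', (q k : Fin n → QB) k' * g k' i j) +
              ∑ l, H j l * ((∑ k', (q k : Fin n → QB) k' * g' k' l : QB) : ℂ) := by
            simp only [mul_add, Finset.sum_add_distrib]
            congr 1
            · simp only [← cmb_sum, Finset.mul_sum]
              rw [Finset.sum_comm]
              refine Finset.sum_congr rfl fun i _ => Finset.sum_congr rfl fun k' _ => ?_
              ring
            · push_cast
              simp only [Finset.mul_sum]
              rw [Finset.sum_comm]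
              refine Finset.sum_congr rfl fun i _ => Finset.sum_congr rfl fun k' _ => ?_
              ring
          rw [h9] at h8
          have h10 : ∑ l, H j l * ((∑ k', (q k : Fin n → QB) k' * g' k' l : QB) : ℂ) = 0 := by
            refine Finset.sum_eq_zero fun l _ => ?_
            rw [h7 l]
            push_cast
            rw [mul_zero]
          rwa [h10, add_zero] at h8
        have h11 : ∑ i, γ j * G j i * cmb l' (fun j => ∑ k', (q k : Fin n → QB) k' * g k' i j) =
            γ j * ∑ i, G j i * cmb l' (fun j => ∑ k', (q k : Fin n → QB) k' * g k' i j) := by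
          rw [Finset.mul_sum]
          refine Finset.sum_congr rfl fun i _ => ?_
          ring
        rw [h11, h6, mul_zero]
      · exact e.linearIndependent.map' (LinearMap.range T').subtype (Submodule.ker_subtype _)
    exact h4.trans (Nat.mul_le_mul hVm (Nat.sub_le_sub_right hVm 1))
  have h4 : finrank QB (LinearMap.ker T') ≤ ρ * M := by
    -- the column map
    let C : (Fin n → QB) →ₗ[QB] (Fin M → σ → QB) :=
      Fintype.linearCombination QB (fun k j i => g k i j)
    have hC : ∀ q j i, C q j i = ∑ k, q k * g k i j := by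
      intro q j i
      change (Fintype.linearCombination QB (fun k j i => g k i j) q) j i = _
      rw [Fintype.linearCombination_apply, Finset.sum_apply, Finset.sum_apply]
      rfl
    have hCR : ∀ q : LinearMap.ker T', ∀ j, C ((q : U) : Fin n → QB) j ∈ RelG G := by
      intro q j
      have h5 : ∀ t, ∑ i, R i t * C ((q : U) : Fin n → QB) j i = 0 := by
        intro t
        have h6 : T ((q : U) : Fin n → QB) t = 0 := by
          have := q.2
          rw [LinearMap.mem_ker] at this
          change T' (q : U) t = 0
          rw [this]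
          rfl
        rw [hT] at h6
        have h7 : ∑ i, (R i t : ℂ) * cmb l'
            (fun j => ∑ k, ((q : U) : Fin n → QB) k * g k i j) =
            cmb l' (fun m => ∑ i, R i t * ∑ k, ((q : U) : Fin n → QB) k * g k i m) := by
          simp only [cmb, map_sum, map_mul, Finset.mul_sum, Finset.sum_mul]
          rw [Finset.sum_comm]
          refine Finset.sum_congr rfl fun m _ => Finset.sum_congr rfl fun i _ => ?_
          refine Finset.sum_congr rfl fun k _ => ?_
          change algebraMap QB ℂ (R i t) * _ = _
          ring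
        rw [h7] at h6
        have h8 := congrFun (cmb_eq_zero hl h6) j
        simp only [hC]
        exact h8
      rw [mem_RelG]
      apply hγ
      have h9 := hsum (fun i => (C ((q : U) : Fin n → QB) j i : ℂ))
      have h10 : ∑ t, ξ t * ∑ i, (R i t : ℂ) * (C ((q : U) : Fin n → QB) j i : ℂ) = 0 := by
        refine Finset.sum_eq_zero fun t _ => ?_
        have h6 := congrArg (fun q : QB => (q : ℂ)) (h5 t)
        push_cast at h6
        rw [h6, mul_zero]
      rw [h10] at h9
      rw [h9]
      refine Finset.sum_congr rfl fun i _ => ?_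
      rw [mul_comm]
    let F : LinearMap.ker T' →ₗ[QB] (Fin M → RelG G) :=
      LinearMap.pi fun j => LinearMap.codRestrict (RelG G)
        ((LinearMap.proj j) ∘ₗ C ∘ₗ U.subtype ∘ₗ
          (LinearMap.ker T').subtype) (fun q => hCR q j)
    have hF : Function.Injective F := by
      rw [injective_iff_map_eq_zero]
      intro q hq
      apply Subtype.ext
      apply Subtype.ext
      refine hind _ fun i j => ?_
      have h5 := congrArg (fun x => ((x j : RelG G) : σ → QB) i) hq
      change C ((q : U) : Fin n → QB) j i = 0 at h5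
      rw [hC] at h5
      exact h5
    have h5 := LinearMap.finrank_le_finrank_of_injective hF
    rw [Module.finrank_pi_fintype] at h5
    simp only [Finset.sum_const, Finset.card_univ, Fintype.card_fin, smul_eq_mul] at h5
    calc _ ≤ M * finrank QB (RelG G) := h5
      _ ≤ M * ρ := Nat.mul_le_mul_left _ hG
      _ = ρ * M := mul_comm _ _
  omega

end Pool.Agent.TH519.HS
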