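import Pool.Agent.TH519.HS.Fn
import Pool.Agent.TH519.HS.Cnt

/-!
# Independent logarithms with relations of bounded degree
-/

set_option autoImplicit false

namespace Pool.Agent.TH519.HS

open Filter Module Pool.Agent.TH519.GL Pool.Agent.TH519.FE
open Pool.Agent.H301R2.SSE (QB mem_QB Lt Lt_log)

theorem two_coord {M n m D : ℕ} (l' : Fin M → ℂ) (hl : LinearIndependent QB l')
    (hl' : ∀ j, l' j ∈ Lt) (x : Fin n → ℂ) (hx : ¬ RlK QB D x)
    (φ : Fin (m * (m - 1) + (m - 2) * M + (D + (n + m)).choose (n + m)) →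
      ((Fin m × Fin M → QB) →ₗ[QB] QB)) :
    ∃ P : MvPolynomial (Fin (m * (m - 1) + (m - 2) * M + (D + (n + m)).choose (n + m))) QB,
      P ≠ 0 ∧ ∀ b : Fin m → Fin M → QB,
        (∀ u : Fin m → QB, u ≠ 0 →
          ¬ RlK QB D (Sum.elim x (fun _ : Fin 1 => ∑ i, (u i : ℂ) * yy l' b i))) →
        RlK QB D (Sum.elim x (yy l' b)) →
        MvPolynomial.eval (fun k => φ k (fun q => b q.1 q.2)) P = 0 := by
  obtain ⟨P, h1, h2⟩ := rel_dim (D := D) (ρ := m - 2) l' hl hl' x φ
  refine ⟨P, h1, fun b hu hy => ?_⟩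
  obtain ⟨f, hf0, hfD, hf, hmin⟩ := exists_min _ hy
  exact h2 b f hf0 hfD hf (rank_two x _ hx hu f hf0 hfD hf hmin)

theorem not_RlK_zero {D : ℕ} (x : Fin 0 → ℂ) : ¬ RlK QB D x := by
  rintro ⟨f, h1, -, h3⟩
  rw [MvPolynomial.eq_C_of_isEmpty f] at h1 h3
  rw [MvPolynomial.algHom_C] at h3
  apply h1
  rw [(map_eq_zero (algebraMap QB ℂ)).1 h3, MvPolynomial.C_0]

theorem mem_of_RlK {D : ℕ} (x : Fin 0 → ℂ) (z : ℂ)
    (h : RlK QB D (Sum.elim x (fun _ : Fin 1 => z))) : z ∈ QB := by
  let _ : Unique (Fin 0 ⊕ Fin 1) :=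
    { default := Sum.inr 0
      uniq := by
        rintro (a | a)
        · exact a.elim0
        · rw [Subsingleton.elim a 0] }
  by_contra hz
  obtain ⟨f, h1, -, h3⟩ := h
  have h4 : AlgebraicIndependent QB (Sum.elim x (fun _ : Fin 1 => z)) := by
    rw [algebraicIndependent_unique_type_iff]
    change Transcendental QB z
    intro h5
    apply hz
    rw [mem_QB]
    have h6 : Algebra.IsAlgebraic ℚ QB := algebraicClosure.isAlgebraic ℚ ℂ
    exact IsAlgebraic.restrictScalars ℚ h5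
  rw [algebraicIndependent_iff] at h4
  exact h1 (h4 f h3)

theorem pure_coord {M m D q : ℕ} (l' : Fin M → ℂ) (hl : LinearIndependent QB l')
    (hl' : ∀ j, l' j ∈ Lt) (hq : q = m * (m - 1) + (m - 2) * M + (D + m).choose m)
    (φ : Fin q → ((Fin m × Fin M → QB) →ₗ[QB] QB)) :
    ∃ P : MvPolynomial (Fin q) QB,
      P ≠ 0 ∧ ∀ b : Fin m → Fin M → QB,
        LinearIndependent QB (Fin.cons 1 (yy l' b) : Fin (m + 1) → ℂ) → RlK QB D (yy l' b) →
        MvPolynomial.eval (fun k => φ k (fun q => b q.1 q.2)) P = 0 := by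
  have hq' : q = m * (m - 1) + (m - 2) * M + (D + (0 + m)).choose (0 + m) := by
    rw [zero_add]
    exact hq
  subst hq'
  obtain ⟨P, h1, h2⟩ := two_coord (D := D) l' hl hl' (fun i : Fin 0 => i.elim0)
    (not_RlK_zero _) φ
  refine ⟨P, h1, fun b hli hrel => h2 b (fun u hu h => ?_) ?_⟩
  · have hz := mem_of_RlK _ _ h
    rw [Fintype.linearIndependent_iff] at hli
    have h3 := hli (Fin.cons (-⟨_, hz⟩) u) (by
      rw [Fin.sum_univ_succ]
      simp only [Fin.cons_zero, Fin.cons_succ]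
      have h4 : ∀ i, u i • yy l' b i = (u i : ℂ) * yy l' b i := by
        intro i
        rw [Algebra.smul_def]
        rfl
      simp only [h4]
      rw [Algebra.smul_def, mul_one, map_neg]
      exact neg_add_cancel _)
    apply hu
    funext i
    have := h3 i.succ
    rwa [Fin.cons_succ] at this
  · obtain ⟨f, hf0, hfD, hf⟩ := hrel
    refine ⟨MvPolynomial.rename Sum.inr f, ?_, ?_, ?_⟩
    · intro h
      apply hf0
      apply MvPolynomial.rename_injective _ Sum.inr_injective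
      rw [h, map_zero]
    · exact (MvPolynomial.totalDegree_rename_le _ _).trans hfD
    · rw [MvPolynomial.aeval_rename]
      exact hf

/-- **The dimension theorem.** -/
theorem pure_dim (W : Submodule QB ℂ) [FiniteDimensional QB W] (hW : W ≤ Lt) {m D : ℕ}
    (φ : Fin (m * (m - 1) + (m - 2) * finrank QB W + (D + m).choose m) →
      ((Fin m → W) →ₗ[QB] QB)) :
    ∃ P : MvPolynomial (Fin (m * (m - 1) + (m - 2) * finrank QB W + (D + m).choose m)) QB,
      P ≠ 0 ∧ ∀ y : Fin m → W,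
        LinearIndependent QB (Fin.cons 1 (fun i => (y i : ℂ)) : Fin (m + 1) → ℂ) →
        RlK QB D (fun i => (y i : ℂ)) →
        MvPolynomial.eval (fun k => φ k y) P = 0 := by
  obtain ⟨P, h1, h2⟩ := pure_coord (D := D) (bs W) (bs_li W)
    (fun j => hW (Module.finBasis QB W j).2) rfl (fun k => φ k ∘ₗ mkV m)
  refine ⟨P, h1, fun y hy1 hy2 => ?_⟩
  have h3 : yy (bs W) (fun i j => (Module.finBasis QB W).repr (y i) j) = fun i => (y i : ℂ) := by
    funext i
    exact cmb_bs' W (y i)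
  have h4 := h2 (fun i j => (Module.finBasis QB W).repr (y i) j) (by
    rw [h3]
    exact hy1) (by
    rw [h3]
    exact hy2)
  have h5 : mkV (K := QB) (W := W) m (fun q => (Module.finBasis QB W).repr (y q.1) q.2) =
      y := by
    funext i
    exact (Module.finBasis QB W).sum_repr (y i)
  simp only [LinearMap.comp_apply, h5] at h4
  exact h4

/-- **The counting theorem.** -/
theorem pure_count {N : ℕ} (l : Fin N → ℂ) (hl : LinearIndependent QB l)
    (hl' : ∀ j, l j ∈ Lt) (m D : ℕ) :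
    ∃ κ : ℕ, ∀ H : ℕ, 1 ≤ H → Set.ncard {A : Fin m → Fin N → ℤ | (∀ i j, |A i j| ≤ H) ∧
      LinearIndependent QB (Fin.cons 1 (fun i => ∑ j, (A i j : ℂ) * l j) : Fin (m + 1) → ℂ) ∧
      RlK QB D (fun i => ∑ j, (A i j : ℂ) * l j)} ≤
      κ * H ^ (m * (m - 1) + (m - 2) * N + (D + m).choose m - 1) := by
  classical
  have hpos : 0 < (D + m).choose m := Nat.choose_pos (Nat.le_add_left _ _)
  obtain ⟨d, hd⟩ : ∃ d, d + 1 = m * (m - 1) + (m - 2) * N + (D + m).choose m :=
    ⟨m * (m - 1) + (m - 2) * N + (D + m).choose m - 1, by omega⟩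
  let ε : Fin (m * N) ≃ Fin m × Fin N := finProdFinEquiv.symm
  let S : Set (Fin (m * N) → QB) := {x | LinearIndependent QB
      (Fin.cons 1 (yy l fun i j => x (ε.symm (i, j))) : Fin (m + 1) → ℂ) ∧
      RlK QB D (yy l fun i j => x (ε.symm (i, j)))}
  obtain ⟨κ, hκ⟩ := count (d := d) S (by
    intro φ
    obtain ⟨P, h1, h2⟩ := pure_coord (D := D) (m := m) l hl hl' hd
      (fun k => φ k ∘ₗ LinearMap.funLeft QB QB ε)
    refine ⟨P, h1, fun x hx => ?_⟩
    have h3 := h2 (fun i j => x (ε.symm (i, j))) hx.1 hx.2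
    have h4 : LinearMap.funLeft QB QB ε (fun q : Fin m × Fin N => x (ε.symm (q.1, q.2))) = x := by
      funext i
      change x (ε.symm ((ε i).1, (ε i).2)) = x i
      rw [Prod.mk.eta, Equiv.symm_apply_apply]
    simp only [LinearMap.comp_apply, h4] at h3
    exact h3)
  refine ⟨κ, fun H hH => ?_⟩
  have hd' : m * (m - 1) + (m - 2) * N + (D + m).choose m - 1 = d := by omega
  rw [hd']
  set T := {A : Fin m → Fin N → ℤ | (∀ i j, |A i j| ≤ H) ∧
      LinearIndependent QB (Fin.cons 1 (fun i => ∑ j, (A i j : ℂ) * l j) : Fin (m + 1) → ℂ) ∧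
      RlK QB D (fun i => ∑ j, (A i j : ℂ) * l j)} with hT
  have hfin : T.Finite := by
    have h1 : ((Fintype.piFinset fun _ : Fin m => Fintype.piFinset fun _ : Fin N =>
        Finset.Icc (-(H : ℤ)) H : Finset (Fin m → Fin N → ℤ)) :
        Set (Fin m → Fin N → ℤ)).Finite := Finset.finite_toSet _
    refine h1.subset fun A hA => ?_
    rw [Finset.mem_coe, Fintype.mem_piFinset]
    intro i
    rw [Fintype.mem_piFinset]
    intro j
    rw [Finset.mem_Icc, ← abs_le]
    exact hA.1 i j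
  rw [Set.ncard_eq_toFinset_card T hfin]
  let g : (Fin m → Fin N → ℤ) → (Fin (m * N) → ℤ) := fun A k => A (ε k).1 (ε k).2
  have hg : Function.Injective g := by
    intro A A' h
    funext i j
    have := congrFun h (ε.symm (i, j))
    simp only [g, Equiv.apply_symm_apply] at this
    exact this
  rw [← Finset.card_image_of_injective _ hg]
  refine hκ H hH _ ?_
  intro a ha
  obtain ⟨A, hA, rfl⟩ := Finset.mem_image.1 ha
  rw [Set.Finite.mem_toFinset] at hA
  refine ⟨fun k => hA.1 _ _, ?_⟩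
  have h1 : (yy l fun i j => (fun k => ((g A k : ℤ) : QB)) (ε.symm (i, j))) =
      fun i => ∑ j, (A i j : ℂ) * l j := by
    funext i
    simp only [yy, cmb, g, Equiv.apply_symm_apply]
    refine Finset.sum_congr rfl fun j _ => ?_
    rw [map_intCast]
  change LinearIndependent QB _ ∧ RlK QB D _
  rw [h1]
  exact hA.2

end Pool.Agent.TH519.HS
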