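import Pool.Agent.TH519.HS.Sg

/-!
# Quadratic relations with independent arguments
-/

set_option autoImplicit false

namespace Pool.Agent.TH519.HS

open Filter Module Pool.Agent.TH519.GL Pool.Agent.TH519.FE
open Pool.Agent.H301R2.SSE (QB mem_QB Lt Lt_log)

theorem two_squares {y z : ℂ} {p q : QB} (hp : p ≠ 0)
    (h : (p : ℂ) * (y * y) + (q : ℂ) * (z * z) = 0) (hz : z ≠ 0) :
    ∃ κ : QB, y = (κ : ℂ) * z := by
  have hp' : (p : ℂ) ≠ 0 := fun h => hp (Subtype.ext h)
  have h1 : (y / z) ^ 2 = algebraMap QB ℂ (-q / p) := by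
    change _ = (((-q / p : QB)) : ℂ)
    push_cast
    field_simp
    linear_combination h
  have h2 : IsIntegral QB (y / z) := by
    apply IsIntegral.of_pow (n := 2) (by norm_num)
    rw [h1]
    exact isIntegral_algebraMap
  obtain ⟨κ, hκ⟩ := int_QB _ h2
  refine ⟨κ, ?_⟩
  have h3 : (κ : ℂ) = y / z := hκ
  rw [h3]
  field_simp

/-- diagonalisation -/
theorem diag {a : ℕ} (b : Matrix (Fin a) (Fin a) QB) (hb : b.IsSymm) :
    ∃ (κ : Type) (_ : Fintype κ) (_ : DecidableEq κ) (ρ : Fin a → κ → QB) (q : κ → QB),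
      Fintype.card κ = a ∧ (∀ s t, b s t = ∑ i, ρ s i * ρ t i * q i) ∧
      (∀ c : κ → QB, (∀ s, ∑ i, c i * ρ s i = 0) → c = 0) ∧
      ∀ y : Fin a → QB, (∀ i, ∑ t, ρ t i * y t = 0) → y = 0 := by
  classical
  let B : LinearMap.BilinForm QB (Fin a → QB) := Matrix.toBilin' b
  have hBs : ∀ x y, B x y = B y x := by
    intro x y
    change Matrix.toBilin' b x y = Matrix.toBilin' b y x
    rw [Matrix.toBilin'_apply, Matrix.toBilin'_apply, Finset.sum_comm]
    refine Finset.sum_congr rfl fun i _ => Finset.sum_congr rfl fun j _ => ?_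
    rw [hb.apply i j]
    ring
  have hB : LinearMap.IsSymm B := ⟨fun x y => by simpa using hBs x y⟩
  have h2 : Invertible (2 : QB) := invertibleOfNonzero two_ne_zero
  obtain ⟨v, hv⟩ := LinearMap.BilinForm.exists_orthogonal_basis hB
  have hsplit : ∀ y : Fin a → QB, ∑ t, y t • (Pi.single t 1 : Fin a → QB) = y := by
    intro y
    funext t
    rw [Finset.sum_apply, Finset.sum_eq_single t]
    · rw [Pi.smul_apply, Pi.single_eq_same, smul_eq_mul, mul_one]
    · intro t' _ ht'
      rw [Pi.smul_apply, Pi.single_eq_of_ne (Ne.symm ht'), smul_zero]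
    · intro h; exact absurd (Finset.mem_univ t) h
  have hrep : ∀ (y : Fin a → QB) i, v.repr y i = ∑ t, v.repr (Pi.single t 1) i * y t := by
    intro y i
    have h3 := congrArg (fun y => v.repr y i) (hsplit y)
    simp only [map_sum, map_smul, Finsupp.coe_finsetSum, Finset.sum_apply, Finsupp.smul_apply,
      smul_eq_mul] at h3
    rw [← h3]
    refine Finset.sum_congr rfl fun t _ => ?_
    ring
  have hexp : ∀ x y : Fin a → QB, B x y = ∑ i, v.repr x i * v.repr y i * B (v i) (v i) := by
    intro x y
    conv_lhs => rw [← v.sum_repr x, ← v.sum_repr y]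
    simp only [map_sum, LinearMap.sum_apply, map_smul, LinearMap.smul_apply, smul_eq_mul]
    refine Finset.sum_congr rfl fun i _ => ?_
    rw [Finset.sum_eq_single i]
    · ring
    · intro j _ hj
      have h4 : B (v j) (v i) = 0 := hv hj
      rw [h4, mul_zero]
    · intro h; exact absurd (Finset.mem_univ i) h
  refine ⟨Fin (finrank QB (Fin a → QB)), inferInstance, inferInstance,
    fun s i => v.repr (Pi.single s 1) i, fun i => B (v i) (v i), ?_, ?_, ?_, ?_⟩
  · rw [Fintype.card_fin, Module.finrank_fintype_fun_eq_card, Fintype.card_fin]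
  · intro s t
    rw [← hexp]
    change b s t = Matrix.toBilin' b _ _
    rw [Matrix.toBilin'_single]
  · intro c hc
    funext j
    have h3 : c j = ∑ i, c i * v.repr (v j) i := by
      rw [Finset.sum_eq_single j]
      · rw [v.repr_self, Finsupp.single_eq_same, mul_one]
      · intro i _ hi
        rw [v.repr_self, Finsupp.single_eq_of_ne hi, mul_zero]
      · intro h; exact absurd (Finset.mem_univ j) h
    rw [h3, Pi.zero_apply]
    simp only [hrep (v j), Finset.mul_sum]
    rw [Finset.sum_comm]
    refine Finset.sum_eq_zero fun t _ => ?_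
    have h4 : ∑ i, c i * (v.repr (Pi.single t 1) i * v j t) =
        (∑ i, c i * v.repr (Pi.single t 1) i) * v j t := by
      rw [Finset.sum_mul]
      refine Finset.sum_congr rfl fun i _ => ?_
      ring
    rw [h4, hc t, zero_mul]
  · intro y hy
    have h3 : v.repr y = 0 := by
      ext i
      rw [hrep, hy i]
      rfl
    exact (LinearEquiv.map_eq_zero_iff v.repr).1 h3

/-- **Quadratic relations between independent numbers have rank at least three.** -/
theorem rad_bound {a : ℕ} (ξ : Fin a → ℂ) (hξ : LinearIndependent QB ξ)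
    (b : Matrix (Fin a) (Fin a) QB) (hb : b.IsSymm) (hb0 : b ≠ 0)
    (hq : ∑ s, ∑ t, (b s t : ℂ) * ξ s * ξ t = 0) (E : Submodule QB (Fin a → QB))
    (hE : ∀ y ∈ E, ∑ s, ∑ t, (b s t : ℂ) * ξ s * (y t : ℂ) = 0) : finrank QB E + 3 ≤ a := by
  classical
  obtain ⟨κ, _, _, ρ, q, hcard, hbρ, hρ1, hρ2⟩ := diag b hb
  set η : κ → ℂ := fun i => ∑ s, ξ s * (ρ s i : ℂ) with hη
  have hηi : ∀ c : κ → QB, ∑ i, (c i : ℂ) * η i = 0 → c = 0 := by
    intro c hc
    apply hρ1
    intro s
    rw [Fintype.linearIndependent_iff] at hξ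
    refine hξ (fun s => ∑ i, c i * ρ s i) ?_ s
    rw [← hc]
    simp only [hη, Finset.mul_sum]
    rw [Finset.sum_comm]
    refine Finset.sum_congr rfl fun s _ => ?_
    rw [Algebra.smul_def, map_sum, Finset.sum_mul]
    refine Finset.sum_congr rfl fun i _ => ?_
    rw [map_mul]
    change (c i : ℂ) * (ρ s i : ℂ) * _ = _
    ring
  have hbρ' : ∀ s t, (b s t : ℂ) = ∑ i, (ρ s i : ℂ) * (ρ t i : ℂ) * (q i : ℂ) := by
    intro s t
    rw [hbρ]
    push_cast
    rfl
  have key : ∀ z : Fin a → ℂ, ∑ s, ∑ t, (b s t : ℂ) * ξ s * z t =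
      ∑ i, (q i : ℂ) * η i * ∑ t, (ρ t i : ℂ) * z t := by
    intro z
    simp only [hbρ', hη, Finset.sum_mul, Finset.mul_sum]
    have h1 : ∀ s : Fin a, ∑ t, ∑ i, (ρ s i : ℂ) * (ρ t i : ℂ) * (q i : ℂ) * ξ s * z t =
        ∑ i, ∑ t, (ρ s i : ℂ) * (ρ t i : ℂ) * (q i : ℂ) * ξ s * z t := fun s => Finset.sum_comm
    simp only [h1]
    rw [Finset.sum_comm]
    refine Finset.sum_congr rfl fun i _ => ?_
    rw [Finset.sum_comm]
    refine Finset.sum_congr rfl fun t _ => ?_
    refine Finset.sum_congr rfl fun s _ => ?_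
    ring
  set I : Finset κ := Finset.univ.filter fun i => q i ≠ 0 with hI
  have hIcard : 3 ≤ I.card := by
    by_contra hlt
    have hsum : ∑ i ∈ I, (q i : ℂ) * (η i * η i) = 0 := by
      rw [← hq, key ξ, hI, Finset.sum_filter]
      refine Finset.sum_congr rfl fun i _ => ?_
      split_ifs with h
      · have : ∑ t, (ρ t i : ℂ) * ξ t = η i := by
          simp only [hη]
          refine Finset.sum_congr rfl fun t _ => ?_
          ring
        rw [this]
        ring
      · have : q i = 0 := not_not.1 h
        rw [this]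
        push_cast
        ring
    have hη0 : ∀ i, η i ≠ 0 := by
      intro i hi
      have h1 := hηi (Pi.single i 1) (by
        rw [Finset.sum_eq_single i]
        · rw [hi, mul_zero]
        · intro j _ hj
          rw [Pi.single_eq_of_ne hj]
          push_cast
          rw [zero_mul]
        · intro h; exact absurd (Finset.mem_univ i) h)
      have h2 := congrFun h1 i
      rw [Pi.single_eq_same] at h2
      exact one_ne_zero h2
    have hcases : I.card = 0 ∨ I.card = 1 ∨ I.card = 2 := by omega
    rcases hcases with h0 | h1 | h2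
    · apply hb0
      ext s t
      rw [hbρ]
      have h3 : ∀ i, q i = 0 := by
        intro i
        by_contra h
        have : i ∈ I := by
          rw [hI, Finset.mem_filter]
          exact ⟨Finset.mem_univ i, h⟩
        rw [Finset.card_eq_zero.1 h0] at this
        exact absurd this (Finset.notMem_empty i)
      simp only [h3, mul_zero, Finset.sum_const_zero]
      rfl
    · obtain ⟨i, hi⟩ := Finset.card_eq_one.1 h1
      have hmem : i ∈ I := by rw [hi]; exact Finset.mem_singleton_self i
      rw [hI, Finset.mem_filter] at hmem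
      rw [hi, Finset.sum_singleton] at hsum
      have h3 : (q i : ℂ) ≠ 0 := fun h => hmem.2 (Subtype.ext h)
      rcases mul_eq_zero.1 hsum with h4 | h4
      · exact h3 h4
      · exact hη0 i (mul_self_eq_zero.1 h4)
    · obtain ⟨i, j, hij, hi⟩ := Finset.card_eq_two.1 h2
      have hmem : i ∈ I := by rw [hi]; exact Finset.mem_insert_self i _
      rw [hI, Finset.mem_filter] at hmem
      rw [hi, Finset.sum_pair hij] at hsum
      obtain ⟨c, hc⟩ := two_squares hmem.2 hsum (hη0 j)
      have h1 := hηi (Pi.single i 1 - Pi.single j c) (by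
        have h3 : ∀ k, (((Pi.single i 1 - Pi.single j c : κ → QB) k : QB) : ℂ) * η k =
            (if k = i then η k else 0) - (if k = j then (c : ℂ) * η k else 0) := by
          intro k
          rw [Pi.sub_apply, Pi.single_apply, Pi.single_apply]
          split_ifs <;> push_cast <;> ring
        simp only [h3, Finset.sum_sub_distrib, Finset.sum_ite_eq', Finset.mem_univ, if_true]
        rw [hc, sub_self])
      have h2 := congrFun h1 i
      rw [Pi.sub_apply, Pi.single_eq_same, Pi.single_eq_of_ne hij, sub_zero] at h2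
      exact one_ne_zero h2
  -- the dimension of `E`
  have hEI : ∀ y ∈ E, ∀ i, q i ≠ 0 → ∑ t, ρ t i * y t = 0 := by
    intro y hy i hi
    have h1 := hE y hy
    rw [key] at h1
    have h2 := hηi (fun i => q i * ∑ t, ρ t i * y t) (by
      rw [← h1]
      refine Finset.sum_congr rfl fun i _ => ?_
      push_cast
      ring)
    have h3 := congrFun h2 i
    exact (mul_eq_zero.1 h3).resolve_left hi
  let F : E →ₗ[QB] ({i : κ // i ∉ I} → QB) :=
    LinearMap.pi fun i => (Fintype.linearCombination QB (fun t => ρ t i.1)) ∘ₗ E.subtype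
  have hF : ∀ (y : E) i, F y i = ∑ t, ρ t i.1 * (y : Fin a → QB) t := by
    intro y i
    change Fintype.linearCombination QB (fun t => ρ t i.1) (y : Fin a → QB) = _
    rw [Fintype.linearCombination_apply]
    refine Finset.sum_congr rfl fun t _ => ?_
    rw [smul_eq_mul, mul_comm]
  have hFi : Function.Injective F := by
    rw [injective_iff_map_eq_zero]
    intro y hy
    apply Subtype.ext
    apply hρ2
    intro i
    by_cases hi : i ∈ I
    · rw [hI, Finset.mem_filter] at hi
      exact hEI y y.2 i hi.2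
    · have h1 := congrFun hy ⟨i, hi⟩
      rw [hF] at h1
      exact h1
  have h1 := LinearMap.finrank_le_finrank_of_injective hFi
  rw [Module.finrank_fintype_fun_eq_card] at h1
  have h2 : Fintype.card {i : κ // i ∉ I} = Fintype.card κ - I.card := by
    rw [Fintype.card_subtype_compl, Fintype.card_coe]
  have h3 : I.card ≤ Fintype.card κ := Finset.card_le_univ I
  omega

end Pool.Agent.TH519.HS
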