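import Pool.Agent.TH519.HS.Qf2

/-!
# Points on quadrics: the dimension
-/

set_option autoImplicit false

namespace Pool.Agent.TH519.HS

open Filter Module Pool.Agent.TH519.GL Pool.Agent.TH519.FE
open Pool.Agent.H301R2.SSE (QB mem_QB Lt Lt_log)

theorem quad_id {m : ℕ} (S : Matrix (Fin m) (Fin m) QB) (hS : S.IsSymm) (x dx : Fin m → ℂ)
    (h : ∑ i, ∑ j, ((S i j : ℂ) * x i * dx j + x j * ((S i j : ℂ) * dx i + x i * 0)) = 0) :
    ∑ i, (∑ j, (S i j : ℂ) * x j) * dx i = 0 := by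
  have h1 : ∑ i, ∑ j, (S i j : ℂ) * x i * dx j = ∑ i, (∑ j, (S i j : ℂ) * x j) * dx i := by
    simp only [Finset.sum_mul]
    rw [Finset.sum_comm]
    refine Finset.sum_congr rfl fun i _ => ?_
    refine Finset.sum_congr rfl fun j _ => ?_
    rw [hS.apply i j]
  have h2 : ∑ i, ∑ j, x j * ((S i j : ℂ) * dx i + x i * 0) =
      ∑ i, (∑ j, (S i j : ℂ) * x j) * dx i := by
    simp only [Finset.sum_mul]
    refine Finset.sum_congr rfl fun i _ => ?_
    refine Finset.sum_congr rfl fun j _ => ?_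
    ring
  simp only [Finset.sum_add_distrib] at h
  rw [h1, h2] at h
  have h3 : (2 : ℂ) * ∑ i, (∑ j, (S i j : ℂ) * x j) * dx i = 0 := by
    rw [two_mul]
    exact h
  exact (mul_eq_zero.1 h3).resolve_left two_ne_zero

/-- **Points on quadrics.** -/
theorem quad_coord {m M r q : ℕ} (l' : Fin M → ℂ) (hl : LinearIndependent QB l')
    (hl' : ∀ j, l' j ∈ Lt) (S : Matrix (Fin m) (Fin m) QB) (hS : S.IsSymm)
    (hdet : IsUnit S.det) (hr : m ≤ 2 * r + 4)
    (hq : q = m * (m - 1) + r * M + (m - 3) * m + 1)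
    (φ : Fin q → ((Fin m × Fin M → QB) →ₗ[QB] QB)) :
    ∃ P : MvPolynomial (Fin q) QB, P ≠ 0 ∧ ∀ b : Fin m → Fin M → QB,
      ∑ i, ∑ j, (S i j : ℂ) * cmb l' (b i) * cmb l' (b j) = 0 →
      (∃ k k', ∑ i, ∑ j, S i j * b i k * b j k' ≠ 0) →
      MvPolynomial.eval (fun k => φ k (fun p => b p.1 p.2)) P = 0 := by
  classical
  by_contra hcon
  push Not at hcon
  set ι : Type := {x : (Fin m → Fin M → QB) × (Fin (m - 3) → Fin m → QB) //
    ∑ i, ∑ j, (S i j : ℂ) * cmb l' (x.1 i) * cmb l' (x.1 j) = 0 ∧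
    (∀ j, ∑ i, (x.2 j i : ℂ) * cmb l' (x.1 i) = 0) ∧
    finrank QB (RelG (Gq S (fun i => cmb l' (x.1 i)) x.2)) ≤ r} with hι
  obtain ⟨𝒰, hgen⟩ := exists_ultra' (ι := ι)
    (fun x k => φ k (fun p => x.1.1 p.1 p.2)) (by
    intro P hP
    obtain ⟨b, h1, h2, h3⟩ := hcon P hP
    obtain ⟨w, hw1, hw2⟩ := exists_ann l' hl S hS hdet b h1 h2 hr
    exact ⟨⟨(b, w), h1, hw1, hw2⟩, h3⟩)
  obtain ⟨D, g, hg, hD2, hDc, hφ⟩ := exists_system 𝒰
    (fun (x : ι) (p : Fin m × Fin M) => x.1.1 p.1 p.2) φ hgen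
  have hM : ∀ k p, HD (D k) (fun x : ι => cmb l' (x.1.1 p))
      (fun x => cmb l' (fun j => g k (fun x => x.1.1 p j) x)) :=
    fun k p => hDc l' k (fun x => x.1.1 p)
  have hgg : ∀ k j i, HD (D k) (fun x : ι => ((x.1.2 j i : QB) : ℂ))
      (fun x => ((g k (fun x => x.1.2 j i) x : QB) : ℂ)) :=
    fun k j i => hg k (fun x => x.1.2 j i)
  have hrel1 : ∀ᶠ x in (𝒰 : Filter ι), ∀ k, ∑ i, ∑ j,
      ((S i j : ℂ) * cmb l' (x.1.1 i) * cmb l' (fun m => g k (fun x => x.1.1 j m) x) +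
        cmb l' (x.1.1 j) * ((S i j : ℂ) * cmb l' (fun m => g k (fun x => x.1.1 i m) x) +
        cmb l' (x.1.1 i) * 0)) = 0 := by
    rw [Filter.eventually_all]
    intro k
    refine HD.congr (HDsum (hD2 k) Finset.univ _ _ fun i => HDsum (hD2 k) Finset.univ _ _ fun j =>
      ((HDc (hD2 k) (S i j : ℂ)).mul (hM k i)).mul (hM k j))
      (HDc (hD2 k) 0) (Filter.Eventually.of_forall fun x => x.2.1)
  have hrel2 : ∀ᶠ x in (𝒰 : Filter ι), ∀ k j, ∑ i,
      ((x.1.2 j i : ℂ) * cmb l' (fun m => g k (fun x => x.1.1 i m) x) +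
        cmb l' (x.1.1 i) * ((g k (fun x => x.1.2 j i) x : QB) : ℂ)) = 0 := by
    rw [Filter.eventually_all]
    intro k
    rw [Filter.eventually_all]
    intro j
    refine HD.congr (HDsum (hD2 k) Finset.univ _ _ fun i => (hgg k j i).mul (hM k i))
      (HDc (hD2 k) 0) (Filter.Eventually.of_forall fun x => x.2.2.1 j)
  have hind : ∀ᶠ x in (𝒰 : Filter ι), ∀ c : Fin q → QB,
      (∀ p j, ∑ k, c k * g k (fun x => x.1.1 p j) x = 0) → c = 0 := by
    refine hφ.mono fun x hx c hc => ?_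
    refine eq_zero_of_dual φ (fun k p => g k (fun x => x.1.1 p.1 p.2) x) hx c ?_
    rintro ⟨p, j⟩
    exact hc p j
  obtain ⟨x, ⟨hx1, hx2⟩, hx3⟩ := ((hrel1.and hrel2).and hind).exists
  have h3 := tangent_boundG (n := q) (ρ := r) l' hl hl'
    (Gq S (fun i => cmb l' (x.1.1 i)) x.1.2)
    (Fin.cons (fun _ => 0) (fun j (p : Fin (m - 3) × Fin m) =>
      if p.1 = j then cmb l' (x.1.1 p.2) else 0) :
      Fin (m - 3 + 1) → Fin (m - 3) × Fin m → ℂ) x.2.2.2
    (fun k p j => g k (fun x => x.1.1 p j) x) (fun k p => g k (fun x => x.1.2 p.1 p.2) x)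
    (by
      intro k j
      refine Fin.cases ?_ (fun j => ?_) j
      · simp only [Gq, Fin.cons_zero, zero_mul, Finset.sum_const_zero, add_zero]
        exact quad_id S hS _ _ (hx1 k)
      · simp only [Gq, Fin.cons_succ]
        have h4 := hx2 k j
        rw [Finset.sum_add_distrib] at h4
        refine Eq.trans ?_ h4
        congr 1
        rw [Fintype.sum_prod_type, Finset.sum_eq_single j]
        · simp only [if_true]
        · intro j' _ hj'
          refine Finset.sum_eq_zero fun i _ => ?_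
          rw [if_neg hj', zero_mul]
        · intro h; exact absurd (Finset.mem_univ j) h) hx3
  rw [Fintype.card_prod, Fintype.card_fin, Fintype.card_fin] at h3
  omega

end Pool.Agent.TH519.HS
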