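import Pool.Agent.TH519.HS.Qf2

/-!
# Points on arbitrary quadrics
-/

set_option autoImplicit false

namespace Pool.Agent.TH519.HS

open Filter Module Pool.Agent.TH519.GL Pool.Agent.TH519.FE
open Pool.Agent.H301R2.SSE (QB mem_QB Lt Lt_log)

theorem exists_ann' {m M r k₀ : ℕ} (l' : Fin M → ℂ) (hl : LinearIndependent QB l')
    (S : Matrix (Fin m) (Fin m) QB) (hS : S.IsSymm)
    (hk : finrank QB (LinearMap.ker (Matrix.mulVecLin S)) ≤ k₀) (b : Fin m → Fin M → QB)
    (hq : ∑ i, ∑ j, (S i j : ℂ) * cmb l' (b i) * cmb l' (b j) = 0)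
    (hne : ∃ k k', ∑ i, ∑ j, S i j * b i k * b j k' ≠ 0) (hr : m + k₀ ≤ 2 * r + 4) :
    ∃ w : Fin (m - 3) → Fin m → QB, (∀ j, ∑ i, (w j i : ℂ) * cmb l' (b i) = 0) ∧
      finrank QB (RelG (Gq S (fun i => cmb l' (b i)) w)) ≤ r := by
  classical
  set x : Fin m → ℂ := fun i => cmb l' (b i) with hx
  obtain ⟨a, ξ, R, w₀, hξ, han, hxR, hξw, -⟩ := basis_c QB x
  let Θ : (Fin m → QB) →ₗ[QB] ℂ := Fintype.linearCombination QB x
  have hΘ : ∀ v, Θ v = ∑ i, (v i : ℂ) * x i := by
    intro v
    change Fintype.linearCombination QB x v = _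
    rw [Fintype.linearCombination_apply]
    refine Finset.sum_congr rfl fun i _ => ?_
    rw [Algebra.smul_def]
    rfl
  set Ann := LinearMap.ker Θ with hAnn
  have hmemA : ∀ v, v ∈ Ann ↔ ∑ i, (v i : ℂ) * x i = 0 := by
    intro v
    rw [hAnn, LinearMap.mem_ker, hΘ]
  have h1 : finrank QB Ann + a ≤ m := by
    have := ker_add_card Θ ξ hξ (fun α => ⟨w₀ α, by
      rw [hΘ, hξw α]
      rfl⟩)
    rwa [Fintype.card_fin, Fintype.card_fin] at this
  -- vectors orthogonal to the annihilator
  have h2 : ∀ v : Fin m → QB, (∀ u ∈ Ann, ∑ i, u i * v i = 0) →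
      ∀ i, v i = ∑ α, R i α * ∑ j, w₀ α j * v j := by
    intro v hv i
    have h3 := hv (Pi.single i 1 - fun j => ∑ α, R i α * w₀ α j) (by
      rw [hmemA]
      have h4 : ∀ j, (((Pi.single i 1 - fun j => ∑ α, R i α * w₀ α j : Fin m → QB) j : QB) : ℂ) *
          x j = (if j = i then x j else 0) - ∑ α, (R i α : ℂ) * ((w₀ α j : ℂ) * x j) := by
        intro j
        rw [Pi.sub_apply, Pi.single_apply]
        push_cast
        rw [sub_mul, Finset.sum_mul]
        congr 1
        · split_ifs <;> push_cast <;> ring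
        · refine Finset.sum_congr rfl fun α _ => ?_
          ring
      simp only [h4, Finset.sum_sub_distrib, Finset.sum_ite_eq', Finset.mem_univ, if_true]
      rw [Finset.sum_comm]
      simp only [← Finset.mul_sum]
      rw [sub_eq_zero, hxR i]
      refine Finset.sum_congr rfl fun α _ => ?_
      rw [hξw α]
      rfl)
    have h4 : ∀ j, (Pi.single i 1 - fun j => ∑ α, R i α * w₀ α j : Fin m → QB) j * v j =
        (if j = i then v j else 0) - ∑ α, R i α * (w₀ α j * v j) := by
      intro j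
      rw [Pi.sub_apply, Pi.single_apply, sub_mul, Finset.sum_mul]
      congr 1
      · split_ifs <;> ring
      · refine Finset.sum_congr rfl fun α _ => ?_
        ring
    simp only [h4, Finset.sum_sub_distrib, Finset.sum_ite_eq', Finset.mem_univ, if_true] at h3
    rw [Finset.sum_comm] at h3
    simp only [← Finset.mul_sum] at h3
    exact sub_eq_zero.1 h3
  -- the reduced form
  let b' : Matrix (Fin a) (Fin a) QB := Matrix.of fun s t => ∑ i, ∑ j, R i s * S i j * R j t
  have hb' : ∀ s t, b' s t = ∑ i, ∑ j, R i s * S i j * R j t := fun s t => rfl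
  have hb's : b'.IsSymm := by
    have h5 : ∀ s t, b' t s = b' s t := by
      intro s t
      rw [hb', hb', Finset.sum_comm]
      refine Finset.sum_congr rfl fun i _ => ?_
      refine Finset.sum_congr rfl fun j _ => ?_
      rw [hS.apply i j]
      ring
    exact Matrix.IsSymm.ext h5
  have hform : ∀ (F : Type) [Field F] (f : QB →+* F) (y z : Fin a → F),
      ∑ s, ∑ t, f (b' s t) * y s * z t =
      ∑ i, ∑ j, f (S i j) * (∑ s, f (R i s) * y s) * (∑ t, f (R j t) * z t) := by
    intro F _ f y z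
    simp only [hb', map_sum, map_mul, Finset.mul_sum, Finset.sum_mul]
    have e1 : ∀ s : Fin a, ∑ t, ∑ i, ∑ j, f (R i s) * f (S i j) * f (R j t) * y s * z t =
        ∑ i, ∑ t, ∑ j, f (R i s) * f (S i j) * f (R j t) * y s * z t := fun s => Finset.sum_comm
    simp only [e1]
    rw [Finset.sum_comm]
    refine Finset.sum_congr rfl fun i _ => ?_
    have e2 : ∀ s : Fin a, ∑ t, ∑ j, f (R i s) * f (S i j) * f (R j t) * y s * z t =
        ∑ j, ∑ t, f (R i s) * f (S i j) * f (R j t) * y s * z t := fun s => Finset.sum_comm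
    simp only [e2]
    rw [Finset.sum_comm]
    refine Finset.sum_congr rfl fun j _ => ?_
    rw [Finset.sum_comm]
    refine Finset.sum_congr rfl fun t _ => Finset.sum_congr rfl fun s _ => ?_
    ring
  have hxi : ∀ i, ∑ s, algebraMap QB ℂ (R i s) * ξ s = x i := fun i => (hxR i).symm
  have hb'0 : b' ≠ 0 := by
    intro h0
    obtain ⟨k, k', hkk⟩ := hne
    apply hkk
    have hcol : ∀ k, ∀ u ∈ Ann, ∑ i, u i * b i k = 0 := by
      intro k u hu
      rw [hmemA] at hu
      have h3 := cmb_sum l' u b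
      rw [hu] at h3
      exact congrFun (cmb_eq_zero hl h3.symm) k
    have h3 := hform QB (RingHom.id QB) (fun s => ∑ j, w₀ s j * b j k)
      (fun s => ∑ j, w₀ s j * b j k')
    simp only [RingHom.id_apply, ← h2 _ (hcol k), ← h2 _ (hcol k')] at h3
    have h4 : ∑ i, ∑ j, S i j * b i k * b j k' =
        ∑ s, ∑ t, b' s t * (∑ j, w₀ s j * b j k) * (∑ j, w₀ t j * b j k') := by
      rw [h3]
    rw [h4, h0]
    simp only [Matrix.zero_apply, zero_mul, Finset.sum_const_zero]
  have hb'q : ∑ s, ∑ t, (b' s t : ℂ) * ξ s * ξ t = 0 := by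
    have h3 := hform ℂ (algebraMap QB ℂ) ξ ξ
    simp only [hxi] at h3
    change ∑ s, ∑ t, algebraMap QB ℂ (b' s t) * ξ s * ξ t = 0
    rw [h3]
    exact hq
  have ha3 : 3 ≤ a := by
    have := rad_bound ξ hξ b' hb's hb'0 hb'q ⊥ (by
      intro y hy
      rw [Submodule.mem_bot] at hy
      subst hy
      simp)
    omega
  -- generators of the annihilator
  let B := Module.finBasis QB Ann
  let w : Fin (m - 3) → Fin m → QB := fun j =>
    if h : (j : ℕ) < finrank QB Ann then (B ⟨j, h⟩ : Fin m → QB) else 0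
  have hw : ∀ j, w j ∈ Ann := by
    intro j
    simp only [w]
    split_ifs with h
    · exact (B ⟨j, h⟩).2
    · exact Ann.zero_mem
  have hwspan : ∀ v : Fin m → QB, (∀ j, ∑ i, w j i * v i = 0) → ∀ u ∈ Ann, ∑ i, u i * v i = 0 := by
    intro v hv u hu
    have h3 := congrArg (fun y : Ann => (y : Fin m → QB)) (B.sum_repr ⟨u, hu⟩)
    simp only [Submodule.coe_sum, Submodule.coe_smul] at h3
    rw [← h3]
    simp only [Finset.sum_apply, Pi.smul_apply, smul_eq_mul, Finset.sum_mul]
    rw [Finset.sum_comm]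
    refine Finset.sum_eq_zero fun c _ => ?_
    have h4 : (c : ℕ) < m - 3 := by have := c.2; omega
    have h5 := hv ⟨c, h4⟩
    have h6 : w ⟨c, h4⟩ = (B c : Fin m → QB) := by
      simp only [w]
      rw [dif_pos c.2]
    rw [h6] at h5
    have h7 : ∑ i, B.repr ⟨u, hu⟩ c * (B c : Fin m → QB) i * v i =
        B.repr ⟨u, hu⟩ c * ∑ i, (B c : Fin m → QB) i * v i := by
      rw [Finset.mul_sum]
      refine Finset.sum_congr rfl fun i _ => ?_
      ring
    rw [h7, h5, mul_zero]
  refine ⟨w, fun j => (hmemA _).1 (hw j), ?_⟩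
  set E := RelG (Gq S x w) with hE
  have hE1 : ∀ v ∈ E, ∑ i, (v i : ℂ) * ∑ j, (S i j : ℂ) * x j = 0 := by
    intro v hv
    exact (mem_RelG.1 hv) 0
  have hE2 : ∀ v ∈ E, ∀ u ∈ Ann, ∑ i, u i * v i = 0 := by
    intro v hv
    apply hwspan
    intro j
    have h3 := (mem_RelG.1 hv) j.succ
    have h4 : ((∑ i, w j i * v i : QB) : ℂ) = 0 := by
      push_cast
      rw [← h3]
      refine Finset.sum_congr rfl fun i _ => ?_
      simp only [Gq, Fin.cons_succ]
      ring
    exact Subtype.ext h4
  have h3 : finrank QB E ≤ finrank QB Ann + k₀ := by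
    let F : E →ₗ[QB] Ann := LinearMap.codRestrict Ann (Matrix.mulVecLin S ∘ₗ E.subtype) (by
      intro v
      rw [hmemA, ← hE1 v v.2]
      change ∑ i, ((∑ j, S i j * (v : Fin m → QB) j : QB) : ℂ) * x i = _
      push_cast
      simp only [Finset.sum_mul, Finset.mul_sum]
      rw [Finset.sum_comm]
      refine Finset.sum_congr rfl fun i _ => Finset.sum_congr rfl fun j _ => ?_
      rw [hS.apply i j]
      ring)
    have h5 := LinearMap.finrank_range_add_finrank_ker F
    have h6 : finrank QB (LinearMap.range F) ≤ finrank QB Ann := Submodule.finrank_le _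
    have h7 : finrank QB (LinearMap.ker F) ≤ k₀ := by
      refine le_trans ?_ hk
      let G : LinearMap.ker F →ₗ[QB] LinearMap.ker (Matrix.mulVecLin S) :=
        LinearMap.codRestrict _ (E.subtype ∘ₗ (LinearMap.ker F).subtype) (by
          intro v
          rw [LinearMap.mem_ker]
          have h8 : F (v : E) = 0 := LinearMap.mem_ker.1 v.2
          exact congrArg (fun y : Ann => (y : Fin m → QB)) h8)
      refine LinearMap.finrank_le_finrank_of_injective (f := G) ?_
      intro v v' hvv
      apply Subtype.ext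
      apply Subtype.ext
      exact congrArg (fun y : LinearMap.ker (Matrix.mulVecLin S) => (y : Fin m → QB)) hvv
    omega
  have h4 : finrank QB E + 3 ≤ a := by
    let T : (Fin m → QB) →ₗ[QB] (Fin a → QB) := Matrix.mulVecLin (Matrix.of w₀)
    have hT : ∀ v α, T v α = ∑ j, w₀ α j * v j := fun v α => rfl
    have hinj : Function.Injective (T ∘ₗ E.subtype) := by
      rw [injective_iff_map_eq_zero]
      intro v hv
      apply Subtype.ext
      funext i
      rw [h2 v (hE2 v v.2) i]
      change _ = (0 : QB)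
      refine Finset.sum_eq_zero fun α _ => ?_
      have h5 := congrFun hv α
      change ∑ j, w₀ α j * (v : Fin m → QB) j = 0 at h5
      rw [h5, mul_zero]
    have h5 : finrank QB (LinearMap.range (T ∘ₗ E.subtype)) = finrank QB E :=
      LinearMap.finrank_range_of_inj hinj
    rw [← h5]
    refine rad_bound ξ hξ b' hb's hb'0 hb'q _ ?_
    rintro _ ⟨v, rfl⟩
    have h6 := hform ℂ (algebraMap QB ℂ) ξ (fun t => ((T v t : QB) : ℂ))
    simp only [hxi] at h6
    have h7 : ∀ j, ∑ t, algebraMap QB ℂ (R j t) * ((T v t : QB) : ℂ) =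
        (((v : Fin m → QB) j : QB) : ℂ) := by
      intro j
      rw [h2 v (hE2 v v.2) j]
      push_cast
      refine Finset.sum_congr rfl fun t _ => ?_
      rw [hT]
      push_cast
      rfl
    simp only [h7] at h6
    change ∑ s, ∑ t, algebraMap QB ℂ (b' s t) * ξ s * ((T v t : QB) : ℂ) = 0
    rw [h6, ← hE1 v v.2]
    simp only [Finset.mul_sum]
    rw [Finset.sum_comm]
    refine Finset.sum_congr rfl fun i _ => Finset.sum_congr rfl fun j _ => ?_
    rw [hS.apply i j]
    change ((S i j : QB) : ℂ) * _ * _ = _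
    ring
  omega

end Pool.Agent.TH519.HS
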