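import Pool.Agent.TH519.HS.Sg
import Pool.Agent.TH519.HS.Log2

/-!
# Singular matrices of linear forms in logarithms
-/

set_option autoImplicit false

namespace Pool.Agent.TH519.HS

open Filter Module Pool.Agent.TH519.GL Pool.Agent.TH519.FE
open Pool.Agent.H301R2.SSE (QB mem_QB Lt Lt_log)

/-- singular with independent rows and columns over the algebraic numbers -/
def SingInd {n : ℕ} (m : Fin n × Fin n → ℂ) : Prop :=
  (Matrix.of fun i j => m (i, j)).det = 0 ∧
  (∀ w : Fin n → QB, (∀ j, ∑ i, (w i : ℂ) * m (i, j) = 0) → w = 0) ∧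
  ∀ w : Fin n → QB, (∀ i, ∑ j, m (i, j) * (w j : ℂ) = 0) → w = 0

theorem SingInd.data {n : ℕ} {m : Fin n × Fin n → ℂ} (h : SingInd m) :
    ∃ a : ℕ, a ≤ n ∧ ∃ (g : Fin a × Fin n → QB) (u : Fin a → ℂ)
      (X : Fin (n - a + 1) → Fin n → ℂ), Data a (n - a + 1) m g u X := by
  obtain ⟨h1, h2, h3⟩ := h
  refine sing_data m ?_ ?_ h2 h3
  · obtain ⟨v, hv1, hv2⟩ := Matrix.exists_vecMul_eq_zero_iff.2 h1
    exact ⟨v, hv1, fun j => congrFun hv2 j⟩
  · obtain ⟨v, hv1, hv2⟩ := Matrix.exists_mulVec_eq_zero_iff.2 h1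
    exact ⟨v, hv1, fun j => congrFun hv2 j⟩

theorem sing_coord {n M q : ℕ} (l' : Fin M → ℂ) (hl : LinearIndependent QB l')
    (hl' : ∀ j, l' j ∈ Lt) (hMn : n * n + n ≤ M)
    (hq : q = n * (2 * n + 1) + (n * n - (n + 1)) * M + 1)
    (φ : Fin q → (((Fin n × Fin n) × Fin M → QB) →ₗ[QB] QB)) :
    ∃ P : MvPolynomial (Fin q) QB, P ≠ 0 ∧ ∀ b : Fin n × Fin n → Fin M → QB,
      SingInd (fun p => cmb l' (b p)) →
      MvPolynomial.eval (fun k => φ k (fun p => b p.1 p.2)) P = 0 := by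
  classical
  have hle : ∀ a : Fin (n + 1), (n + 1) * n + (n * n - (n + 1)) * M + (a : ℕ) * n + 1 ≤ q := by
    intro a
    have h1 : (a : ℕ) * n ≤ n * n := Nat.mul_le_mul_right n (Nat.lt_succ_iff.1 a.2)
    have h2 : (n + 1) * n + n * n = n * (2 * n + 1) := by ring
    omega
  choose P hP1 hP2 using fun a : Fin (n + 1) =>
    bil (a := (a : ℕ)) (s := n - (a : ℕ) + 1) l' hl hl' hMn rfl
      (fun k => φ (Fin.castLE (hle a) k))
  refine ⟨∏ a, MvPolynomial.rename (Fin.castLE (hle a)) (P a), ?_, ?_⟩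
  · rw [Finset.prod_ne_zero_iff]
    intro a _ h
    apply hP1 a
    apply MvPolynomial.rename_injective _ (Fin.castLE_injective (hle a))
    rw [h, map_zero]
  · intro b hb
    obtain ⟨a, ha, g, u, X, hD⟩ := hb.data
    rw [map_prod]
    refine Finset.prod_eq_zero (Finset.mem_univ (⟨a, by omega⟩ : Fin (n + 1))) ?_
    rw [MvPolynomial.eval_rename]
    exact hP2 ⟨a, by omega⟩ b ⟨g, u, X, hD⟩

/-- coordinates of matrices -/
noncomputable def mkM {K W : Type} [Field K] [AddCommGroup W] [Module K W]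
    [FiniteDimensional K W] (n : ℕ) :
    ((Fin n × Fin n) × Fin (finrank K W) → K) →ₗ[K] Matrix (Fin n) (Fin n) W where
  toFun b := Matrix.of fun i j => ∑ k, b ((i, j), k) • Module.finBasis K W k
  map_add' b b' := by
    ext i j
    simp only [Matrix.of_apply, Matrix.add_apply, Pi.add_apply, add_smul, Finset.sum_add_distrib]
  map_smul' c b := by
    ext i j
    simp only [Matrix.of_apply, Matrix.smul_apply, Pi.smul_apply, smul_eq_mul, mul_smul,
      Finset.smul_sum, RingHom.id_apply]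

/-- **The dimension theorem.** -/
theorem sing_dim (W : Submodule QB ℂ) [FiniteDimensional QB W] (hW : W ≤ Lt) {n : ℕ}
    (hMn : n * n + n ≤ finrank QB W)
    (φ : Fin (n * (2 * n + 1) + (n * n - (n + 1)) * finrank QB W + 1) →
      (Matrix (Fin n) (Fin n) W →ₗ[QB] QB)) :
    ∃ P : MvPolynomial (Fin (n * (2 * n + 1) + (n * n - (n + 1)) * finrank QB W + 1)) QB, P ≠ 0 ∧
      ∀ A : Matrix (Fin n) (Fin n) W, SingInd (fun p => (A p.1 p.2 : ℂ)) →
        MvPolynomial.eval (fun k => φ k A) P = 0 := by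
  obtain ⟨P, h1, h2⟩ := sing_coord (n := n) (bs W) (bs_li W)
    (fun j => hW (Module.finBasis QB W j).2) hMn rfl (fun k => φ k ∘ₗ mkM n)
  refine ⟨P, h1, fun A hA => ?_⟩
  have h3 : (fun p : Fin n × Fin n => cmb (bs W)
      ((fun p k => (Module.finBasis QB W).repr (A p.1 p.2) k) p)) =
      fun p => (A p.1 p.2 : ℂ) := by
    funext p
    exact cmb_bs' W (A p.1 p.2)
  have h4 := h2 (fun p k => (Module.finBasis QB W).repr (A p.1 p.2) k) (by
    rw [h3]
    exact hA)
  have h5 : mkM (K := QB) (W := W) n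
      (fun q => (Module.finBasis QB W).repr (A q.1.1 q.1.2) q.2) = A := by
    ext i j
    exact congrArg _ ((Module.finBasis QB W).sum_repr (A i j))
  simp only [LinearMap.comp_apply, h5] at h4
  exact h4

/-- counting with general indices -/
theorem count_gen {K : Type} [Field K] [CharZero K] {d : ℕ} {σ : Type} [Fintype σ]
    (S : Set (σ → K))
    (hS : ∀ φ : Fin (d + 1) → ((σ → K) →ₗ[K] K), ∃ P : MvPolynomial (Fin (d + 1)) K, P ≠ 0 ∧
      ∀ x ∈ S, MvPolynomial.eval (fun k => φ k x) P = 0) :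
    ∃ κ : ℕ, ∀ H : ℕ, 1 ≤ H → ∀ F : Finset (σ → ℤ),
      (∀ a ∈ F, (∀ j, |a j| ≤ H) ∧ (fun j => (a j : K)) ∈ S) → F.card ≤ κ * H ^ d := by
  classical
  let ε := Fintype.equivFin σ
  obtain ⟨κ, hκ⟩ := count (d := d) (M := Fintype.card σ) {x | (fun j => x (ε j)) ∈ S} (by
    intro φ
    obtain ⟨P, h1, h2⟩ := hS (fun k => φ k ∘ₗ LinearMap.funLeft K K ε.symm)
    refine ⟨P, h1, fun x hx => ?_⟩
    have h3 := h2 _ hx
    have h4 : LinearMap.funLeft K K ε.symm (fun j => x (ε j)) = x := by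
      funext i
      change x (ε (ε.symm i)) = x i
      rw [Equiv.apply_symm_apply]
    simp only [LinearMap.comp_apply, h4] at h3
    exact h3)
  refine ⟨κ, fun H hH F hF => ?_⟩
  let g : (σ → ℤ) → (Fin (Fintype.card σ) → ℤ) := fun a k => a (ε.symm k)
  have hg : Function.Injective g := by
    intro a a' h
    funext i
    have := congrFun h (ε i)
    simp only [g, Equiv.symm_apply_apply] at this
    exact this
  rw [← Finset.card_image_of_injective _ hg]
  refine hκ H hH _ ?_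
  intro a ha
  obtain ⟨a, ha', rfl⟩ := Finset.mem_image.1 ha
  obtain ⟨h1, h2⟩ := hF a ha'
  refine ⟨fun k => h1 _, ?_⟩
  change (fun j => ((g a (ε j) : ℤ) : K)) ∈ S
  have h3 : (fun j => ((g a (ε j) : ℤ) : K)) = fun j => (a j : K) := by
    funext j
    simp only [g, Equiv.symm_apply_apply]
  rw [h3]
  exact h2

end Pool.Agent.TH519.HS
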