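import Pool.Agent.TH519.HS.Red1
import Pool.Agent.H297R2.Generic

/-!
# Relations of minimal degree, continued
-/

set_option autoImplicit false

namespace Pool.Agent.TH519.HS

open MvPolynomial

/-- the point `z` satisfies a nontrivial relation of degree at most `D` -/
def RlK (K : Type) [Field K] [Algebra K ℂ] {τ : Type} (D : ℕ) (z : τ → ℂ) : Prop :=
  ∃ f : MvPolynomial τ K, f ≠ 0 ∧ f.totalDegree ≤ D ∧ aeval z f = 0

variable {K : Type} [Field K] [Algebra K ℂ]

theorem eval_map_K {τ : Type} (z : τ → ℂ) (f : MvPolynomial τ K) :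
    eval z (map (algebraMap K ℂ) f) = aeval z f := by
  rw [eval_map, aeval_def]

omit [Algebra K ℂ] in
theorem exists_w {m : ℕ} (u : Fin m → K) : ∃ w : Fin m → K, u = 0 ∨ ∑ i, u i * w i = 1 := by
  classical
  by_cases h : u = 0
  · exact ⟨0, Or.inl h⟩
  · obtain ⟨i, hi⟩ : ∃ i, u i ≠ 0 := by
      by_contra h'
      push Not at h'
      exact h (funext h')
    refine ⟨Pi.single i (u i)⁻¹, Or.inr ?_⟩
    rw [Finset.sum_eq_single i]
    · rw [Pi.single_eq_same, mul_inv_cancel₀ hi]
    · intro j _ hj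
      rw [Pi.single_eq_of_ne hj, mul_zero]
    · intro h; exact absurd (Finset.mem_univ i) h

theorem red_key {n m : ℕ} (x : Fin n → ℂ) (y : Fin m → ℂ) (f : MvPolynomial (Fin n ⊕ Fin m) K)
    (hmin : ∀ g : MvPolynomial (Fin n ⊕ Fin m) K, g ≠ 0 → aeval (Sum.elim x y) g = 0 →
      f.totalDegree ≤ g.totalDegree) (u w : Fin m → K) (hw : u = 0 ∨ ∑ i, u i * w i = 1)
    (hu : ∀ v : Fin m → K, ∑ i, u i * v i = 0 →
      ∑ i, algebraMap K ℂ (v i) * aeval (Sum.elim x y) (pderiv (Sum.inr i) f) = 0) (i : Fin m) :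
    pderiv (Sum.inr i : Fin n ⊕ Fin m) f =
      C (u i) * ∑ j, C (w j) * pderiv (Sum.inr j : Fin n ⊕ Fin m) f := by
  classical
  set g := ∑ j, C (w j) * pderiv (Sum.inr j : Fin n ⊕ Fin m) f with hg
  set v : Fin m → K := fun k => (Pi.single i 1 : Fin m → K) k - u i * w k with hv
  have h1 : ∑ k, u k * v k = 0 := by
    have h2 : ∑ k, u k * v k = u i - u i * ∑ k, u k * w k := by
      simp only [hv, mul_sub, Finset.sum_sub_distrib]
      congr 1
      · rw [Finset.sum_eq_single i]
        · rw [Pi.single_eq_same, mul_one]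
        · intro j _ hj
          rw [Pi.single_eq_of_ne hj, mul_zero]
        · intro h; exact absurd (Finset.mem_univ i) h
      · rw [Finset.mul_sum]
        refine Finset.sum_congr rfl fun k _ => ?_
        ring
    rw [h2]
    rcases hw with hw | hw
    · rw [hw, Pi.zero_apply, zero_mul, sub_zero]
    · rw [hw, mul_one, sub_self]
  have h2 := hu v h1
  set v' : Fin n ⊕ Fin m → K := Sum.elim (fun _ => 0) v with hv'
  set G := ∑ k, C (v' k) * pderiv k f with hG
  have hGv : G = ∑ k, C (v k) * pderiv (Sum.inr k : Fin n ⊕ Fin m) f := by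
    rw [hG, Fintype.sum_sum_type]
    simp only [hv', Sum.elim_inl, Sum.elim_inr, C_0, zero_mul, Finset.sum_const_zero, zero_add]
  have hG1 : aeval (Sum.elim x y) G = 0 := by
    rw [hGv, map_sum, ← h2]
    refine Finset.sum_congr rfl fun k _ => ?_
    rw [map_mul, algHom_C]
  have hG0 : G = 0 := by
    by_contra h0
    have h3 := hmin G h0 hG1
    have h4 := deg_drop f v' h0
    rw [← hG] at h4
    omega
  have h5 : G = pderiv (Sum.inr i : Fin n ⊕ Fin m) f - C (u i) * g := by
    rw [hGv, hg, Finset.mul_sum]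
    simp only [hv, C_sub, sub_mul, Finset.sum_sub_distrib, C_mul]
    congr 1
    · rw [Finset.sum_eq_single i]
      · rw [Pi.single_eq_same, C_1, one_mul]
      · intro j _ hj
        rw [Pi.single_eq_of_ne hj, C_0, zero_mul]
      · intro h; exact absurd (Finset.mem_univ i) h
    · refine Finset.sum_congr rfl fun k _ => ?_
      ring
  rw [hG0] at h5
  exact (sub_eq_zero.1 h5.symm)

theorem red_inv {n m : ℕ} (f : MvPolynomial (Fin n ⊕ Fin m) K) (u w : Fin m → K)
    (hw : u = 0 ∨ ∑ i, u i * w i = 1) (g : MvPolynomial (Fin n ⊕ Fin m) K)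
    (hkey : ∀ i, pderiv (Sum.inr i : Fin n ⊕ Fin m) f = C (u i) * g)
    (x' : Fin n → ℂ) (y' : Fin m → ℂ) : aeval (Sum.elim x' y') f =
      aeval (Sum.elim x' fun i => (∑ k, algebraMap K ℂ (u k) * y' k) * algebraMap K ℂ (w i)) f := by
  classical
  rw [← eval_map_K, ← eval_map_K]
  set T := ∑ k, algebraMap K ℂ (u k) * y' k with hT
  have h1 := line_const (map (algebraMap K ℂ) f)
    (Sum.elim x' fun i => T * algebraMap K ℂ (w i))
    (Sum.elim (fun _ => 0) fun i => y' i - T * algebraMap K ℂ (w i)) (by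
    intro t
    rw [Fintype.sum_sum_type]
    simp only [Sum.elim_inl, Sum.elim_inr, zero_mul, Finset.sum_const_zero, zero_add]
    have h2 : ∀ i, pderiv (Sum.inr i : Fin n ⊕ Fin m) (map (algebraMap K ℂ) f) =
        C (algebraMap K ℂ (u i)) * map (algebraMap K ℂ) g := by
      intro i
      rw [pderiv_map, hkey, map_mul, map_C]
    simp only [h2, map_mul, eval_C]
    have h3 : ∀ q : ℂ, ∑ i, (y' i - T * algebraMap K ℂ (w i)) * (algebraMap K ℂ (u i) * q) =
        (T - T * algebraMap K ℂ (∑ i, u i * w i)) * q := by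
      intro q
      have h4 : ∑ i, (y' i - T * algebraMap K ℂ (w i)) * (algebraMap K ℂ (u i) * q) =
          (∑ i, algebraMap K ℂ (u i) * y' i) * q -
          T * (∑ i, algebraMap K ℂ (u i) * algebraMap K ℂ (w i)) * q := by
        rw [Finset.sum_mul, Finset.mul_sum, Finset.sum_mul, ← Finset.sum_sub_distrib]
        refine Finset.sum_congr rfl fun i _ => ?_
        ring
      rw [h4, ← hT, map_sum]
      simp only [map_mul]
      ring
    rw [h3]
    rcases hw with hw | hw
    · have h4 : T = 0 := by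
        rw [hT, hw]
        refine Finset.sum_eq_zero fun i _ => ?_
        rw [Pi.zero_apply, map_zero, zero_mul]
      rw [h4, zero_mul, sub_zero, zero_mul]
    · rw [hw, map_one, mul_one, sub_self, zero_mul])
  rw [← h1]
  congr 2
  funext i
  cases i with
  | inl i => simp only [Sum.elim_inl, add_zero]
  | inr i => simp only [Sum.elim_inr]; ring

theorem red_zero {n m D : ℕ} (x : Fin n → ℂ) (y : Fin m → ℂ)
    (f : MvPolynomial (Fin n ⊕ Fin m) K) (hf0 : f ≠ 0) (hfD : f.totalDegree ≤ D)
    (hf : aeval (Sum.elim x y) f = 0)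
    (hinv : ∀ (x' : Fin n → ℂ) (y' : Fin m → ℂ), aeval (Sum.elim x' y') f =
      aeval (Sum.elim x' fun _ => 0) f) : RlK K D x := by
  classical
  have hcomp : ∀ x' : Fin n → ℂ, aeval x' (aeval (Sum.elim X fun _ => 0 :
      Fin n ⊕ Fin m → MvPolynomial (Fin n) K) f) = aeval (Sum.elim x' fun _ => 0) f := by
    intro x'
    rw [← AlgHom.comp_apply, comp_aeval]
    congr 2
    funext i
    cases i with
    | inl i => simp only [Sum.elim_inl, aeval_X]
    | inr i => simp only [Sum.elim_inr, map_zero]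
  refine ⟨aeval (Sum.elim X fun _ => 0) f, ?_, ?_, ?_⟩
  · intro h0
    apply hf0
    apply map_injective (algebraMap K ℂ) (algebraMap K ℂ).injective
    rw [map_zero]
    apply MvPolynomial.funext
    intro z
    have h1 : z = Sum.elim (z ∘ Sum.inl) (z ∘ Sum.inr) := by
      funext i
      cases i <;> rfl
    rw [h1, eval_map_K, hinv, map_zero, ← hcomp, h0, map_zero]
  · refine (Pool.Agent.H297R2.totalDegree_subst_le _ (fun i => ?_) f).trans hfD
    cases i with
    | inl i =>
      simp only [Sum.elim_inl]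
      exact (totalDegree_X _).le
    | inr i =>
      simp only [Sum.elim_inr, totalDegree_zero]
      exact Nat.zero_le _
  · rw [hcomp, ← hinv x y, hf]

theorem red_one {n m D : ℕ} (x : Fin n → ℂ) (y : Fin m → ℂ)
    (f : MvPolynomial (Fin n ⊕ Fin m) K) (hf0 : f ≠ 0) (hfD : f.totalDegree ≤ D)
    (hf : aeval (Sum.elim x y) f = 0) (u w : Fin m → K)
    (hinv : ∀ (x' : Fin n → ℂ) (y' : Fin m → ℂ), aeval (Sum.elim x' y') f =
      aeval (Sum.elim x' fun i => (∑ k, algebraMap K ℂ (u k) * y' k) * algebraMap K ℂ (w i)) f) :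
    RlK K D (Sum.elim x (fun _ : Fin 1 => ∑ i, algebraMap K ℂ (u i) * y i)) := by
  classical
  have hcomp : ∀ (x' : Fin n → ℂ) (T : ℂ), aeval (Sum.elim x' fun _ : Fin 1 => T)
      (aeval (Sum.elim (fun i => X (Sum.inl i)) fun i => X (Sum.inr 0) * C (w i) :
      Fin n ⊕ Fin m → MvPolynomial (Fin n ⊕ Fin 1) K) f) =
      aeval (Sum.elim x' fun i => T * algebraMap K ℂ (w i)) f := by
    intro x' T
    rw [← AlgHom.comp_apply, comp_aeval]
    congr 2
    funext i
    cases i with
    | inl i => simp only [Sum.elim_inl, aeval_X]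
    | inr i => simp only [Sum.elim_inr, map_mul, aeval_X, algHom_C]
  refine ⟨aeval (Sum.elim (fun i => X (Sum.inl i)) fun i => X (Sum.inr 0) * C (w i)) f,
    ?_, ?_, ?_⟩
  · intro h0
    apply hf0
    apply map_injective (algebraMap K ℂ) (algebraMap K ℂ).injective
    rw [map_zero]
    apply MvPolynomial.funext
    intro z
    have h1 : z = Sum.elim (z ∘ Sum.inl) (z ∘ Sum.inr) := by
      funext i
      cases i <;> rfl
    rw [h1, eval_map_K, hinv, map_zero, ← hcomp, h0, map_zero]
  · refine (Pool.Agent.H297R2.totalDegree_subst_le _ (fun i => ?_) f).trans hfD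
    cases i with
    | inl i =>
      simp only [Sum.elim_inl]
      exact (totalDegree_X _).le
    | inr i =>
      simp only [Sum.elim_inr]
      refine (totalDegree_mul _ _).trans ?_
      rw [totalDegree_C, add_zero]
      exact (totalDegree_X _).le
  · rw [hcomp, ← hinv x y, hf]

/-- **Relations of minimal degree which are invariant in many directions.** -/
theorem red {n m D : ℕ} (x : Fin n → ℂ) (y : Fin m → ℂ) (f : MvPolynomial (Fin n ⊕ Fin m) K)
    (hf0 : f ≠ 0) (hfD : f.totalDegree ≤ D) (hf : aeval (Sum.elim x y) f = 0)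
    (hmin : ∀ g : MvPolynomial (Fin n ⊕ Fin m) K, g ≠ 0 → aeval (Sum.elim x y) g = 0 →
      f.totalDegree ≤ g.totalDegree) (u : Fin m → K)
    (hu : ∀ v : Fin m → K, ∑ i, u i * v i = 0 →
      ∑ i, algebraMap K ℂ (v i) * aeval (Sum.elim x y) (pderiv (Sum.inr i) f) = 0) :
    (u = 0 → RlK K D x) ∧
      (u ≠ 0 → RlK K D (Sum.elim x (fun _ : Fin 1 => ∑ i, algebraMap K ℂ (u i) * y i))) := by
  obtain ⟨w, hw⟩ := exists_w u
  have hkey := red_key x y f hmin u w hw hu
  have hinv := red_inv f u w hw _ hkey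
  constructor
  · intro hu0
    refine red_zero x y f hf0 hfD hf fun x' y' => ?_
    rw [hinv x' y']
    have hT : ∑ k, algebraMap K ℂ (u k) * y' k = 0 := by
      refine Finset.sum_eq_zero fun k _ => ?_
      rw [hu0, Pi.zero_apply, map_zero, zero_mul]
    rw [hT]
    simp only [zero_mul]
  · intro _
    exact red_one x y f hf0 hfD hf u w hinv

end Pool.Agent.TH519.HS
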