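import Mathlib

/-!
# Relations of minimal degree
-/

set_option autoImplicit false

namespace Pool.Agent.TH519.HS

open MvPolynomial

/-- directional derivatives have smaller degree -/
theorem deg_drop {σ K : Type} [Fintype σ] [Field K] (f : MvPolynomial σ K) (v : σ → K)
    (hg : ∑ i, C (v i) * pderiv i f ≠ 0) :
    (∑ i, C (v i) * pderiv i f).totalDegree < f.totalDegree := by
  classical
  set g := ∑ i, C (v i) * pderiv i f with hgdef
  have h1 : ∀ s ∈ g.support, (s.sum fun _ e => e) + 1 ≤ f.totalDegree := by
    intro s hs
    rw [mem_support_iff, hgdef, coeff_sum] at hs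
    obtain ⟨i, -, hi⟩ := Finset.exists_ne_zero_of_sum_ne_zero hs
    rw [coeff_C_mul, coeff_pderiv] at hi
    have h2 : coeff (s + Finsupp.single i 1) f ≠ 0 :=
      left_ne_zero_of_mul (right_ne_zero_of_mul hi)
    have h3 := le_totalDegree (mem_support_iff.2 h2)
    have h4 : ((s + Finsupp.single i 1).sum fun _ e => e) = (s.sum fun _ e => e) + 1 := by
      rw [Finsupp.sum_add_index' (fun _ => rfl) (fun _ _ _ => rfl),
        Finsupp.sum_single_index rfl]
    rwa [h4] at h3
  obtain ⟨s, hs⟩ : g.support.Nonempty := by
    rw [Finset.nonempty_iff_ne_empty]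
    intro h
    exact hg (MvPolynomial.support_eq_empty.1 h)
  have h5 : g.totalDegree ≤ f.totalDegree - 1 := by
    refine Finset.sup_le fun s hs => ?_
    have := h1 s hs
    omega
  have := h1 s hs
  omega

/-- polynomials are constant along lines on which the derivative vanishes -/
theorem line_const {σ : Type} [Fintype σ] (f : MvPolynomial σ ℂ) (y z : σ → ℂ)
    (h : ∀ t : ℂ, ∑ i, z i * eval (fun i => y i + t * z i) (pderiv i f) = 0) :
    eval (fun i => y i + z i) f = eval y f := by
  classical
  let G : σ → Polynomial ℂ := fun i => Polynomial.C (y i) + Polynomial.X * Polynomial.C (z i)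
  have heval : ∀ (f : MvPolynomial σ ℂ) (t : ℂ), (aeval G f).eval t =
      eval (fun i => y i + t * z i) f := by
    intro f t
    induction f using MvPolynomial.induction_on with
    | C a =>
      rw [algHom_C, eval_C]
      change (Polynomial.C a).eval t = a
      rw [Polynomial.eval_C]
    | add p q hp hq => rw [map_add, Polynomial.eval_add, hp, hq, map_add]
    | mul_X p n hp =>
      rw [map_mul, Polynomial.eval_mul, hp, aeval_X, map_mul, eval_X]
      congr 1
      simp only [G, Polynomial.eval_add, Polynomial.eval_mul, Polynomial.eval_C,
        Polynomial.eval_X]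
  have hder : ∀ f : MvPolynomial σ ℂ, Polynomial.derivative (aeval G f) =
      ∑ i, aeval G (pderiv i f) * Polynomial.C (z i) := by
    intro f
    induction f using MvPolynomial.induction_on with
    | C a =>
      rw [algHom_C]
      simp only [pderiv_C, map_zero, zero_mul, Finset.sum_const_zero]
      exact Polynomial.derivative_C
    | add p q hp hq =>
      simp only [map_add, hp, hq, add_mul, Finset.sum_add_distrib]
    | mul_X p n hp =>
      have e3 : ∀ i, aeval G (pderiv i (p * X n)) =
          aeval G p * (if n = i then 1 else 0) + G n * aeval G (pderiv i p) := by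
        intro i
        rw [Derivation.leibniz, map_add, smul_eq_mul, smul_eq_mul, map_mul, map_mul,
          aeval_X, pderiv_X, Pi.single_apply]
        split_ifs with h1
        · rw [map_one]
        · rw [map_zero]
      have e4 : Polynomial.derivative (G n) = Polynomial.C (z n) := by
        simp only [G, Polynomial.derivative_add, Polynomial.derivative_C,
          Polynomial.derivative_mul, Polynomial.derivative_X, one_mul, mul_zero, add_zero,
          zero_add]
      rw [map_mul, aeval_X, Polynomial.derivative_mul, hp, e4]
      simp only [e3, add_mul, Finset.sum_add_distrib]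
      rw [add_comm]
      congr 1
      · rw [Finset.sum_eq_single n]
        · rw [if_pos rfl, mul_one]
        · intro i _ hi
          rw [if_neg (Ne.symm hi), mul_zero, zero_mul]
        · intro h; exact absurd (Finset.mem_univ n) h
      · rw [Finset.sum_mul]
        refine Finset.sum_congr rfl fun i _ => ?_
        ring
  have h1 : Polynomial.derivative (aeval G f) = 0 := by
    apply Polynomial.funext
    intro t
    rw [hder, Polynomial.eval_finsetSum, Polynomial.eval_zero, ← h t]
    refine Finset.sum_congr rfl fun i _ => ?_
    rw [Polynomial.eval_mul, Polynomial.eval_C, heval, mul_comm]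
  have h2 := Polynomial.derivative_eq_zero.1 h1
  have h3 := Polynomial.eq_C_of_natDegree_eq_zero h2
  have h4 := heval f 1
  have h5 := heval f 0
  rw [h3, Polynomial.eval_C] at h4 h5
  simp only [one_mul] at h4
  simp only [zero_mul, add_zero] at h5
  rw [← h4, ← h5]

end Pool.Agent.TH519.HS
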