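import Pool.Agent.TH519.HS.Bil
import Pool.Agent.TH519.HS.Rk

/-!
# The data of a singular matrix with independent rows and columns
-/

set_option autoImplicit false

namespace Pool.Agent.TH519.HS

open Filter Module Pool.Agent.TH519.GL Pool.Agent.TH519.FE
open Pool.Agent.H301R2.SSE (QB mem_QB Lt Lt_log)

theorem int_QB (z : ℂ) (h : IsIntegral QB z) : ∃ κ : QB, algebraMap QB ℂ κ = z := by
  have h6 : Algebra.IsAlgebraic ℚ QB := algebraicClosure.isAlgebraic ℚ ℂ
  have h7 : IsAlgebraic ℚ z := IsAlgebraic.restrictScalars ℚ h.isAlgebraic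
  exact ⟨⟨z, mem_QB.2 h7⟩, rfl⟩

theorem relG_eq {n s : ℕ} (c : Fin n → ℂ) (X : Fin s → Fin n → ℂ) :
    RelG (fun (t : Fin s) (p : Fin n × Fin n) => c p.1 * X t p.2) =
      LinearMap.ker (Th (K := QB) c X) := by
  ext V
  rw [mem_RelG, LinearMap.mem_ker]
  constructor
  · intro h
    funext t
    rw [Th_apply]
    exact h t
  · intro h t
    have h1 := congrFun h t
    rw [Th_apply] at h1
    exact h1

/-- **The data of a singular matrix.** -/
theorem sing_data {n : ℕ} (m : Fin n × Fin n → ℂ)
    (hleft : ∃ c : Fin n → ℂ, c ≠ 0 ∧ ∀ j, ∑ i, c i * m (i, j) = 0)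
    (hright : ∃ d : Fin n → ℂ, d ≠ 0 ∧ ∀ i, ∑ j, m (i, j) * d j = 0)
    (hrow : ∀ w : Fin n → QB, (∀ j, ∑ i, (w i : ℂ) * m (i, j) = 0) → w = 0)
    (hcol : ∀ w : Fin n → QB, (∀ i, ∑ j, m (i, j) * (w j : ℂ) = 0) → w = 0) :
    ∃ a : ℕ, a ≤ n ∧ ∃ (g : Fin a × Fin n → QB) (u : Fin a → ℂ)
      (X : Fin (n - a + 1) → Fin n → ℂ), Data a (n - a + 1) m g u X := by
  classical
  obtain ⟨c, hc0, hc⟩ := hleft
  obtain ⟨d, hd0, hd⟩ := hright
  obtain ⟨a, ξ, R, w, hξ, han, hcR, hξw, hfull⟩ := basis_c QB c
  -- a ≥ 2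
  have ha0 : a ≠ 0 := by
    rintro rfl
    apply hc0
    funext i
    rw [hcR, Finset.univ_eq_empty, Finset.sum_empty]
    rfl
  have ha1 : a ≠ 1 := by
    rintro rfl
    have hξ0 : ξ 0 ≠ 0 := hξ.ne_zero 0
    have h1 := hrow (fun i => R i 0) (by
      intro j
      have h2 := hc j
      have h3 : ∑ i, c i * m (i, j) = ξ 0 * ∑ i, (R i 0 : ℂ) * m (i, j) := by
        rw [Finset.mul_sum]
        refine Finset.sum_congr rfl fun i _ => ?_
        rw [hcR i, Fin.sum_univ_one]
        change ((R i 0 : QB) : ℂ) * ξ 0 * m (i, j) = _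
        ring
      rw [h3] at h2
      exact (mul_eq_zero.1 h2).resolve_left hξ0)
    apply hc0
    funext i
    rw [hcR i, Fin.sum_univ_one, congrFun h1 i]
    simp
  rcases Nat.lt_or_ge a n with hlt | hge
  · -- fewer than `n` independent coordinates
    refine ⟨a, han, fun p => R p.2 p.1, ξ, ?_⟩
    have hcsum : ∀ i, ∑ α, ξ α * ((R i α : QB) : ℂ) = c i := by
      intro i
      rw [hcR i]
      refine Finset.sum_congr rfl fun α _ => ?_
      rw [mul_comm]
      rfl
    have hA : ∀ j, ∑ α, ξ α * ∑ i, ((R i α : QB) : ℂ) * m (i, j) = 0 := by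
      intro j
      rw [← hc j]
      simp only [Finset.mul_sum]
      rw [Finset.sum_comm]
      refine Finset.sum_congr rfl fun i _ => ?_
      rw [← hcsum i, Finset.sum_mul]
      refine Finset.sum_congr rfl fun α _ => ?_
      ring
    have hξ0 : ξ ≠ 0 := by
      intro h
      exact hξ.ne_zero ⟨0, by omega⟩ (congrFun h _)
    obtain ⟨X, hX1, hX2⟩ := ker_X (fun α j => ∑ i, ((R i α : QB) : ℂ) * m (i, j)) ξ hξ0 han hA
    refine ⟨X, ?_, ?_, ?_⟩
    · intro j
      rw [← hA j]
      refine Finset.sum_congr rfl fun α _ => ?_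
      rw [Finset.mul_sum]
      refine Finset.sum_congr rfl fun i _ => ?_
      rw [mul_assoc]
    · intro t α
      rw [← hX2 t α, Finset.sum_comm]
      refine Finset.sum_congr rfl fun j _ => ?_
      rw [Finset.sum_mul]
    · have h1 := rank_A (K := QB) c ξ w hξ hξw X hX1
      have h2 : (fun (t : Fin (n - a + 1)) (p : Fin n × Fin n) =>
          (∑ α, ξ α * ((R p.1 α : QB) : ℂ)) * X t p.2) =
          fun (t : Fin (n - a + 1)) (p : Fin n × Fin n) => c p.1 * X t p.2 := by
        funext t p
        rw [hcsum]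
      change finrank QB (RelG (fun (t : Fin (n - a + 1)) (p : Fin n × Fin n) =>
          (∑ α, ξ α * ((R p.1 α : QB) : ℂ)) * X t p.2)) + (n + 1) ≤ n * n
      rw [h2, relG_eq]
      have h3 : n + 1 ≤ a * (n - a + 1) := by
        obtain ⟨k, rfl⟩ : ∃ k, n = a + k := ⟨n - a, by omega⟩
        have hk : 1 ≤ k := by omega
        have ha2 : 2 ≤ a := by omega
        rw [Nat.add_sub_cancel_left]
        nlinarith
      omega
  · -- independent coordinates
    have hn : a = n := le_antisymm han hge
    subst hn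
    have hcli := hfull rfl
    have hs : a - a + 1 = 1 := by omega
    refine ⟨a, le_rfl, fun p => if p.1 = p.2 then 1 else 0, c, ?_⟩
    rw [hs]
    have hδ : ∀ (i : Fin a) (f : Fin a → ℂ),
        ∑ α, f α * (((if α = i then 1 else 0 : QB)) : ℂ) = f i := by
      intro i f
      rw [Finset.sum_eq_single i]
      · rw [if_pos rfl]
        push_cast
        rw [mul_one]
      · intro j _ hj
        rw [if_neg hj]
        push_cast
        rw [mul_zero]
      · intro h; exact absurd (Finset.mem_univ i) h
    refine ⟨fun _ => d, ?_, ?_, ?_⟩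
    · intro j
      rw [← hc j, Finset.sum_comm]
      refine Finset.sum_congr rfl fun i _ => ?_
      rw [← Finset.sum_mul, hδ]
    · intro _ α
      rw [← hd α]
      rw [Finset.sum_eq_single α]
      · refine Finset.sum_congr rfl fun j _ => ?_
        simp only [if_true]
        push_cast
        rw [one_mul]
      · intro i _ hi
        refine Finset.sum_eq_zero fun j _ => ?_
        simp only [if_neg (Ne.symm hi)]
        push_cast
        rw [zero_mul, zero_mul]
      · intro h; exact absurd (Finset.mem_univ α) h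
    · have h1 := rank_B int_QB c d hcli hd0 (by
        intro z v hv
        have hz : z ≠ 0 := by
          rintro rfl
          apply hd0
          funext j
          rw [hv j, zero_mul]
          rfl
        have h2 := hcol v (by
          intro i
          have h3 := hd i
          have h4 : ∑ j, m (i, j) * d j = z * ∑ j, m (i, j) * (v j : ℂ) := by
            rw [Finset.mul_sum]
            refine Finset.sum_congr rfl fun j _ => ?_
            rw [hv j]
            change _ * (z * (v j : ℂ)) = _
            ring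
          rw [h4] at h3
          exact (mul_eq_zero.1 h3).resolve_left hz)
        funext j
        rw [hv j, congrFun h2 j]
        simp)
      have h2 : (fun (t : Fin 1) (p : Fin a × Fin a) =>
          (∑ α, c α * (((if α = p.1 then 1 else 0 : QB)) : ℂ)) * d p.2) =
          fun (t : Fin 1) (p : Fin a × Fin a) => c p.1 * d p.2 := by
        funext t p
        rw [hδ]
      change finrank QB (RelG (fun (t : Fin 1) (p : Fin a × Fin a) =>
          (∑ α, c α * (((if α = p.1 then 1 else 0 : QB)) : ℂ)) * d p.2)) + (a + 1) ≤ a * a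
      rw [h2, relG_eq c (fun (_ : Fin 1) => d)]
      omega

end Pool.Agent.TH519.HS
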