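import Pool.Agent.TH519.HS.SgF

/-!
# Counting singular matrices of logarithms
-/

set_option autoImplicit false

namespace Pool.Agent.TH519.HS

open Filter Module Pool.Agent.TH519.GL Pool.Agent.TH519.FE
open Pool.Agent.H301R2.SSE (QB mem_QB Lt Lt_log)

/-- rational solutions from algebraic solutions -/
theorem descend {n : ℕ} {J : Type} (B : Fin n → J → ℤ) (w : Fin n → QB) (hw : w ≠ 0)
    (h : ∀ r, ∑ i, w i * (B i r : QB) = 0) :
    ∃ w' : Fin n → ℚ, w' ≠ 0 ∧ ∀ r, ∑ i, w' i * (B i r : ℚ) = 0 := by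
  obtain ⟨i₀, hi₀⟩ : ∃ i, w i ≠ 0 := by
    by_contra h'
    push Not at h'
    exact hw (funext h')
  obtain ⟨ψ, hψ⟩ : ∃ ψ : QB →ₗ[ℚ] ℚ, ψ (w i₀) ≠ 0 := by
    by_contra h'
    push Not at h'
    exact hi₀ ((Module.forall_dual_apply_eq_zero_iff ℚ (w i₀)).1 h')
  refine ⟨fun i => ψ (w i), fun h' => hψ (congrFun h' i₀), fun r => ?_⟩
  have h1 := congrArg ψ (h r)
  rw [map_zero, map_sum] at h1
  rw [← h1]
  refine Finset.sum_congr rfl fun i _ => ?_
  have h2 : w i * (B i r : QB) = (B i r : ℤ) • w i := by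
    rw [zsmul_eq_mul, mul_comm]
  rw [h2, map_zsmul, zsmul_eq_mul, mul_comm]

theorem zero_of_sum {N n : ℕ} {l : Fin N → ℂ} (hl : LinearIndependent QB l)
    (w : Fin n → QB) (B : Fin n → Fin N → ℤ)
    (h : ∑ i, (w i : ℂ) * ∑ k, (B i k : ℂ) * l k = 0) (k : Fin N) :
    ∑ i, w i * (B i k : QB) = 0 := by
  rw [Fintype.linearIndependent_iff] at hl
  refine hl (fun k => ∑ i, w i * (B i k : QB)) ?_ k
  rw [← h]
  simp only [Finset.mul_sum]
  rw [Finset.sum_comm]
  refine Finset.sum_congr rfl fun k _ => ?_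
  rw [Algebra.smul_def, map_sum, Finset.sum_mul]
  refine Finset.sum_congr rfl fun i _ => ?_
  rw [map_mul, map_intCast]
  change (w i : ℂ) * _ * _ = _
  ring

theorem sum_of_zero {N n : ℕ} (l : Fin N → ℂ) (w : Fin n → ℚ) (B : Fin n → Fin N → ℤ)
    (h : ∀ k, ∑ i, w i * (B i k : ℚ) = 0) :
    ∑ i, (w i : ℂ) * ∑ k, (B i k : ℂ) * l k = 0 := by
  simp only [Finset.mul_sum]
  rw [Finset.sum_comm]
  refine Finset.sum_eq_zero fun k _ => ?_
  have h1 : ∑ i, (w i : ℂ) * ((B i k : ℂ) * l k) = ((∑ i, w i * (B i k : ℚ) : ℚ) : ℂ) * l k := by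
    push_cast
    rw [Finset.sum_mul]
    refine Finset.sum_congr rfl fun i _ => ?_
    ring
  rw [h1, h k]
  simp

theorem ind_singInd {N n : ℕ} {l : Fin N → ℂ} (hl : LinearIndependent QB l)
    (A : Fin n → Fin n → Fin N → ℤ)
    (hdet : (Matrix.of fun i j => ∑ k, (A i j k : ℂ) * l k).det = 0)
    (hrow : LinearIndependent ℚ fun i j => ∑ k, (A i j k : ℂ) * l k)
    (hcol : LinearIndependent ℚ fun j i => ∑ k, (A i j k : ℂ) * l k) :
    SingInd (fun p : Fin n × Fin n => ∑ k, (A p.1 p.2 k : ℂ) * l k) := by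
  classical
  rw [Fintype.linearIndependent_iff] at hrow hcol
  refine ⟨hdet, fun w hw => ?_, fun w hw => ?_⟩
  · by_contra hw0
    obtain ⟨w', hw'0, hw'⟩ := descend (J := Fin n × Fin N) (fun i r => A i r.1 r.2) w hw0 (by
      rintro ⟨j, k⟩
      exact zero_of_sum hl w (fun i k => A i j k) (hw j) k)
    apply hw'0
    funext i
    refine hrow w' ?_ i
    funext j
    rw [Finset.sum_apply]
    have h1 := sum_of_zero l w' (fun i k => A i j k) fun k => hw' (j, k)
    change _ = (0 : ℂ)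
    rw [← h1]
    refine Finset.sum_congr rfl fun i _ => ?_
    rw [Pi.smul_apply, Rat.smul_def]
  · by_contra hw0
    have hw2 : ∀ i, ∑ j, (w j : ℂ) * ∑ k, (A i j k : ℂ) * l k = 0 := by
      intro i
      rw [← hw i]
      refine Finset.sum_congr rfl fun j _ => ?_
      rw [mul_comm]
    obtain ⟨w', hw'0, hw'⟩ := descend (J := Fin n × Fin N) (fun j r => A r.1 j r.2) w hw0 (by
      rintro ⟨i, k⟩
      exact zero_of_sum hl w (fun j k => A i j k) (hw2 i) k)
    apply hw'0
    funext j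
    refine hcol w' ?_ j
    funext i
    rw [Finset.sum_apply]
    have h1 := sum_of_zero l w' (fun j k => A i j k) fun k => hw' (i, k)
    change _ = (0 : ℂ)
    rw [← h1]
    refine Finset.sum_congr rfl fun j _ => ?_
    rw [Pi.smul_apply, Rat.smul_def]

/-- the box -/
noncomputable def box (a n N H : ℕ) : Finset (Fin a → Fin n → Fin N → ℤ) :=
  Fintype.piFinset fun _ => Fintype.piFinset fun _ => Fintype.piFinset fun _ =>
    Finset.Icc (-(H : ℤ)) H

theorem mem_box {a n N H : ℕ} {A : Fin a → Fin n → Fin N → ℤ} :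
    A ∈ box a n N H ↔ ∀ i j k, |A i j k| ≤ H := by
  simp only [box, Fintype.mem_piFinset, Finset.mem_Icc, ← abs_le]

theorem card_box {a n N H : ℕ} : H ^ (a * n * N) ≤ (box a n N H).card := by
  rw [box]
  simp only [Fintype.card_piFinset, Int.card_Icc, Finset.prod_const, Finset.card_univ,
    Fintype.card_fin]
  have h1 : ((H : ℤ) + 1 - -(H : ℤ)).toNat = 2 * H + 1 := by
    have h3 : (H : ℤ) + 1 - -(H : ℤ) = ((2 * H + 1 : ℕ) : ℤ) := by
      push_cast
      ring
    rw [h3, Int.toNat_natCast]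
  rw [h1, ← pow_mul, ← pow_mul]
  have h2 : a * n * N = N * (n * a) := by ring
  have h4 : H ≤ 2 * H + 1 := by omega
  rw [h2]
  exact Nat.pow_le_pow_left h4 _

theorem sing_finite {n N : ℕ} (H : ℕ) (Q : (Fin n → Fin n → Fin N → ℤ) → Prop) :
    {A : Fin n → Fin n → Fin N → ℤ | (∀ i j k, |A i j k| ≤ H) ∧ Q A}.Finite := by
  refine (Finset.finite_toSet (box n n N H)).subset fun A hA => ?_
  rw [Finset.mem_coe, mem_box]
  exact hA.1

theorem sing_lower {n N : ℕ} (hn : 1 ≤ n) (l : Fin N → ℂ) (H : ℕ) :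
    H ^ ((n - 1) * n * N) ≤ Set.ncard {A : Fin n → Fin n → Fin N → ℤ |
      (∀ i j k, |A i j k| ≤ H) ∧
      (Matrix.of fun i j => ∑ k, (A i j k : ℂ) * l k).det = 0} := by
  classical
  obtain ⟨m, rfl⟩ : ∃ m, n = m + 1 := ⟨n - 1, by omega⟩
  rw [Nat.add_sub_cancel]
  let g : (Fin m → Fin (m + 1) → Fin N → ℤ) → (Fin (m + 1) → Fin (m + 1) → Fin N → ℤ) :=
    fun B => Fin.cons (fun _ _ => 0) B
  have hg : Function.Injective g := by
    intro B B' h
    funext i
    have := congrFun h i.succ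
    simp only [g, Fin.cons_succ] at this
    exact this
  refine card_box.trans ?_
  rw [← Finset.card_image_of_injective _ hg, ← Set.ncard_coe_finset]
  refine Set.ncard_le_ncard ?_ (sing_finite H _)
  intro A hA
  rw [Finset.mem_coe, Finset.mem_image] at hA
  obtain ⟨B, hB, rfl⟩ := hA
  rw [mem_box] at hB
  refine ⟨fun i => ?_, ?_⟩
  · refine Fin.cases ?_ (fun i => ?_) i
    · intro j k
      simp only [g, Fin.cons_zero, abs_zero]
      exact Int.natCast_nonneg H
    · intro j k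
      simp only [g, Fin.cons_succ]
      exact hB i j k
  · apply Matrix.det_eq_zero_of_row_eq_zero 0
    intro j
    simp only [Matrix.of_apply, g, Fin.cons_zero, Int.cast_zero, zero_mul, Finset.sum_const_zero]

/-- **Almost all singular matrices.** -/
theorem almost_all {n N : ℕ} (hn : 2 ≤ n) (hMn : n * n + n ≤ N) (l : Fin N → ℂ)
    (halg : ∀ j, IsAlgebraic ℚ (Complex.exp (l j))) (hli : LinearIndependent ℚ l) :
    ∃ κ : ℕ, ∀ H : ℕ, 1 ≤ H →
      Set.ncard {A : Fin n → Fin n → Fin N → ℤ | (∀ i j k, |A i j k| ≤ H) ∧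
        (Matrix.of fun i j => ∑ k, (A i j k : ℂ) * l k).det = 0 ∧
        (LinearIndependent ℚ fun i j => ∑ k, (A i j k : ℂ) * l k) ∧
        LinearIndependent ℚ fun j i => ∑ k, (A i j k : ℂ) * l k} * H ^ N ≤
      κ * H ^ (n * (2 * n + 1)) * Set.ncard {A : Fin n → Fin n → Fin N → ℤ | (∀ i j k, |A i j k| ≤ H) ∧
        (Matrix.of fun i j => ∑ k, (A i j k : ℂ) * l k).det = 0} := by
  classical
  have hl : LinearIndependent QB l := by
    have h2 := li_cons l halg hli
    have h3 := h2.comp Fin.succ (Fin.succ_injective N)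
    have h4 : (Fin.cons 1 l : Fin (N + 1) → ℂ) ∘ Fin.succ = l := by
      funext i
      rw [Function.comp_apply, Fin.cons_succ]
    rwa [h4] at h3
  let S : Set ((Fin n × Fin n) × Fin N → QB) :=
    {x | SingInd (fun p => cmb l (fun k => x (p, k)))}
  obtain ⟨κ, hκ⟩ := count_gen (d := n * (2 * n + 1) + (n * n - (n + 1)) * N) S (by
    intro φ
    obtain ⟨P, h1, h2⟩ := sing_coord (n := n) l hl (fun j => Lt_log (halg j)) hMn rfl φ
    refine ⟨P, h1, fun x hx => ?_⟩
    exact h2 (fun p k => x (p, k)) hx)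
  refine ⟨κ, fun H hH => ?_⟩
  set T := {A : Fin n → Fin n → Fin N → ℤ | (∀ i j k, |A i j k| ≤ H) ∧
        (Matrix.of fun i j => ∑ k, (A i j k : ℂ) * l k).det = 0 ∧
        (LinearIndependent ℚ fun i j => ∑ k, (A i j k : ℂ) * l k) ∧
        LinearIndependent ℚ fun j i => ∑ k, (A i j k : ℂ) * l k} with hT
  have hfin : T.Finite := sing_finite H _
  have h1 : T.ncard ≤ κ * H ^ (n * (2 * n + 1) + (n * n - (n + 1)) * N) := by
    rw [Set.ncard_eq_toFinset_card T hfin]
    let g : (Fin n → Fin n → Fin N → ℤ) → ((Fin n × Fin n) × Fin N → ℤ) :=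
      fun A p => A p.1.1 p.1.2 p.2
    have hg : Function.Injective g := by
      intro A A' h
      funext i j k
      exact congrFun h ((i, j), k)
    rw [← Finset.card_image_of_injective _ hg]
    refine hκ H hH _ ?_
    intro a ha
    obtain ⟨A, hA, rfl⟩ := Finset.mem_image.1 ha
    rw [Set.Finite.mem_toFinset] at hA
    obtain ⟨hA1, hA2, hA3, hA4⟩ := hA
    refine ⟨fun p => hA1 _ _ _, ?_⟩
    have h2 := ind_singInd hl A hA2 hA3 hA4
    change SingInd (fun p : Fin n × Fin n => cmb l (fun k => ((g A (p, k) : ℤ) : QB)))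
    have h3 : (fun p : Fin n × Fin n => cmb l (fun k => ((g A (p, k) : ℤ) : QB))) =
        fun p => ∑ k, (A p.1 p.2 k : ℂ) * l k := by
      funext p
      simp only [cmb, g]
      refine Finset.sum_congr rfl fun k _ => ?_
      rw [map_intCast]
    rw [h3]
    exact h2
  have h2 := sing_lower (n := n) (N := N) (by omega) l H
  have h3 : n * (2 * n + 1) + (n * n - (n + 1)) * N + N =
      n * (2 * n + 1) + (n - 1) * n * N := by
    obtain ⟨m, rfl⟩ : ∃ m, n = m + 2 := ⟨n - 2, by omega⟩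
    have e1 : (m + 2) * (m + 2) - (m + 2 + 1) = m * m + 3 * m + 1 := by
      have : (m + 2) * (m + 2) = m * m + 3 * m + 1 + (m + 2 + 1) := by ring
      omega
    have e2 : m + 2 - 1 = m + 1 := by omega
    rw [e1, e2]
    ring
  calc T.ncard * H ^ N ≤ κ * H ^ (n * (2 * n + 1) + (n * n - (n + 1)) * N) * H ^ N :=
        Nat.mul_le_mul_right _ h1
    _ = κ * H ^ (n * (2 * n + 1)) * H ^ ((n - 1) * n * N) := by
        rw [mul_assoc, ← pow_add, h3, pow_add, ← mul_assoc]
    _ ≤ _ := Nat.mul_le_mul_left _ h2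

end Pool.Agent.TH519.HS
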