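import Mathlib

/-!
# Isotropic families of skew-symmetric matrices of size four
-/

set_option autoImplicit false

namespace Pool.Agent.TH519.HS

variable {F : Type} [Field F]

/-- the skew-symmetric matrix -/
def sk (x : Fin 6 → F) : Matrix (Fin 4) (Fin 4) F :=
  !![0, x 0, x 1, x 2; -x 0, 0, x 3, x 4; -x 1, -x 3, 0, x 5; -x 2, -x 4, -x 5, 0]

/-- the dual matrix -/
def st (x : Fin 6 → F) : Fin 6 → F := ![x 5, -x 4, x 3, x 2, -x 1, x 0]

/-- the polarised Pfaffian -/
def pf (x y : Fin 6 → F) : F :=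
  x 0 * y 5 + x 5 * y 0 - x 1 * y 4 - x 4 * y 1 + x 2 * y 3 + x 3 * y 2

/-- the coordinates of a bivector -/
def wd (u v : Fin 4 → F) : Fin 6 → F :=
  ![u 0 * v 1 - u 1 * v 0, u 0 * v 2 - u 2 * v 0, u 0 * v 3 - u 3 * v 0,
    u 1 * v 2 - u 2 * v 1, u 1 * v 3 - u 3 * v 1, u 2 * v 3 - u 3 * v 2]

theorem sk_transpose (x : Fin 6 → F) : (sk x).transpose = -sk x := by
  ext i j
  fin_cases i <;> fin_cases j <;> simp [sk]

theorem st_st (x : Fin 6 → F) : st (st x) = x := by
  funext i
  fin_cases i <;> simp [st]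

theorem sk_st (x y : Fin 6 → F) :
    sk x * sk (st y) + sk y * sk (st x) = -(pf x y) • (1 : Matrix (Fin 4) (Fin 4) F) := by
  ext i j
  fin_cases i <;> fin_cases j <;>
    simp [sk, st, pf] <;> ring

theorem st_sk (x y : Fin 6 → F) :
    sk (st x) * sk y + sk (st y) * sk x = -(pf x y) • (1 : Matrix (Fin 4) (Fin 4) F) := by
  ext i j
  fin_cases i <;> fin_cases j <;>
    simp [sk, st, pf] <;> ring

theorem minors (x : Fin 6 → F) (u v : Fin 4 → F) (r i : Fin 4) :
    2 * (((sk x).mulVec u) r * ((sk x).mulVec v) i - ((sk x).mulVec u) i * ((sk x).mulVec v) r) =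
      2 * (u ⬝ᵥ (sk x).mulVec v) * sk x r i - pf x x * sk (st (wd u v)) r i := by
  fin_cases r <;> fin_cases i <;>
    simp [sk, st, pf, wd, Matrix.mulVec, dotProduct, Fin.sum_univ_four] <;> ring

/-- **Isotropic families.** The lines are concurrent or coplanar. -/
theorem lines {κ : Type} (h2 : (2 : F) ≠ 0) (A : κ → Fin 6 → F)
    (h : ∀ k l, pf (A k) (A l) = 0) :
    ∃ q : Fin 4 → F, q ≠ 0 ∧ ((∀ k, (sk (A k)).mulVec q = 0) ∨
      ∀ k, (sk (st (A k))).mulVec q = 0) := by
  classical
  have hs : ∀ k, sk (A k) * sk (st (A k)) = 0 := by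
    intro k
    have h1 := sk_st (A k) (A k)
    rw [h k k, neg_zero, zero_smul, ← two_smul F] at h1
    exact (smul_eq_zero.1 h1).resolve_left h2
  have hs' : ∀ k, sk (st (A k)) * sk (A k) = 0 := by
    intro k
    have h1 := st_sk (A k) (A k)
    rw [h k k, neg_zero, zero_smul, ← two_smul F] at h1
    exact (smul_eq_zero.1 h1).resolve_left h2
  have hp : ∀ k l, sk (A k) * sk (st (A l)) = -(sk (A l) * sk (st (A k))) := by
    intro k l
    have h1 := sk_st (A k) (A l)
    rw [h k l, neg_zero, zero_smul] at h1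
    exact eq_neg_of_add_eq_zero_left h1
  have hp' : ∀ k l, sk (st (A k)) * sk (A l) = -(sk (st (A l)) * sk (A k)) := by
    intro k l
    have h1 := st_sk (A k) (A l)
    rw [h k l, neg_zero, zero_smul] at h1
    exact eq_neg_of_add_eq_zero_left h1
  by_cases hall : ∀ k l, sk (A k) * sk (st (A l)) = 0
  · by_cases h0 : ∀ l, sk (st (A l)) = 0
    · refine ⟨Pi.single 0 1, ?_, Or.inr fun k => ?_⟩
      · intro h'
        have := congrFun h' 0
        rw [Pi.single_eq_same] at this
        exact one_ne_zero this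
      · rw [h0 k, Matrix.zero_mulVec]
    · push Not at h0
      obtain ⟨l, hl⟩ := h0
      obtain ⟨i, j, hij⟩ : ∃ i j, sk (st (A l)) i j ≠ 0 := by
        by_contra hcon
        push Not at hcon
        exact hl (Matrix.ext hcon)
      refine ⟨(sk (st (A l))).mulVec (Pi.single j 1), ?_, Or.inl fun k => ?_⟩
      · intro h'
        have := congrFun h' i
        rw [Matrix.mulVec_single_one] at this
        exact hij this
      · rw [Matrix.mulVec_mulVec, hall, Matrix.zero_mulVec]
  · push Not at hall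
    obtain ⟨k₀, l₀, hX⟩ := hall
    set X := sk (A k₀) * sk (st (A l₀)) with hXdef
    have hX2 : X = -(sk (A l₀) * sk (st (A k₀))) := hp k₀ l₀
    obtain ⟨r₀, s₀, hrs⟩ : ∃ i j, X i j ≠ 0 := by
      by_contra hcon
      push Not at hcon
      exact hX (Matrix.ext hcon)
    -- rank one
    have hrank : ∀ r s i j, X r s * X i j = X i s * X r j := by
      intro r s i j
      have h3 := minors (A k₀) ((sk (st (A l₀))).mulVec (Pi.single s 1))
        ((sk (st (A l₀))).mulVec (Pi.single j 1)) r i
      rw [h k₀ k₀, zero_mul, sub_zero, Matrix.mulVec_mulVec, Matrix.mulVec_mulVec, ← hXdef] at h3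
      have h4 : (sk (st (A l₀))).mulVec (Pi.single s 1) ⬝ᵥ X.mulVec (Pi.single j 1) = 0 := by
        have hBX : (sk (st (A l₀))).transpose * X = 0 := by
          rw [sk_transpose, hX2, neg_mul_neg, ← mul_assoc, hs' l₀, zero_mul]
        rw [← Matrix.vecMul_transpose, ← Matrix.dotProduct_mulVec, Matrix.mulVec_mulVec, hBX,
          Matrix.zero_mulVec, dotProduct_zero]
      rw [h4, mul_zero, zero_mul] at h3
      have h5 := (mul_eq_zero.1 h3).resolve_left h2
      rw [Matrix.mulVec_single_one, Matrix.mulVec_single_one] at h5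
      exact sub_eq_zero.1 h5
    have hXT : X.transpose = -(sk (st (A k₀)) * sk (A l₀)) := by
      rw [hXdef, Matrix.transpose_mul, sk_transpose, sk_transpose, neg_mul_neg, hp' l₀ k₀]
    have hZ : ∀ k, (sk (st (A k)) * X).transpose = sk (st (A k)) * X := by
      intro k
      rw [Matrix.transpose_mul, sk_transpose, hXT, neg_mul_neg, hXdef, ← mul_assoc, hp' k k₀,
        neg_mul, mul_assoc, mul_assoc, hp k l₀, mul_neg, neg_neg]
    set q : Fin 4 → F := fun i => X i s₀ with hq
    set w : Fin 4 → F := fun j => X r₀ j with hw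
    set c : κ → Fin 4 → F := fun k => (sk (st (A k))).mulVec q with hc
    have hcw : ∀ k i s, (sk (st (A k)) * X) i s * X r₀ s₀ = c k i * w s := by
      intro k i s
      rw [Matrix.mul_apply, Finset.sum_mul]
      change _ = (∑ r, sk (st (A k)) i r * X r s₀) * X r₀ s
      rw [Finset.sum_mul]
      refine Finset.sum_congr rfl fun r _ => ?_
      rw [mul_assoc, hrank r s r₀ s₀]
      ring
    have hpar : ∀ k i, c k i * w s₀ = c k s₀ * w i := by
      intro k i
      rw [← hcw, ← hcw]
      congr 1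
      exact congrFun (congrFun (hZ k) s₀) i
    by_cases hc0 : ∀ k, c k = 0
    · exact ⟨q, fun h' => hrs (congrFun h' r₀), Or.inr hc0⟩
    · push Not at hc0
      obtain ⟨k₁, hk₁⟩ := hc0
      have hlam : ∀ k, (w s₀) • c k = (c k s₀) • w := by
        intro k
        funext i
        rw [Pi.smul_apply, Pi.smul_apply, smul_eq_mul, smul_eq_mul, mul_comm, hpar]
      have hlam1 : c k₁ s₀ ≠ 0 := by
        intro h0
        have h5 := hlam k₁
        rw [h0, zero_smul] at h5
        exact hk₁ ((smul_eq_zero.1 h5).resolve_left hrs)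
      have h6 : (sk (A k₁)).mulVec w = 0 := by
        have h7 : (sk (A k₁)).mulVec (c k₁) = 0 := by
          rw [hc, Matrix.mulVec_mulVec, hs, Matrix.zero_mulVec]
        have h8 := congrArg (fun v => (sk (A k₁)).mulVec v) (hlam k₁)
        simp only [Matrix.mulVec_smul] at h8
        rw [h7, smul_zero] at h8
        exact (smul_eq_zero.1 h8.symm).resolve_left hlam1
      refine ⟨w, fun h' => hrs (congrFun h' s₀), Or.inl fun l => ?_⟩
      have h7 : (sk (A l)).mulVec (c k₁) = -((sk (A k₁)).mulVec (c l)) := by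
        rw [hc, Matrix.mulVec_mulVec, Matrix.mulVec_mulVec, hp l k₁, Matrix.neg_mulVec]
      have h8 : (sk (A k₁)).mulVec (c l) = 0 := by
        have h9 := congrArg (fun v => (sk (A k₁)).mulVec v) (hlam l)
        simp only [Matrix.mulVec_smul] at h9
        rw [h6, smul_zero] at h9
        exact (smul_eq_zero.1 h9).resolve_left hrs
      have h9 := congrArg (fun v => (sk (A l)).mulVec v) (hlam k₁)
      simp only [Matrix.mulVec_smul] at h9
      rw [h7, h8, neg_zero, smul_zero] at h9
      exact (smul_eq_zero.1 h9.symm).resolve_left hlam1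

end Pool.Agent.TH519.HS
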