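import Pool.Agent.TH519.HS.SkF
import Pool.Agent.TH519.HS.SgC

/-!
# Skew-symmetric matrices of logarithms of size four: dimension and counting
-/

set_option autoImplicit false

namespace Pool.Agent.TH519.HS

open Filter Module Pool.Agent.TH519.GL Pool.Agent.TH519.FE
open Pool.Agent.H301R2.SSE (QB mem_QB Lt Lt_log)

theorem not_roy {K : Type} [Field K] [Algebra K ℂ] (h2 : (2 : K) ≠ 0) {M : ℕ}
    (l : Fin M → ℂ) (b : Fin 6 → Fin M → K)
    (h : ¬ Roy K (sk fun i => ∑ k, algebraMap K ℂ (b i k) * l k)) :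
    ∃ k k', pf (fun i => b i k) (fun i => b i k') ≠ 0 := by
  by_contra hcon
  push Not at hcon
  obtain ⟨q, hq, h1⟩ := alt_of_lines h2 (algebraMap K ℂ) l b hcon
  exact h (roy_of_alt _ q hq h1)

/-- the skew-symmetric matrix, linear version -/
def skL (K W : Type) [Field K] [AddCommGroup W] [Module K W] :
    (Fin 6 → W) →ₗ[K] Matrix (Fin 4) (Fin 4) W where
  toFun x := !![0, x 0, x 1, x 2; -x 0, 0, x 3, x 4; -x 1, -x 3, 0, x 5; -x 2, -x 4, -x 5, 0]
  map_add' x y := by
    ext i j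
    fin_cases i <;> fin_cases j <;> simp [add_comm]
  map_smul' c x := by
    ext i j
    fin_cases i <;> fin_cases j <;> simp

theorem skL_eta (W : Submodule QB ℂ) (A : Matrix (Fin 4) (Fin 4) W) (h : A.transpose = -A) :
    skL QB W ![A 0 1, A 0 2, A 0 3, A 1 2, A 1 3, A 2 3] = A := by
  have h1 : ∀ i j, A j i = -A i j := fun i j => congrFun (congrFun h i) j
  have h2 : ∀ i, A i i = 0 := by
    intro i
    have h3 : (A i i : ℂ) = -(A i i : ℂ) := congrArg (fun w : W => (w : ℂ)) (h1 i i)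
    exact Subtype.ext (self_eq_neg.1 h3)
  ext i j
  congr 1
  fin_cases i <;> fin_cases j <;> simp [skL, h2]
  · exact (h1 0 1).symm
  · exact (h1 0 2).symm
  · exact (h1 1 2).symm
  · exact (h1 0 3).symm
  · exact (h1 1 3).symm
  · exact (h1 2 3).symm

/-- **The dimension theorem.** -/
theorem skew_dim (W : Submodule QB ℂ) [FiniteDimensional QB W] (hW : W ≤ Lt)
    (φ : Fin (finrank QB W + 49) → (Matrix (Fin 4) (Fin 4) W →ₗ[QB] QB)) :
    ∃ P : MvPolynomial (Fin (finrank QB W + 49)) QB, P ≠ 0 ∧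
      ∀ A : Matrix (Fin 4) (Fin 4) W, A.transpose = -A →
        (A.map (fun w => (w : ℂ))).rank ≤ 2 → ¬ Roy QB (A.map (fun w => (w : ℂ))) →
        MvPolynomial.eval (fun k => φ k A) P = 0 := by
  let mk : (Fin 6 × Fin (finrank QB W) → QB) →ₗ[QB] (Fin 6 → W) :=
    LinearMap.pi fun i => (Fintype.linearCombination QB (Module.finBasis QB W)) ∘ₗ
      LinearMap.funLeft QB QB (fun k => (i, k))
  obtain ⟨P, h1, h2⟩ := sk_coord (bs W) (bs_li W) (fun j => hW (Module.finBasis QB W j).2) rfl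
    (fun k => φ k ∘ₗ skL QB W ∘ₗ mk)
  refine ⟨P, h1, fun A hA hrank hroy => ?_⟩
  set a : Fin 6 → W := ![A 0 1, A 0 2, A 0 3, A 1 2, A 1 3, A 2 3] with ha
  have h3 : ∀ i, cmb (bs W) (fun k => (Module.finBasis QB W).repr (a i) k) = (a i : ℂ) :=
    fun i => cmb_bs' W (a i)
  have h4 : sk (fun i => (a i : ℂ)) = A.map (fun w => (w : ℂ)) := by
    have h5 := sk_eta (A.map (fun w => (w : ℂ))) (by
      ext i j
      have h6 := congrArg (fun w : W => (w : ℂ)) (congrFun (congrFun hA i) j)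
      exact h6)
    rw [← h5]
    congr 1
    funext i
    fin_cases i <;> rfl
  have h5 := h2 (fun i k => (Module.finBasis QB W).repr (a i) k) (by
    simp only [h3]
    apply pf_of_rank
    rw [h4]
    exact hrank) (by
    apply not_roy (two_ne_zero) (bs W)
    have h6 : (fun i => ∑ k, algebraMap QB ℂ ((Module.finBasis QB W).repr (a i) k) * bs W k) =
        fun i => (a i : ℂ) := by
      funext i
      exact h3 i
    rw [h6, h4]
    exact hroy)
  have h6 : skL QB W (mk fun p => (Module.finBasis QB W).repr (a p.1) p.2) = A := by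
    have h7 : (mk fun p => (Module.finBasis QB W).repr (a p.1) p.2) = a := by
      funext i
      exact (Module.finBasis QB W).sum_repr (a i)
    rw [h7, ha]
    exact skL_eta W A hA
  simp only [LinearMap.comp_apply] at h5
  rw [← h5]
  congr 2
  funext k
  rw [h6]

/-- the matrix with integer coordinates -/
noncomputable def lm {N : ℕ} (l : Fin N → ℂ) (A : Fin 4 → Fin 4 → Fin N → ℤ) :
    Matrix (Fin 4) (Fin 4) ℂ :=
  Matrix.of fun i j => ∑ k, (A i j k : ℂ) * l k

theorem lm_skew {N : ℕ} {l : Fin N → ℂ} (hli : LinearIndependent ℚ l)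
    {A : Fin 4 → Fin 4 → Fin N → ℤ} (h : (lm l A).transpose = -lm l A) (i j : Fin 4)
    (k : Fin N) : A j i k = -A i j k := by
  have h1 : ∑ k, (A j i k : ℂ) * l k = -∑ k, (A i j k : ℂ) * l k :=
    congrFun (congrFun h i) j
  rw [Fintype.linearIndependent_iff] at hli
  have h2 := hli (fun k => ((A j i k + A i j k : ℤ) : ℚ)) (by
    have h3 : ∑ k, (((A j i k + A i j k : ℤ) : ℚ)) • l k =
        ∑ k, (A j i k : ℂ) * l k + ∑ k, (A i j k : ℂ) * l k := by
      rw [← Finset.sum_add_distrib]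
      refine Finset.sum_congr rfl fun k _ => ?_
      rw [Rat.smul_def]
      push_cast
      ring
    rw [h3, h1, neg_add_cancel]) k
  have h3 : A j i k + A i j k = 0 := by exact_mod_cast h2
  omega

/-- the polarised Pfaffian of integer matrices -/
def pfZ (x y : Fin 6 → ℤ) : ℤ :=
  x 0 * y 5 + x 5 * y 0 - x 1 * y 4 - x 4 * y 1 + x 2 * y 3 + x 3 * y 2

/-- rows and columns of the six entries -/
def ri : Fin 6 → Fin 4 := ![0, 0, 0, 1, 1, 2]

/-- rows and columns of the six entries -/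
def ci : Fin 6 → Fin 4 := ![1, 2, 3, 2, 3, 3]

theorem lm_sk {N : ℕ} {l : Fin N → ℂ} {A : Fin 4 → Fin 4 → Fin N → ℤ}
    (h : (lm l A).transpose = -lm l A) :
    sk (fun i => ∑ k, (A (ri i) (ci i) k : ℂ) * l k) = lm l A := by
  rw [← sk_eta _ h]
  congr 1
  funext i
  fin_cases i <;> rfl

/-- **The upper bound.** -/
theorem skew_upper {N : ℕ} (l : Fin N → ℂ) (halg : ∀ j, IsAlgebraic ℚ (Complex.exp (l j)))
    (hli : LinearIndependent ℚ l) :
    ∃ κ : ℕ, ∀ H : ℕ, 1 ≤ H →
      Set.ncard {A : Fin 4 → Fin 4 → Fin N → ℤ | (∀ i j k, |A i j k| ≤ H) ∧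
        (lm l A).transpose = -lm l A ∧ (lm l A).rank ≤ 2 ∧ ¬ Roy ℚ (lm l A)} ≤
      κ * H ^ (N + 48) := by
  classical
  have hl : LinearIndependent QB l := by
    have h2 := li_cons l halg hli
    have h3 := h2.comp Fin.succ (Fin.succ_injective N)
    have h4 : (Fin.cons 1 l : Fin (N + 1) → ℂ) ∘ Fin.succ = l := by
      funext i
      rw [Function.comp_apply, Fin.cons_succ]
    rwa [h4] at h3
  let S : Set (Fin 6 × Fin N → QB) :=
    {x | pf (fun i => cmb l (fun k => x (i, k))) (fun i => cmb l (fun k => x (i, k))) = 0 ∧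
      ∃ k k', pf (fun i => x (i, k)) (fun i => x (i, k')) ≠ 0}
  obtain ⟨κ, hκ⟩ := count_gen (d := N + 48) S (by
    intro φ
    obtain ⟨P, h1, h2⟩ := sk_coord l hl (fun j => Lt_log (halg j)) rfl φ
    refine ⟨P, h1, fun x hx => ?_⟩
    exact h2 (fun p k => x (p, k)) hx.1 hx.2)
  refine ⟨κ, fun H hH => ?_⟩
  set T := {A : Fin 4 → Fin 4 → Fin N → ℤ | (∀ i j k, |A i j k| ≤ H) ∧
        (lm l A).transpose = -lm l A ∧ (lm l A).rank ≤ 2 ∧ ¬ Roy ℚ (lm l A)} with hT
  have hfin : T.Finite := sing_finite H _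
  rw [Set.ncard_eq_toFinset_card T hfin]
  let g : (Fin 4 → Fin 4 → Fin N → ℤ) → (Fin 6 × Fin N → ℤ) :=
    fun A p => A (ri p.1) (ci p.1) p.2
  have hg : Set.InjOn g (hfin.toFinset : Set (Fin 4 → Fin 4 → Fin N → ℤ)) := by
    intro A hA A' hA' h
    rw [Finset.mem_coe, Set.Finite.mem_toFinset] at hA hA'
    have h1 := fun i j k => lm_skew hli hA.2.1 i j k
    have h2 := fun i j k => lm_skew hli hA'.2.1 i j k
    have h3 : ∀ i k, A (ri i) (ci i) k = A' (ri i) (ci i) k := fun i k => congrFun h (i, k)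
    have h01 := fun k => h3 0 k
    have h02 := fun k => h3 1 k
    have h03 := fun k => h3 2 k
    have h12 := fun k => h3 3 k
    have h13 := fun k => h3 4 k
    have h23 := fun k => h3 5 k
    have e : ∀ i : Fin 4, ∀ k, A i i k = A' i i k := by
      intro i k
      have a1 := h1 i i k
      have a2 := h2 i i k
      omega
    have f : ∀ i j : Fin 4, (∀ k, A i j k = A' i j k) → ∀ k, A j i k = A' j i k := by
      intro i j hij k
      rw [h1 i j k, h2 i j k, hij k]
    funext i j k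
    fin_cases i <;> fin_cases j
    · exact e 0 k
    · exact h01 k
    · exact h02 k
    · exact h03 k
    · exact f 0 1 h01 k
    · exact e 1 k
    · exact h12 k
    · exact h13 k
    · exact f 0 2 h02 k
    · exact f 1 2 h12 k
    · exact e 2 k
    · exact h23 k
    · exact f 0 3 h03 k
    · exact f 1 3 h13 k
    · exact f 2 3 h23 k
    · exact e 3 k
  rw [← Finset.card_image_of_injOn hg]
  refine hκ H hH _ ?_
  intro a ha
  obtain ⟨A, hA, rfl⟩ := Finset.mem_image.1 ha
  rw [Set.Finite.mem_toFinset] at hA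
  obtain ⟨hA1, hA2, hA3, hA4⟩ := hA
  refine ⟨fun p => hA1 _ _ _, ?_⟩
  have h5 := lm_sk hA2
  have h6 : (fun i => cmb l (fun k => ((g A (i, k) : ℤ) : QB))) =
      fun i => ∑ k, (A (ri i) (ci i) k : ℂ) * l k := by
    funext i
    simp only [cmb, g]
    refine Finset.sum_congr rfl fun k _ => ?_
    rw [map_intCast]
  refine ⟨?_, ?_⟩
  · change pf (fun i => cmb l (fun k => ((g A (i, k) : ℤ) : QB)))
      (fun i => cmb l (fun k => ((g A (i, k) : ℤ) : QB))) = 0
    rw [h6]
    apply pf_of_rank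
    rw [h5]
    exact hA3
  · obtain ⟨k, k', hk⟩ := not_roy (K := ℚ) two_ne_zero l
      (fun i k => ((A (ri i) (ci i) k : ℤ) : ℚ)) (by
      have h7 : (fun i => ∑ k, algebraMap ℚ ℂ ((A (ri i) (ci i) k : ℤ) : ℚ) * l k) =
          fun i => ∑ k, (A (ri i) (ci i) k : ℂ) * l k := by
        funext i
        refine Finset.sum_congr rfl fun k _ => ?_
        rw [map_intCast]
      rw [h7, h5]
      exact hA4)
    refine ⟨k, k', ?_⟩
    have h8 : pf (fun i => ((g A (i, k) : ℤ) : QB)) (fun i => ((g A (i, k') : ℤ) : QB)) =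
        ((pfZ (fun i => A (ri i) (ci i) k) (fun i => A (ri i) (ci i) k') : ℤ) : QB) := by
      simp only [pf, pfZ, g]
      push_cast
      ring
    have h9 : pf (fun i => ((A (ri i) (ci i) k : ℤ) : ℚ))
        (fun i => ((A (ri i) (ci i) k' : ℤ) : ℚ)) =
        ((pfZ (fun i => A (ri i) (ci i) k) (fun i => A (ri i) (ci i) k') : ℤ) : ℚ) := by
      simp only [pf, pfZ]
      push_cast
      ring
    change pf (fun i => ((g A (i, k) : ℤ) : QB)) (fun i => ((g A (i, k') : ℤ) : QB)) ≠ 0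
    rw [h8]
    rw [h9] at hk
    intro h10
    apply hk
    have h11 : pfZ (fun i => A (ri i) (ci i) k) (fun i => A (ri i) (ci i) k') = 0 := by
      exact_mod_cast h10
    rw [h11]
    rfl

/-- **The lower bound.** -/
theorem skew_lower {N : ℕ} (l : Fin N → ℂ) (H : ℕ) :
    H ^ (3 * N) ≤ Set.ncard {A : Fin 4 → Fin 4 → Fin N → ℤ | (∀ i j k, |A i j k| ≤ H) ∧
        (lm l A).transpose = -lm l A ∧ (lm l A).rank ≤ 2} := by
  classical
  let g : (Fin 1 → Fin 3 → Fin N → ℤ) → (Fin 4 → Fin 4 → Fin N → ℤ) := fun B i j k =>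
    (!![0, B 0 0 k, B 0 1 k, B 0 2 k; -B 0 0 k, 0, 0, 0; -B 0 1 k, 0, 0, 0;
      -B 0 2 k, 0, 0, 0] : Matrix (Fin 4) (Fin 4) ℤ) i j
  have hg : Function.Injective g := by
    intro B B' h
    funext i j k
    have hi : i = 0 := Subsingleton.elim _ _
    subst hi
    fin_cases j
    · have := congrFun (congrFun (congrFun h 0) 1) k
      simpa [g] using this
    · have := congrFun (congrFun (congrFun h 0) 2) k
      simpa [g] using this
    · have := congrFun (congrFun (congrFun h 0) 3) k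
      simpa [g] using this
  have h1 := card_box (a := 1) (n := 3) (N := N) (H := H)
  rw [one_mul] at h1
  refine h1.trans ?_
  rw [← Finset.card_image_of_injective _ hg, ← Set.ncard_coe_finset]
  refine Set.ncard_le_ncard ?_ (sing_finite H _)
  intro A hA
  rw [Finset.mem_coe, Finset.mem_image] at hA
  obtain ⟨B, hB, rfl⟩ := hA
  rw [mem_box] at hB
  have h3 : lm l (g B) = sk ![∑ k, (B 0 0 k : ℂ) * l k, ∑ k, (B 0 1 k : ℂ) * l k,
      ∑ k, (B 0 2 k : ℂ) * l k, 0, 0, 0] := by
    ext i j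
    fin_cases i <;> fin_cases j <;> simp [lm, g, sk]
  refine ⟨fun i j k => ?_, ?_, ?_⟩
  · fin_cases i <;> fin_cases j <;> simp [g, hB]
  · rw [h3]
    exact sk_transpose _
  · rw [h3]
    exact rank_sk_le _ rfl rfl rfl

end Pool.Agent.TH519.HS
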