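import Pool.Agent.TH519.HS.Qf3
import Pool.Agent.TH519.HS.Sk
import Pool.Agent.TH519.HS.SgF

/-!
# Skew-symmetric matrices of logarithms of size four
-/

set_option autoImplicit false

namespace Pool.Agent.TH519.HS

open Filter Module Pool.Agent.TH519.GL Pool.Agent.TH519.FE
open Pool.Agent.H301R2.SSE (QB mem_QB Lt Lt_log)

/-- the matrix of the Pfaffian -/
noncomputable def Sp : Matrix (Fin 6) (Fin 6) QB :=
  !![0, 0, 0, 0, 0, 1; 0, 0, 0, 0, -1, 0; 0, 0, 0, 1, 0, 0; 0, 0, 1, 0, 0, 0;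
    0, -1, 0, 0, 0, 0; 1, 0, 0, 0, 0, 0]

theorem Sp_symm : Sp.IsSymm := by
  refine Matrix.IsSymm.ext fun i j => ?_
  fin_cases i <;> fin_cases j <;> simp [Sp]

theorem Sp_unit : IsUnit Sp.det := by
  have h : Sp * Sp = 1 := by
    ext i j
    fin_cases i <;> fin_cases j <;> simp [Sp, Matrix.mul_apply, Fin.sum_univ_six]
  exact Matrix.isUnit_det_of_left_inverse h

theorem Sp_form (x y : Fin 6 → ℂ) : ∑ i, ∑ j, (Sp i j : ℂ) * x i * y j = pf x y := by
  simp [Sp, pf, Fin.sum_univ_six]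
  ring

theorem Sp_form' (x y : Fin 6 → QB) : ∑ i, ∑ j, Sp i j * x i * y j = pf x y := by
  simp [Sp, pf, Fin.sum_univ_six]
  ring

/-- **Points on the quadric of the lines.** -/
theorem sk_coord {M q : ℕ} (l' : Fin M → ℂ) (hl : LinearIndependent QB l')
    (hl' : ∀ j, l' j ∈ Lt) (hq : q = M + 49)
    (φ : Fin q → ((Fin 6 × Fin M → QB) →ₗ[QB] QB)) :
    ∃ P : MvPolynomial (Fin q) QB, P ≠ 0 ∧ ∀ b : Fin 6 → Fin M → QB,
      pf (fun i => cmb l' (b i)) (fun i => cmb l' (b i)) = 0 →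
      (∃ k k', pf (fun i => b i k) (fun i => b i k') ≠ 0) →
      MvPolynomial.eval (fun k => φ k (fun p => b p.1 p.2)) P = 0 := by
  obtain ⟨P, h1, h2⟩ := quad_coord (m := 6) (r := 1) l' hl hl' Sp Sp_symm Sp_unit (by norm_num)
    (by omega) φ
  refine ⟨P, h1, fun b hb1 hb2 => h2 b ?_ ?_⟩
  · rw [Sp_form]
    exact hb1
  · obtain ⟨k, k', hk⟩ := hb2
    refine ⟨k, k', ?_⟩
    rw [Sp_form']
    exact hk

section alg

/-- coefficients -/
def tq {F : Type} [Field F] (q : Fin 4 → F) : Fin 4 → Fin 6 → F :=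
  ![![q 1, q 2, q 3, 0, 0, 0], ![-q 0, 0, 0, q 2, q 3, 0], ![0, -q 0, 0, -q 1, 0, q 3],
    ![0, 0, -q 0, 0, -q 1, -q 2]]

theorem sk_tq {F : Type} [Field F] (x : Fin 6 → F) (q : Fin 4 → F) (i : Fin 4) :
    (sk x).mulVec q i = ∑ j, x j * tq q i j := by
  fin_cases i <;>
    simp [sk, tq, Matrix.mulVec, dotProduct, Fin.sum_univ_four, Fin.sum_univ_six]

theorem tq_map {K : Type} [Field K] (f : K →+* ℂ) (q : Fin 4 → K) (i : Fin 4) (j : Fin 6) :
    f (tq q i j) = tq (fun i => f (q i)) i j := by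
  fin_cases i <;> fin_cases j <;> simp [tq]

theorem comb_zero {K : Type} [Field K] (f : K →+* ℂ) {M : ℕ} (l : Fin M → ℂ)
    (b : Fin 6 → Fin M → K) (q : Fin 4 → K) (h : ∀ k, (sk fun i => b i k).mulVec q = 0) :
    (sk fun i => ∑ k, f (b i k) * l k).mulVec (fun i => f (q i)) = 0 := by
  funext i
  rw [sk_tq]
  simp only [Finset.sum_mul]
  rw [Finset.sum_comm]
  refine Finset.sum_eq_zero fun k _ => ?_
  have h1 := congrFun (h k) i
  rw [sk_tq] at h1
  have h2 := congrArg f h1
  rw [map_sum, Pi.zero_apply, map_zero] at h2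
  have h3 : ∑ j, f (b j k) * l k * tq (fun i => f (q i)) i j =
      l k * ∑ j, f (b j k * tq q i j) := by
    rw [Finset.mul_sum]
    refine Finset.sum_congr rfl fun j _ => ?_
    rw [map_mul, tq_map]
    ring
  rw [h3, h2, mul_zero]

theorem st_comb {K : Type} [Field K] (f : K →+* ℂ) {M : ℕ} (l : Fin M → ℂ)
    (b : Fin 6 → Fin M → K) : st (fun i => ∑ k, f (b i k) * l k) =
      fun i => ∑ k, f (st (fun i => b i k) i) * l k := by
  funext i
  fin_cases i <;> simp [st]

theorem alt_of_lines {K : Type} [Field K] (h2 : (2 : K) ≠ 0) (f : K →+* ℂ) {M : ℕ}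
    (l : Fin M → ℂ) (b : Fin 6 → Fin M → K)
    (h : ∀ k k', pf (fun i => b i k) (fun i => b i k') = 0) :
    ∃ q : Fin 4 → K, q ≠ 0 ∧
      ((sk fun i => ∑ k, f (b i k) * l k).mulVec (fun i => f (q i)) = 0 ∨
      (sk (st fun i => ∑ k, f (b i k) * l k)).mulVec (fun i => f (q i)) = 0) := by
  obtain ⟨q, hq, h1 | h1⟩ := lines h2 (fun k i => b i k) h
  · exact ⟨q, hq, Or.inl (comb_zero f l b q h1)⟩
  · refine ⟨q, hq, Or.inr ?_⟩
    rw [st_comb]
    exact comb_zero f l (fun i k => st (fun i => b i k) i) q h1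

/-- Roy's alternative over the field `K` -/
def Roy (K : Type) [Field K] [Algebra K ℂ] (M : Matrix (Fin 4) (Fin 4) ℂ) : Prop :=
  (¬ LinearIndependent K (fun i : Fin 4 => (M i : Fin 4 → ℂ))) ∨
    ∃ v : Fin 4 → K, v ≠ 0 ∧ (fun i => algebraMap K ℂ (v i)) ∈ LinearMap.range M.mulVecLin

theorem wedge3 (x : Fin 6 → ℂ) (q : Fin 4 → ℂ) (h : (sk (st x)).mulVec q = 0) (i r s : Fin 4) :
    q i * sk x r s + q r * sk x s i + q s * sk x i r = 0 := by
  have h0 := congrFun h 0
  have h1 := congrFun h 1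
  have h2 := congrFun h 2
  have h3 := congrFun h 3
  simp [sk, st, Matrix.mulVec, dotProduct, Fin.sum_univ_four] at h0 h1 h2 h3
  fin_cases i <;> fin_cases r <;> fin_cases s <;> simp [sk] <;>
    first
    | ring1
    | linear_combination h0
    | linear_combination -h0
    | linear_combination h1
    | linear_combination -h1
    | linear_combination h2
    | linear_combination -h2
    | linear_combination h3
    | linear_combination -h3

theorem roy_of_alt {K : Type} [Field K] [Algebra K ℂ] (x : Fin 6 → ℂ) (q : Fin 4 → K)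
    (hq : q ≠ 0) (h : (sk x).mulVec (fun i => algebraMap K ℂ (q i)) = 0 ∨
      (sk (st x)).mulVec (fun i => algebraMap K ℂ (q i)) = 0) : Roy K (sk x) := by
  have hsk : ∀ i j, sk x i j = -sk x j i := by
    intro i j
    have := congrFun (congrFun (sk_transpose x) j) i
    exact this
  rcases h with h | h
  · left
    intro hli
    rw [Fintype.linearIndependent_iff] at hli
    apply hq
    funext i
    refine hli q ?_ i
    funext j
    rw [Finset.sum_apply]
    have h1 := congrFun h j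
    change _ = (0 : ℂ)
    rw [← neg_eq_zero]
    rw [← Finset.sum_neg_distrib]
    refine Eq.trans ?_ h1
    change _ = ∑ i, sk x j i * algebraMap K ℂ (q i)
    refine Finset.sum_congr rfl fun i _ => ?_
    rw [Pi.smul_apply, Algebra.smul_def, hsk i j]
    ring
  · by_cases hx : ∃ r s, sk x r s ≠ 0
    · obtain ⟨r, s, hrs⟩ := hx
      right
      refine ⟨q, hq, Pi.single s (algebraMap K ℂ (q r) / sk x r s) -
        Pi.single r (algebraMap K ℂ (q s) / sk x r s), ?_⟩
      funext i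
      have h1 := wedge3 x _ h i r s
      rw [Matrix.mulVecLin_apply, Matrix.mulVec_sub, Pi.sub_apply, Matrix.mulVec_single,
        Matrix.mulVec_single]
      simp only [Pi.smul_apply, Matrix.col_apply, MulOpposite.smul_eq_mul_unop,
        MulOpposite.unop_op]
      rw [hsk s i] at h1
      field_simp
      linear_combination -h1
    · push Not at hx
      left
      intro hli
      refine hli.ne_zero 0 ?_
      funext j
      exact hx 0 j

theorem pf_of_rank (x : Fin 6 → ℂ) (h : (sk x).rank ≤ 2) : pf x x = 0 := by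
  by_contra hne
  have h1 := sk_st x x
  have h2 : sk x * ((-2 / pf x x) • sk (st x)) = 1 := by
    rw [mul_smul_comm]
    have h3 : sk x * sk (st x) = (-(pf x x) / 2) • (1 : Matrix (Fin 4) (Fin 4) ℂ) := by
      have h4 : (2 : ℂ) • (sk x * sk (st x)) = -(pf x x) • (1 : Matrix (Fin 4) (Fin 4) ℂ) := by
        rw [two_smul, h1]
      have h5 := congrArg (fun M => (1 / 2 : ℂ) • M) h4
      simp only [smul_smul] at h5
      norm_num at h5
      rw [h5, ← neg_smul]
      congr 1
      ring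
    rw [h3, smul_smul]
    have h4 : -2 / pf x x * (-pf x x / 2) = 1 := by
      field_simp
    rw [h4, one_smul]
  have h3 : IsUnit (sk x) := (Matrix.isUnit_iff_isUnit_det _).2 (Matrix.isUnit_det_of_right_inverse h2)
  have h4 := Matrix.rank_of_isUnit _ h3
  rw [Fintype.card_fin] at h4
  omega

theorem sk_eta (M : Matrix (Fin 4) (Fin 4) ℂ) (h : M.transpose = -M) :
    sk ![M 0 1, M 0 2, M 0 3, M 1 2, M 1 3, M 2 3] = M := by
  have h1 : ∀ i j, M j i = -M i j := fun i j => congrFun (congrFun h i) j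
  have h2 : ∀ i, M i i = 0 := fun i => self_eq_neg.1 (h1 i i)
  ext i j
  fin_cases i <;> fin_cases j <;> simp [sk, h2]
  · exact (h1 0 1).symm
  · exact (h1 0 2).symm
  · exact (h1 1 2).symm
  · exact (h1 0 3).symm
  · exact (h1 1 3).symm
  · exact (h1 2 3).symm

theorem rank_sk_le (x : Fin 6 → ℂ) (h3 : x 3 = 0) (h4 : x 4 = 0) (h5 : x 5 = 0) :
    (sk x).rank ≤ 2 := by
  have h : sk x = (!![1, 0; 0, x 0; 0, x 1; 0, x 2] : Matrix (Fin 4) (Fin 2) ℂ) *
      (!![0, x 0, x 1, x 2; -1, 0, 0, 0] : Matrix (Fin 2) (Fin 4) ℂ) := by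
    ext i j
    fin_cases i <;> fin_cases j <;>
      simp [sk, Matrix.mul_apply, Fin.sum_univ_two, h3, h4, h5]
  rw [h]
  refine (Matrix.rank_mul_le_left _ _).trans ?_
  refine (Matrix.rank_le_width _)

end alg

end Pool.Agent.TH519.HS
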