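import Pool.Agent.TH519.HS.Mas
import Pool.Agent.TH519.HS.Cnt

/-!
# Points on families of algebraic varieties: final form
-/

set_option autoImplicit false

namespace Pool.Agent.TH519.HS

open Module Pool.Agent.TH519.GL Pool.Agent.TH519.FE
open Pool.Agent.H301R2.SSE (QB mem_QB Lt Lt_log)

theorem master_id {M m r p ρ q : ℕ} (l' : Fin M → ℂ) (hl : LinearIndependent QB l')
    (hl' : ∀ j, l' j ∈ Lt) (f : Fin r → MvPolynomial (Fin m ⊕ Fin p) ℂ)
    (hq : q = m * (m - 1) + ρ * M + p + 1) (φ : Fin q → ((Fin m × Fin M → QB) →ₗ[QB] QB)) :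
    ∃ P : MvPolynomial (Fin q) QB, P ≠ 0 ∧
      ∀ (b : Fin m → Fin M → QB) (c : Fin p → QB),
        (∀ j, MvPolynomial.eval (pt l' b c) (f j) = 0) →
        finrank QB (RelP (pt l' b c) f) ≤ ρ →
        MvPolynomial.eval (fun k => φ k (fun q => b q.1 q.2)) P = 0 := by
  subst hq
  obtain ⟨P, h1, h2⟩ := master (ρ := ρ) l' hl hl' f (id : Fin m → Fin m) φ
  refine ⟨P, h1, fun b c h3 h4 => h2 b c h3 ?_⟩
  have h5 : LinearMap.funLeft QB QB (id : Fin m → Fin m) = LinearMap.id := rfl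
  rw [h5, Submodule.map_id]
  exact h4

/-- coordinates of tuples -/
noncomputable def mkU {K W : Type} [Field K] [AddCommGroup W] [Module K W]
    [FiniteDimensional K W] (m : ℕ) : (Fin m × Fin (finrank K W) → K) →ₗ[K] (Fin m → W) where
  toFun b := fun i => ∑ j, b (i, j) • Module.finBasis K W j
  map_add' b b' := by
    funext i
    simp only [Pi.add_apply, add_smul, Finset.sum_add_distrib]
  map_smul' c b := by
    funext i
    simp only [Pi.smul_apply, smul_eq_mul, mul_smul, Finset.smul_sum, RingHom.id_apply]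

theorem cmb_bsU (W : Submodule QB ℂ) [FiniteDimensional QB W] (w : W) :
    cmb (bs W) (fun j => (Module.finBasis QB W).repr w j) = w := by
  have h1 := congrArg (fun y : W => (y : ℂ)) ((Module.finBasis QB W).sum_repr w)
  simp only [Submodule.coe_sum, Submodule.coe_smul] at h1
  rw [cmb]
  refine Eq.trans ?_ h1
  refine Finset.sum_congr rfl fun j _ => ?_
  rw [Algebra.smul_def]
  rfl

theorem fam_dim (W : Submodule QB ℂ) [FiniteDimensional QB W] (hW : W ≤ Lt) {m r p ρ : ℕ}
    (f : Fin r → MvPolynomial (Fin m ⊕ Fin p) ℂ)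
    (φ : Fin (m * (m - 1) + ρ * finrank QB W + p + 1) → ((Fin m → W) →ₗ[QB] QB)) :
    ∃ P : MvPolynomial (Fin (m * (m - 1) + ρ * finrank QB W + p + 1)) QB, P ≠ 0 ∧
      ∀ (y : Fin m → W) (c : Fin p → QB),
        (∀ j, MvPolynomial.eval (Sum.elim (fun i => (y i : ℂ)) (fun l => (c l : ℂ))) (f j) = 0) →
        finrank QB (RelP (Sum.elim (fun i => (y i : ℂ)) (fun l => (c l : ℂ))) f) ≤ ρ →
        MvPolynomial.eval (fun k => φ k y) P = 0 := by
  obtain ⟨P, h1, h2⟩ := master_id (bs W) (bs_li W)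
    (fun j => hW (Module.finBasis QB W j).2) f rfl (fun k => φ k ∘ₗ mkU m)
  refine ⟨P, h1, fun y c hy1 hy2 => ?_⟩
  have h3 : pt (bs W) (fun i j => (Module.finBasis QB W).repr (y i) j) c =
      Sum.elim (fun i => (y i : ℂ)) (fun l => (c l : ℂ)) := by
    funext i
    cases i with
    | inl i => exact cmb_bsU W (y i)
    | inr i => rfl
  have h4 := h2 (fun i j => (Module.finBasis QB W).repr (y i) j) c (by
    rw [h3]
    exact hy1) (by
    rw [h3]
    exact hy2)
  have h5 : mkU (K := QB) (W := W) m (fun q => (Module.finBasis QB W).repr (y q.1) q.2) =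
      y := by
    funext i
    exact (Module.finBasis QB W).sum_repr (y i)
  simp only [LinearMap.comp_apply, h5] at h4
  exact h4

theorem fam_count {N : ℕ} (l : Fin N → ℂ) (hl : LinearIndependent QB l)
    (hl' : ∀ j, l j ∈ Lt) {m r p ρ : ℕ} (f : Fin r → MvPolynomial (Fin m ⊕ Fin p) ℂ) :
    ∃ κ : ℕ, ∀ H : ℕ, 1 ≤ H → Set.ncard {A : Fin m → Fin N → ℤ | (∀ i j, |A i j| ≤ H) ∧
      ∃ c : Fin p → QB,
      (∀ j, MvPolynomial.eval (Sum.elim (fun i => ∑ j, (A i j : ℂ) * l j)
        (fun k => (c k : ℂ))) (f j) = 0) ∧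
      finrank QB (RelP (Sum.elim (fun i => ∑ j, (A i j : ℂ) * l j)
        (fun k => (c k : ℂ))) f) ≤ ρ} ≤
      κ * H ^ (m * (m - 1) + ρ * N + p) := by
  classical
  let ε : Fin (m * N) ≃ Fin m × Fin N := finProdFinEquiv.symm
  let S : Set (Fin (m * N) → QB) := {x | ∃ c : Fin p → QB,
      (∀ j, MvPolynomial.eval (pt l (fun i j => x (ε.symm (i, j))) c) (f j) = 0) ∧
      finrank QB (RelP (pt l (fun i j => x (ε.symm (i, j))) c) f) ≤ ρ}
  obtain ⟨κ, hκ⟩ := count (d := m * (m - 1) + ρ * N + p) S (by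
    intro φ
    obtain ⟨P, h1, h2⟩ := master_id (ρ := ρ) l hl hl' f rfl
      (fun k => φ k ∘ₗ LinearMap.funLeft QB QB ε)
    refine ⟨P, h1, ?_⟩
    rintro x ⟨c, hc1, hc2⟩
    have h3 := h2 (fun i j => x (ε.symm (i, j))) c hc1 hc2
    have h4 : LinearMap.funLeft QB QB ε (fun q : Fin m × Fin N => x (ε.symm (q.1, q.2))) = x := by
      funext i
      change x (ε.symm ((ε i).1, (ε i).2)) = x i
      rw [Prod.mk.eta, Equiv.symm_apply_apply]
    simp only [LinearMap.comp_apply, h4] at h3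
    exact h3)
  refine ⟨κ, fun H hH => ?_⟩
  set T := {A : Fin m → Fin N → ℤ | (∀ i j, |A i j| ≤ H) ∧
      ∃ c : Fin p → QB,
      (∀ j, MvPolynomial.eval (Sum.elim (fun i => ∑ j, (A i j : ℂ) * l j)
        (fun k => (c k : ℂ))) (f j) = 0) ∧
      finrank QB (RelP (Sum.elim (fun i => ∑ j, (A i j : ℂ) * l j)
        (fun k => (c k : ℂ))) f) ≤ ρ} with hT
  have hfin : T.Finite := by
    have h1 : ((Fintype.piFinset fun _ : Fin m => Fintype.piFinset fun _ : Fin N =>
        Finset.Icc (-(H : ℤ)) H : Finset (Fin m → Fin N → ℤ)) :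
        Set (Fin m → Fin N → ℤ)).Finite := Finset.finite_toSet _
    refine h1.subset fun A hA => ?_
    rw [Finset.mem_coe, Fintype.mem_piFinset]
    intro i
    rw [Fintype.mem_piFinset]
    intro j
    rw [Finset.mem_Icc, ← abs_le]
    exact hA.1 i j
  rw [Set.ncard_eq_toFinset_card T hfin]
  let g : (Fin m → Fin N → ℤ) → (Fin (m * N) → ℤ) := fun A k => A (ε k).1 (ε k).2
  have hg : Function.Injective g := by
    intro A A' h
    funext i j
    have := congrFun h (ε.symm (i, j))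
    simp only [g, Equiv.apply_symm_apply] at this
    exact this
  rw [← Finset.card_image_of_injective _ hg]
  refine hκ H hH _ ?_
  intro a ha
  obtain ⟨A, hA, rfl⟩ := Finset.mem_image.1 ha
  rw [Set.Finite.mem_toFinset] at hA
  refine ⟨fun k => hA.1 _ _, ?_⟩
  obtain ⟨-, c, hc1, hc2⟩ := hA
  have h1 : pt l (fun i j => (fun k => ((g A k : ℤ) : QB)) (ε.symm (i, j))) c =
      Sum.elim (fun i => ∑ j, (A i j : ℂ) * l j) (fun k => (c k : ℂ)) := by
    funext i
    cases i with
    | inl i =>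
      simp only [pt, Sum.elim_inl, cmb, g, Equiv.apply_symm_apply]
      refine Finset.sum_congr rfl fun j _ => ?_
      rw [map_intCast]
    | inr i => rfl
  refine ⟨c, ?_, ?_⟩
  · rw [h1]
    exact hc1
  · rw [h1]
    exact hc2

end Pool.Agent.TH519.HS
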